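import Pool.Agent.Lib.MP_56f651_co.IX.St

open Finset

namespace Pool.Agent.Lib.MP_56f651_co.IX

namespace CoreAux

variable {K G : Type} [CommRing K] [AddCommGroup G] [Fintype G] [DecidableEq G]

/-- the element of the group ring with coefficients `f` -/
noncomputable def emb (f : G → K) : AddMonoidAlgebra K G :=
  ∑ y, AddMonoidAlgebra.single y (f y)

lemma emb_coeff (f : G → K) (y : G) : (emb f).coeff y = f y := by
  simp [emb, AddMonoidAlgebra.coeff_sum, Finsupp.finsetSum_apply, Finsupp.single_apply]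

omit [DecidableEq G] in
lemma emb_mul (f g : G → K) : emb f * emb g = emb (fun d => ∑ y, f y * g (d - y)) := by
  have h1 : ∀ d : G, AddMonoidAlgebra.single d (∑ y, f y * g (d - y))
      = ∑ y, AddMonoidAlgebra.single d (f y * g (d - y)) := fun d =>
    map_sum (AddMonoidAlgebra.singleAddHom d) _ _
  unfold emb
  rw [Finset.sum_mul_sum]
  simp only [h1, AddMonoidAlgebra.single_mul_single]
  rw [Finset.sum_comm (γ := G) (f := fun d y => AddMonoidAlgebra.single d (f y * g (d - y)))]
  refine Finset.sum_congr rfl fun y _ => ?_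
  refine Fintype.sum_equiv (Equiv.addLeft y) _ _ fun z => ?_
  simp

omit [DecidableEq G] in
lemma emb_smul (c : K) (f : G → K) : c • emb f = emb (fun y => c * f y) := by
  unfold emb
  rw [Finset.smul_sum]
  simp only [AddMonoidAlgebra.smul_single, smul_eq_mul]

lemma emb_cube (b : G → K) (k w : K) (h0 : ∑ y, b y = 0)
    (h : ∀ d, ∑ y, b y * b (d - y) = k * ((if d = 0 then w else 0) - 1)) :
    emb b * (emb b * emb b) = (k * w) • emb b := by
  rw [emb_mul, emb_mul, emb_smul]
  congr 1
  funext d
  simp only [h]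
  have : ∀ y, b y * (k * ((if d - y = 0 then w else 0) - 1))
      = (if d = y then k * w * b y else 0) - k * b y := by
    intro y
    by_cases hy : d = y
    · simp [hy]; ring
    · have : d - y ≠ 0 := sub_ne_zero.mpr hy
      simp [hy, this]; ring
  simp only [this, Finset.sum_sub_distrib, ← Finset.mul_sum, h0]
  simp

lemma odd_pow {A : Type} [CommRing A] [Algebra K A] (B : A) (c : K)
    (h : B * (B * B) = c • B) (j : ℕ) : B ^ (2 * j + 1) = c ^ j • B := by
  induction j with
  | zero => simp
  | succ j ih =>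
    have : B ^ (2 * (j + 1) + 1) = B ^ (2 * j + 1) * (B * B) := by ring
    rw [this, ih, smul_mul_assoc, h, smul_smul, pow_succ]

lemma lift_eq (q : ℕ) (hq : 2 < q) (a b : ℤ) (ha : |a| ≤ 1) (hb : |b| ≤ 1)
    (h : (a : ZMod q) = (b : ZMod q)) : a = b := by
  have h1 : (q : ℤ) ∣ b - a := (ZMod.intCast_eq_intCast_iff_dvd_sub a b q).mp h
  have h2 : |b - a| < q := by
    have := abs_le.mp ha
    have := abs_le.mp hb
    have : (2 : ℤ) < q := by exact_mod_cast hq
    rw [abs_lt]; constructor <;> omega
  have := Int.eq_zero_of_abs_lt_dvd h1 h2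
  omega

end CoreAux

open CoreAux in
theorem stCore : StCore := by
  intro w _ β κ hκ hβ h0 hc u
  obtain ⟨q, hq, hp, hqu⟩ := Nat.forall_exists_prime_gt_and_eq_mod u.isUnit (w + 2)
  have : Fact q.Prime := ⟨hp⟩
  have : CharP (AddMonoidAlgebra (ZMod q) (ZMod w)) q :=
    charP_of_injective_algebraMap' (ZMod q) q
  set b : ZMod w → ZMod q := fun y => (β y : ZMod q) with hb
  have hb0 : ∑ y, b y = 0 := by
    have := congrArg (Int.cast : ℤ → ZMod q) h0
    simpa [hb] using this
  have hbc : ∀ d, ∑ y, b y * b (d - y)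
      = (κ : ZMod q) * ((if d = 0 then (w : ZMod q) else 0) - 1) := by
    intro d
    have := congrArg (Int.cast : ℤ → ZMod q) (hc d)
    by_cases hd : d = 0
    · simpa [hb, hd] using this
    · simpa [hb, hd] using this
  have hodd : q = 2 * (q / 2) + 1 := by
    have := hp.eq_two_or_odd
    omega
  have h1 : emb b ^ q = ((κ : ZMod q) * w) ^ (q / 2) • emb b := by
    have := odd_pow (emb b) _ (emb_cube b κ w hb0 hbc) (q / 2)
    rwa [← hodd] at this
  have hw : (w : ZMod q) ≠ 0 := by
    intro h
    have h2 := (ZMod.natCast_eq_zero_iff w q).mp h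
    have h3 := Nat.le_of_dvd (Nat.pos_of_ne_zero (NeZero.ne w)) h2
    omega
  have hne : (κ : ZMod q) * w ≠ 0 := by
    rcases hκ with rfl | rfl <;> simpa using hw
  have h2 : emb b ^ q = ∑ y, AddMonoidAlgebra.single ((u : ZMod w) * y) (b y) := by
    unfold emb
    rw [sum_pow_char]
    refine Finset.sum_congr rfl fun y _ => ?_
    rw [AddMonoidAlgebra.single_pow, ZMod.pow_card, nsmul_eq_mul, hqu]
  have h3 : ∀ y, b y = ((κ : ZMod q) * w) ^ (q / 2) * b (u * y) := by
    intro y
    have := congrArg (fun z => z.coeff ((u : ZMod w) * y)) (h2.symm.trans h1)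
    simp only [emb_smul, emb_coeff] at this
    rw [← this]
    simp [AddMonoidAlgebra.coeff_sum, Finsupp.finsetSum_apply, Finsupp.single_apply]
  rcases ZMod.pow_div_two_eq_neg_one_or_one q hne with h | h
  · refine ⟨1, Or.inl rfl, fun y => ?_⟩
    have h4 := h3 y
    rw [h, one_mul] at h4
    rw [one_mul]
    exact lift_eq q (by omega) _ _ (hβ _) (hβ _) h4.symm
  · refine ⟨-1, Or.inr rfl, fun y => ?_⟩
    have h4 := h3 y
    rw [h] at h4
    refine lift_eq q (by omega) _ _ (hβ _) (by simpa using hβ y) ?_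
    have h5 : b (u * y) = -b y := by rw [h4]; ring
    simpa [hb] using h5

end Pool.Agent.Lib.MP_56f651_co.IX
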