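import Pool.Agent.Lib.MP_56f651_co.IX.Four

open Finset

namespace Pool.Agent.Lib.MP_56f651_co.IX

/-- the sign sequence of the translate fixed by all multipliers -/
lemma setup {v : ℕ} [NeZero v] (D : Finset (ZMod v)) (hv : v % 4 = 3) (hD : D.card = (v - 1) / 2)
    (hl : ∀ d : ZMod v, d ≠ 0 → ((D ×ˢ D).filter (fun q => q.1 - q.2 = d)).card = (v - 3) / 4)
    (M : Subgroup (ZMod v)ˣ)
    (hm : ∀ t ∈ M, ∃ b : ZMod v, D.image (fun x => (t : ZMod v) * x) = D.image (fun x => x + b)) :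
    ∃ (s : ZMod v → ℤ) (c : ZMod v), Had s ∧ (∀ t ∈ M, ∀ x, s (t * x) = s x) ∧
      ∀ x, x ∈ D ↔ s (x - c) = -1 := by
  let c : ZMod v := -2 * ∑ x ∈ D, x
  let s : ZMod v → ℤ := fun x => if x + c ∈ D then -1 else 1
  have hk : 2 * (D.card : ZMod v) = -1 := by
    have : 2 * D.card + 1 = v := by omega
    have h2 := congrArg (Nat.cast : ℕ → ZMod v) this
    rw [ZMod.natCast_self] at h2
    push_cast at h2
    linear_combination h2
  have hs : ∀ t ∈ M, ∀ x, s (t * x) = s x := by
    intro t ht x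
    obtain ⟨b, hb⟩ := hm t ht
    have h1 := congrArg (∑ x ∈ ·, x) hb
    have hi : Function.Injective fun x => (t : ZMod v) * x := fun a b h =>
      (Units.mul_right_inj t).mp h
    simp only [sum_image hi.injOn,
      sum_image (add_left_injective b).injOn, sum_add_distrib, sum_const, nsmul_eq_mul] at h1
    rw [← mul_sum] at h1
    have h2 : b = t * c - c := by
      simp only [c]
      linear_combination 2 * h1 + b * hk
    refine if_congr ?_ rfl rfl
    rw [← (add_left_injective b).mem_finset_image, ← hb, h2,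
      show (t : ZMod v) * x + c + (t * c - c) = t * (x + c) by ring]
    exact hi.mem_finset_image
  have h : Had s := by
    have e1 : ∀ d, ∑ x, (if x + d ∈ D then (1 : ℤ) else 0) = D.card := fun d => by
      rw [← Equiv.sum_comp (Equiv.subRight d)]; simp
    have e2 : (D.card : ℤ) * 2 + 1 = v := by omega
    refine ⟨fun x => by simp only [s]; split_ifs <;> simp, ?_, fun d hd => ?_⟩
    · have : ∀ x, s x = 1 - 2 * if x + c ∈ D then 1 else 0 := fun x => by
        simp only [s]; split_ifs <;> rfl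
      simp only [this, sum_sub_distrib, ← mul_sum, e1, sum_const, card_univ, ZMod.card]
      simp only [nsmul_eq_mul]; omega
    · have : ∀ x, s x * s (x + d) = 1 - 2 * (if x + c ∈ D then 1 else 0) -
          2 * (if x + (d + c) ∈ D then 1 else 0) +
          4 * if x + d + c ∈ D ∧ x + c ∈ D then 1 else 0 := fun x => by
        simp only [s, add_assoc]; split_ifs <;> simp_all
      have e3 : (univ.filter fun x => x + d + c ∈ D ∧ x + c ∈ D).card = (v - 3) / 4 := by
        rw [← hl d hd]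
        refine card_nbij' (fun x => (x + d + c, x + c)) (fun q => q.2 - c) (fun x hx => ?_)
          (fun q hq => ?_) (fun x _ => by simp) fun q hq => ?_
        · simp only [coe_filter, mem_univ, true_and, Set.mem_ofPred_eq, mem_product] at hx ⊢
          exact ⟨hx, by ring⟩
        · simp only [coe_filter, mem_univ, true_and, Set.mem_ofPred_eq, mem_product] at hq ⊢
          rw [← hq.2]; simpa using hq.1
        · simp only [coe_filter, Set.mem_ofPred_eq] at hq
          rw [← hq.2]; ext <;> simp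
      simp only [this, sum_add_distrib, sum_sub_distrib, ← mul_sum, e1, sum_const, card_univ,
        ZMod.card, sum_boole, e3]
      simp only [nsmul_eq_mul]; omega
  exact ⟨s, c, h, hs, fun x => by simp [s]⟩

lemma two_concl {v : ℕ} [NeZero v] (hv : v % 4 = 3) (h3 : v ≠ 3) {s : ZMod v → ℤ} (h : Had s)
    (h2 : Two s) : ∃ a b : ZMod v, IsUnit a ∧
      ((v.Prime ∧ ∀ x, s x = -1 ↔ (a * x + b ≠ 0 ∧ IsSquare (a * x + b))) ∨
       (∃ p : ℕ, p.Prime ∧ (p + 2).Prime ∧ v = p * (p + 2) ∧ ∀ x, s x = -1 ↔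
           (jacobiSym ((a * x + b).val : ℤ) p * jacobiSym ((a * x + b).val : ℤ) (p + 2) = 1 ∨
            (a * x + b).val % (p + 2) = 0))) := by
  obtain ⟨c, M, hM, hs⟩ := h2
  have h' : Had fun x => s (x + c) :=
    ⟨fun x => h.sq _, (Equiv.sum_comp (Equiv.addRight c) s).trans h.sum, fun d hd => by
      simp only [add_right_comm _ d c]
      exact (Equiv.sum_comp (Equiv.addRight c) fun x => s x * s (x + d)).trans (h.cor d hd)⟩
  rcases nat_shape (sqfree hv h' hM hs) (by omega) (by omega) (fun p q hp hq h1 h2 =>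
    P1 hv h' hM hs hp hq h1 h2 (all_P1 hv h' hM hs h3 hq h2)) with h1 | ⟨p, hp, hq, h1⟩
  · obtain ⟨a, ha, h2⟩ := prime_case hv h' hM hs h3 h1
    exact ⟨a, -a * c, ha, Or.inl ⟨h1, fun x => by
      rw [← show a * (x - c) = a * x + -a * c by ring, ← h2, sub_add_cancel]⟩⟩
  · obtain ⟨a, ha, h2⟩ := twin_case hv h' hM hs hp hq h1
    exact ⟨a, -a * c, ha, Or.inr ⟨p, hp, hq, h1, fun x => by
      rw [← show a * (x - c) = a * x + -a * c by ring, ← h2, sub_add_cancel]⟩⟩

theorem final_of (hR : StReal) (hT : StT) (hK : StKill) (hS : StSmall) (hP : StPrime)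
    (v : ℕ) (D : Finset (ZMod v)) (hv : v % 4 = 3) (hD : D.card = (v - 1) / 2)
    (hl : ∀ d : ZMod v, d ≠ 0 → ((D ×ˢ D).filter (fun q => q.1 - q.2 = d)).card = (v - 3) / 4)
    (M : Subgroup (ZMod v)ˣ) (hM : M.index ≤ 7 ∨ ∃ l : ℕ, l.Prime ∧ M.index = 2 * l)
    (hm : ∀ t ∈ M, ∃ b : ZMod v, D.image (fun x => (t : ZMod v) * x) = D.image (fun x => x + b)) :
    (∃ a b : ZMod v, IsUnit a ∧
      ((v.Prime ∧ ∀ x : ZMod v, x ∈ D ↔ (a * x + b ≠ 0 ∧ IsSquare (a * x + b))) ∨
       (v.Prime ∧ (∃ c : ℕ, v = 4 * c ^ 2 + 27) ∧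
         ∃ g : ZMod v, orderOf g = v - 1 ∧ (∃ m : ℕ, g ^ (6 * m + 1) = 3) ∧
           ∀ x : ZMod v, x ∈ D ↔
             ∃ k : ℕ, (k % 6 = 0 ∨ k % 6 = 1 ∨ k % 6 = 3) ∧ g ^ k = a * x + b) ∨
       (∃ p : ℕ, p.Prime ∧ (p + 2).Prime ∧ v = p * (p + 2) ∧
         ∀ x : ZMod v, x ∈ D ↔
           (jacobiSym ((a * x + b).val : ℤ) p * jacobiSym ((a * x + b).val : ℤ) (p + 2) = 1 ∨
            (a * x + b).val % (p + 2) = 0)))) ∨
      v = 63 ∨ (v.Prime ∧ 10 ≤ M.index) := by
  have : NeZero v := ⟨by omega⟩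
  by_cases h3 : v = 3
  · subst h3
    obtain ⟨x, rfl⟩ := card_eq_one.mp hD
    refine Or.inl ⟨1, 1 - x, isUnit_one, Or.inl ⟨by norm_num, ?_⟩⟩
    clear hD hl hm
    revert x; decide
  obtain ⟨s, c, h, hs, hx⟩ := setup D hv hD hl M hm
  have hM1 : -1 ∉ M := fun h1 => h3 (h.symm hv fun x => by simpa using hs _ h1 x)
  have hi := PM_index hM1
  have h0 := M.index_ne_zero_of_finite
  have h15 : v = 15 → Two s := by
    rintro rfl
    exact hS.2 s h
  by_cases h2 : Two s
  · obtain ⟨a, b, ha, h4⟩ := two_concl hv h3 h h2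
    have e : ∀ x, a * (x - c) + b = a * x + (b - a * c) := fun x => by ring
    refine Or.inl ⟨a, b - a * c, ha, ?_⟩
    rcases h4 with ⟨h4, h5⟩ | ⟨p, hp, hq, h4, h5⟩
    · exact Or.inl ⟨h4, fun x => by rw [hx, h5, e]⟩
    · exact Or.inr (Or.inr ⟨p, hp, hq, h4, fun x => by rw [hx, h5, e]⟩)
  have h1 : (PM M).index ≠ 1 := fun h1 => h2 ⟨0, M, fun u u' hu hu' => by
    have h4 : ∀ u, u ∈ PM M := fun u => Subgroup.index_eq_one.mp h1 ▸ Subgroup.mem_top u
    simpa using M.mul_mem ((h4 u).resolve_left hu) ((h4 u').resolve_left hu'),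
    fun t ht x => by simpa using hs t ht x⟩
  have hp : (PM M).index.Prime := by
    rcases hM with h4 | ⟨l, h4, h5⟩
    · obtain h5 | h5 : (PM M).index = 2 ∨ (PM M).index = 3 := by omega
      all_goals rw [h5]; norm_num
    · rwa [show (PM M).index = l by omega]
  by_cases hv' : v.Prime
  · by_cases h10 : 10 ≤ M.index
    · exact Or.inr (Or.inr ⟨hv', h10⟩)
    have := Fact.mk hv'
    have h4 := M.index_dvd_card
    rw [Nat.card_eq_fintype_card, ZMod.card_units] at h4
    have h6 : M.index = 6 := by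
      have h5 := hp.two_le
      have h6 : (PM M).index ≠ 4 := fun h => by rw [h] at hp; norm_num at hp
      have h7 : M.index ≠ 4 := fun h => by
        rw [h] at h4
        obtain ⟨k, hk⟩ := h4
        clear * - hk hv
        omega
      clear * - h5 h6 h7 hi h10
      omega
    rcases hP v s hv h (fun a ha x => by
      have := hs _ (M.pow_index_mem (Units.mk0 a ha)) x
      rwa [h6] at this) with h5 | ⟨a, ha, h5, g, g1, g2, g3⟩
    · exact absurd h5 h2
    · exact Or.inl ⟨a, -a * c, ha, Or.inr (Or.inl ⟨hv', h5, g, g1, g2, fun x => by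
        rw [hx, g3, show a * (x - c) = a * x + -a * c by ring]⟩)⟩
  rcases hp.eq_two_or_odd' with h4 | h4
  · exact absurd (four_case hv h hs hM1 hR hT hK h15 hv' h4) h2
  · exact Or.inr (Or.inl ((odd_case hv h hs hM1 hR hT hK h15 hv' hp h4).resolve_left h2))

end Pool.Agent.Lib.MP_56f651_co.IX
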