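import Pool.Agent.Lib.MP_56f651_co.IX.Odd

open Finset

namespace Pool.Agent.Lib.MP_56f651_co.IX

/-- the Jacobi symbol of a unit -/
def jac {v : ℕ} (u : (ZMod v)ˣ) : ℤ := jacobiSym ((u : ZMod v).val : ℤ) v

lemma jac_mul {v : ℕ} [NeZero v] (a b : (ZMod v)ˣ) : jac (a * b) = jac a * jac b := by
  rw [jac, jac, jac, ← jacobiSym.mul_left, Units.val_mul, ZMod.val_mul, jacobiSym.mod_left]
  conv_rhs => rw [jacobiSym.mod_left]
  push_cast
  rw [Int.emod_emod_of_dvd _ dvd_rfl]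

lemma jac_sq {v : ℕ} (a : (ZMod v)ˣ) : jac a = 1 ∨ jac a = -1 :=
  jacobiSym.eq_one_or_neg_one (by
    rw [Int.gcd_natCast_natCast]; exact ZMod.val_coe_unit_coprime a)

lemma jac_neg_one {v : ℕ} [NeZero v] (hv : v % 4 = 3) : jac (-1 : (ZMod v)ˣ) = -1 := by
  rw [jac, jacobiSym.mod_left' (a₂ := -1), jacobiSym.at_neg_one (by rw [Nat.odd_iff]; omega),
    ZMod.χ₄_nat_three_mod_four hv]
  rw [← ZMod.intCast_eq_intCast_iff']
  simp

lemma jac_loc {v r w : ℕ} [NeZero v] [Fact r.Prime] (e : v = r * w) (hr : r ∣ v) {u : (ZMod v)ˣ}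
    (hu : u ∈ K v w) : jac u = quadraticChar (ZMod r) (ZMod.castHom hr (ZMod r) u) := by
  have w0 : NeZero w := ⟨fun h => NeZero.ne v (by simp [e, h])⟩
  have hw : w ∣ v := ⟨r, by rw [e, mul_comm]⟩
  have h1 := (mem_K_iff hw u).mp hu
  rw [← ZMod.natCast_zmod_val (u : ZMod v), map_natCast] at h1 ⊢
  rw [jac]
  generalize (u : ZMod v).val = n at *
  rw [e, jacobiSym.mul_right, jacobiSym.mod_left' (a₁ := n) (a₂ := 1) (b := w), jacobiSym.one_left,
    mul_one, ← jacobiSym.legendreSym.to_jacobiSym, legendreSym, Int.cast_natCast]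
  rw [← ZMod.intCast_eq_intCast_iff']
  simpa using h1

/-- for index two and odd squarefree `v = 3 mod 4` some local group lies in the subgroup -/
lemma ex_unram {v : ℕ} [NeZero v] (hv : v % 4 = 3) (hq : ∀ q, q.Prime → ¬ q ^ 2 ∣ v)
    {P : Subgroup (ZMod v)ˣ} (hP : P.index = 2) (h1 : -1 ∈ P) :
    ∃ r w, r.Prime ∧ v = r * w ∧ K v w ≤ P := by
  by_contra h0
  push Not at h0
  have hm := fun a b : (ZMod v)ˣ => Subgroup.mul_mem_iff_of_index_two hP (a := a) (b := b)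
  have j1 : jac (1 : (ZMod v)ˣ) = 1 := by
    have := jac_mul (1 : (ZMod v)ˣ) 1
    rw [one_mul] at this
    rcases jac_sq (1 : (ZMod v)ˣ) with h | h
    · exact h
    · rw [h] at this; omega
  let H : Subgroup (ZMod v)ˣ :=
    { carrier := {u | u ∈ P ↔ jac u = 1}
      one_mem' := iff_of_true P.one_mem j1
      mul_mem' := by
        intro a b ha hb
        simp only [Set.mem_ofPred_eq] at ha hb ⊢
        rw [hm, jac_mul, ha, hb]
        rcases jac_sq a with h | h <;> rcases jac_sq b with h' | h' <;> simp [h, h']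
      inv_mem' := by
        intro a ha
        simp only [Set.mem_ofPred_eq] at ha ⊢
        have := jac_mul a a⁻¹
        rw [mul_inv_cancel, j1] at this
        rw [P.inv_mem_iff, ha]
        rcases jac_sq a with h | h <;> rcases jac_sq a⁻¹ with h' | h' <;> rw [h, h'] at this ⊢ <;>
          omega }
  have := gen H (fun p n c hp hn e hc => ?_) (-1)
  · have h2 : jac (-1 : (ZMod v)ˣ) = 1 := this.mp h1
    rw [jac_neg_one hv] at h2
    omega
  obtain rfl : n = 1 := by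
    by_contra h2
    exact hq p hp ((pow_dvd_pow p (by omega)).trans ⟨c, e⟩)
  rw [pow_one] at e hc
  have := Fact.mk hp
  have hd : p ∣ v := ⟨c, e⟩
  have A : ∀ u ∈ K v c, jac u = 1 → u ∈ P := by
    intro u hu h2
    rw [jac_loc e hd hu] at h2
    have h3 : IsUnit (ZMod.castHom hd (ZMod p) u) := u.isUnit.map _
    obtain ⟨a, ha⟩ := (quadraticChar_one_iff_isSquare h3.ne_zero).mp h2
    obtain ⟨g, g1, g2⟩ := exK e hc hd a (isUnit_of_mul_isUnit_left (ha ▸ h3))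
    have h4 : u * (g * g)⁻¹ = 1 := K_inf e hc
      (by
        rw [mem_K_iff hd, Units.val_mul, map_mul, ha, ← g2, ← map_mul, ← map_mul, ← Units.val_mul,
          Units.mul_inv, map_one])
      ((K v c).mul_mem hu ((K v c).inv_mem ((K v c).mul_mem g1 g1)))
    rw [mul_inv_eq_one.mp h4, hm]
  intro u hu
  refine ⟨fun h2 => (jac_sq u).resolve_right fun h3 => h0 p c hp e fun k hk => ?_, A u hu⟩
  rcases jac_sq k with h4 | h4
  · exact A k hk h4
  · exact ((hm u k).mp (A _ ((K v c).mul_mem hu hk) (by rw [jac_mul, h3, h4]; rfl))).mp h2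

section
variable {v : ℕ} [NeZero v] (hv : v % 4 = 3) {s : ZMod v → ℤ} (h : Had s)
  {M : Subgroup (ZMod v)ˣ} (hs : ∀ t ∈ M, ∀ x, s (t * x) = s x) (hM : -1 ∉ M)

include hv h hs hM

/-- the order is `p (p + 2)` or `p (p - 2)` -/
lemma shape (hR : StReal) (hv' : ¬ v.Prime) (hl : (PM M).index = 2)
    (hq : ∀ q, q.Prime → ¬ q ^ 2 ∣ v) {w3 : ℕ} (e3 : v = 3 * w3) (h3 : K v w3 ≤ M)
    (hr : ∀ r w, r.Prime → r ≠ 3 → v = r * w → ¬ K v w ≤ PM M) :
    ∃ (p w : ℕ) (ε : ℤ), p.Prime ∧ p ≠ 3 ∧ v = p * w ∧ (ε = 1 ∨ ε = -1) ∧ (w : ℤ) = p - 2 * ε := by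
  have hm := fun a b : (ZMod v)ˣ => Subgroup.mul_mem_iff_of_index_two hl (a := a) (b := b)
  have v0 := NeZero.ne v
  by_cases hre : ∃ p w, p.Prime ∧ p ≠ 3 ∧ v = p * w ∧ Re M w
  · obtain ⟨p, w, hp, p3, e, h1⟩ := hre
    have w0 : w ≠ 0 := fun h => v0 (by simp [e, h])
    have w1 : w ≠ 1 := fun h => hv' (by rwa [e, h, mul_one])
    have : NeZero w := ⟨w0⟩
    obtain ⟨ε, hε, hw, -⟩ := lemE hv h hs hR (n := 1) hp (by rw [pow_one, e])
      ⟨p, by rw [e, mul_comm]⟩ (by omega) h1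
    exact ⟨p, w, ε, hp, p3, e, hε, by rwa [pow_one] at hw⟩
  push Not at hre
  have A : ∀ p w, p.Prime → p ≠ 3 → v = p * w → ∀ u ∈ K v w, u ∈ PM M → u ∈ M :=
    fun p w hp p3 e u hu h1 => h1.resolve_right fun h2 => hre p w hp p3 e ⟨u, hu, h2⟩
  have B : ∀ p w, p.Prime → p ≠ 3 → v = p * w → ∃ k ∈ K v w, k ∉ PM M ∧ k * k ∈ M :=
    fun p w hp p3 e => by
      obtain ⟨k, k1, k2⟩ := SetLike.not_le_iff_exists.mp (hr p w hp p3 e)
      exact ⟨k, k1, k2, A p w hp p3 e _ ((K v w).mul_mem k1 k1) ((hm k k).mpr Iff.rfl)⟩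
  have ex : ∀ d, 3 * d ∣ v → d ≠ 1 → ∃ q, q.Prime ∧ q ≠ 3 ∧ q ∣ d := fun d hd d1 => by
    obtain ⟨q, q1, q2⟩ := Nat.exists_prime_and_dvd d1
    refine ⟨q, q1, ?_, q2⟩
    rintro rfl
    exact hq 3 q1 (Dvd.dvd.trans (by rw [sq]; exact Nat.mul_dvd_mul_left 3 q2) hd)
  obtain ⟨r, hr1, r3, w, hw⟩ := ex w3 (e3 ▸ dvd_rfl) fun h => hv' (by rw [e3, h]; norm_num)
  have er : v = r * (3 * w) := by rw [e3, hw]; ring
  obtain ⟨k, k1, k2, k3⟩ := B r _ hr1 r3 er
  have C : ∃ r' w', r'.Prime ∧ r' ≠ 3 ∧ v = r' * w' ∧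
      ∃ k' ∈ K v w', k' ∉ PM M ∧ -(k * k') ∈ M := by
    by_contra h0
    push Not at h0
    let H : Subgroup (ZMod v)ˣ :=
      { carrier := {u | u ∈ M ∨ k * u ∈ M}
        one_mem' := Or.inl M.one_mem
        mul_mem' := by
          rintro a b (ha | ha) (hb | hb)
          · exact Or.inl (M.mul_mem ha hb)
          · exact Or.inr (by rw [mul_left_comm]; exact M.mul_mem ha hb)
          · exact Or.inr (by rw [← mul_assoc]; exact M.mul_mem ha hb)
          · refine Or.inl ((M.mul_mem_cancel_left k3).mp ?_)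
            rw [mul_mul_mul_comm]; exact M.mul_mem ha hb
        inv_mem' := by
          rintro a (ha | ha)
          · exact Or.inl (M.inv_mem ha)
          · refine Or.inr ?_
            have := M.mul_mem k3 (M.inv_mem ha)
            rwa [mul_inv, mul_mul_mul_comm, mul_inv_cancel, one_mul] at this }
    refine (gen H (fun p n c hp hn e hc => ?_) (-1)).elim hM
      fun h1 => k2 (Or.inr (by simpa using h1))
    obtain rfl : n = 1 := by
      by_contra h2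
      exact hq p hp ((pow_dvd_pow p (by omega)).trans ⟨c, e⟩)
    rw [pow_one] at e
    intro u hu
    by_cases p3 : p = 3
    · subst p3
      obtain rfl : c = w3 := by omega
      exact Or.inl (h3 hu)
    by_cases h2 : u ∈ PM M
    · exact Or.inl (A p c hp p3 e u hu h2)
    · exact Or.inr (((hm k u).mpr (iff_of_false k2 h2)).resolve_right (h0 p c hp p3 e u hu h2))
  obtain ⟨r', w', hr2, r3', er', k', l1, l2, l3⟩ := C
  have l4 : k' * k' ∈ M := A r' w' hr2 r3' er' _ ((K v w').mul_mem l1 l1) ((hm _ _).mpr Iff.rfl)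
  have pair : ∀ (a b wa wb : ℕ) (x y : (ZMod v)ˣ), a.Prime → b.Prime → a ≠ 3 → b ≠ 3 →
      v = a * wa → v = b * wb → x ∈ K v wa → y ∈ K v wb → -(x * y) ∈ M →
      ∃ (d : ℕ) (m : ℤ), v = a * b * (3 * d) ∧ m ^ 2 = v + 1 ∧ ((3 * d : ℕ) : ℤ) ∣ m - 1 := by
    intro a b wa wb x y ha hb a3 b3 ea eb hx hy hxy
    have ab : a ≠ b := by
      rintro rfl
      obtain rfl : wa = wb := Nat.eq_of_mul_eq_mul_left ha.pos (ea.symm.trans eb)
      exact hre a wa ha a3 ea ⟨_, (K v wa).mul_mem hx hy, hxy⟩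
    have d1 : a * b * 3 ∣ v := Nat.Coprime.mul_dvd_of_dvd_of_dvd
      (Nat.Coprime.mul_left ((Nat.coprime_primes ha Nat.prime_three).mpr a3)
        ((Nat.coprime_primes hb Nat.prime_three).mpr b3))
      (Nat.Coprime.mul_dvd_of_dvd_of_dvd ((Nat.coprime_primes ha hb).mpr ab) ⟨_, ea⟩ ⟨_, eb⟩)
      ⟨_, e3⟩
    obtain ⟨d, hd⟩ := d1
    have hd' : v = a * b * (3 * d) := by rw [hd]; ring
    have d0 : d ≠ 0 := fun h => v0 (by simp [hd, h])
    have : NeZero (3 * d) := ⟨by omega⟩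
    obtain ⟨m, m1, m2, -⟩ := real hv h hs hR hd' ⟨a * b, by rw [hd']; ring⟩ (by omega)
      ⟨x * y, (K v _).mul_mem (K_mono ⟨b, Nat.eq_of_mul_eq_mul_left ha.pos
        (ea.symm.trans (by rw [hd']; ring))⟩ hx) (K_mono ⟨a, Nat.eq_of_mul_eq_mul_left hb.pos
        (eb.symm.trans (by rw [hd']; ring))⟩ hy), hxy⟩
    exact ⟨d, m, hd', m1, m2⟩
  obtain ⟨d, m, hd, m1, c, hc⟩ := pair r r' _ _ k k' hr1 hr2 r3 r3' er er' k1 l1 l3
  have d0 : 0 < d := Nat.pos_of_ne_zero fun h => v0 (by simp [hd, h])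
  have key : c * (m + 1) = (r : ℤ) * r' := by
    refine mul_left_cancel₀ (show ((3 * d : ℕ) : ℤ) ≠ 0 by omega) ?_
    rw [hd] at m1
    push_cast at m1 hc ⊢
    linear_combination m1 - (m + 1) * hc
  have out : ∀ (p z : ℕ) (ε : ℤ), p.Prime → p ≠ 3 → v = p * z → (ε = 1 ∨ ε = -1) →
      m + 1 = ε * p → ∃ (p w : ℕ) (ε : ℤ), p.Prime ∧ p ≠ 3 ∧ v = p * w ∧ (ε = 1 ∨ ε = -1) ∧
        (w : ℤ) = p - 2 * ε := by
    intro p z ε hp p3 e hε hm
    refine ⟨p, z, ε, hp, p3, e, hε, mul_left_cancel₀ (show (p : ℤ) ≠ 0 by exact_mod_cast hp.ne_zero) ?_⟩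
    rw [e, show m = ε * p - 1 by linarith] at m1
    push_cast at m1
    rcases hε with rfl | rfl <;> linarith
  have sgn : ∀ p : ℕ, (m + 1).natAbs = p → ∃ ε : ℤ, (ε = 1 ∨ ε = -1) ∧ m + 1 = ε * p := by
    intro p hp
    rcases Int.natAbs_eq (m + 1) with h1 | h1
    · exact ⟨1, Or.inl rfl, by rw [h1, hp, one_mul]⟩
    · exact ⟨-1, Or.inr rfl, by rw [h1, hp, neg_one_mul]⟩
  have dv : (m + 1).natAbs ∣ r * r' := by
    have := Int.natAbs_dvd_natAbs.mpr (Dvd.intro_left c key)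
    simpa [Int.natAbs_mul] using this
  obtain ⟨x, y, hx, hy, hxy⟩ := exists_dvd_and_dvd_of_dvd_mul dv
  rcases (Nat.dvd_prime hr1).mp hx with rfl | rfl <;> rcases (Nat.dvd_prime hr2).mp hy with rfl | rfl
  · exfalso
    have h1 : m = 0 ∨ m = -2 := by omega
    refine hv' ?_
    rcases h1 with rfl | rfl
    · omega
    · rw [show v = 3 by omega]; norm_num
  · obtain ⟨ε, hε, h1⟩ := sgn y (by rw [hxy, one_mul])
    exact out y _ ε hr2 r3' er' hε h1
  · obtain ⟨ε, hε, h1⟩ := sgn x (by rw [hxy, mul_one])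
    exact out x _ ε hr1 r3 er hε h1
  exfalso
  obtain ⟨ε, hε, h1⟩ := sgn _ hxy
  have x5 : 5 ≤ x := hr1.five_le_of_ne_two_of_ne_three
    (by have := three_le hv hr1 ⟨_, er⟩; omega) r3
  have y5 : 5 ≤ y := hr2.five_le_of_ne_two_of_ne_three
    (by have := three_le hv hr2 ⟨_, er'⟩; omega) r3'
  have xy : 25 ≤ x * y := Nat.mul_le_mul x5 y5
  have d1 : d ≠ 1 := by
    rintro rfl
    rw [hd, show m = ε * (x * y : ℕ) - 1 by linarith] at m1
    push_cast at m1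
    have : (25 : ℤ) ≤ x * y := by exact_mod_cast xy
    generalize (x : ℤ) * y = z at *
    rcases hε with rfl | rfl <;> nlinarith
  obtain ⟨q, q1, q3, d', rfl⟩ := ex d ⟨x * y, by rw [hd]; ring⟩ d1
  have eq : v = q * (x * y * (3 * d')) := by rw [hd]; ring
  obtain ⟨n, n1, n2, n3⟩ := B q _ q1 q3 eq
  have fin : ∀ (a b wa : ℕ) (z : (ZMod v)ˣ), a.Prime → a ≠ 3 → 5 ≤ b → v = a * wa → z ∈ K v wa →
      -(z * n) ∈ M → v = a * q * (3 * (b * d')) → (b : ℤ) ∣ m + 1 → False := by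
    intro a b wa z ha a3 b5 ea hz hzn e hb
    obtain ⟨d2, m2, f1, f2, f3⟩ := pair a q _ _ z n ha q1 a3 q3 ea eq hz n1 hzn
    obtain rfl : d2 = b * d' := by
      have := Nat.eq_of_mul_eq_mul_left (Nat.mul_pos ha.pos q1.pos) (f1.symm.trans e)
      omega
    have g1 : (3 : ℤ) ∣ m2 - 1 := Dvd.dvd.trans (by push_cast; exact dvd_mul_right _ _) f3
    have g2 : (3 : ℤ) ∣ m - 1 := ⟨q * d' * c, by rw [hc]; push_cast; ring⟩
    have g3 : m2 = m := by
      rcases sq_eq_sq_iff_eq_or_eq_neg.mp (f2.trans m1.symm) with h | h <;> omega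
    have g4 : (b : ℤ) ∣ m - 1 := g3 ▸ Dvd.dvd.trans ⟨3 * d', by push_cast; ring⟩ f3
    have g5 := Int.le_of_dvd (by norm_num) (show (b : ℤ) ∣ 2 by simpa using hb.sub g4)
    omega
  rcases (hm k n).mpr (iff_of_false k2 n2) with h2 | h2
  · rcases (hm k' n).mpr (iff_of_false l2 n2) with h4 | h4
    · refine not_both hM ((M.mul_mem_cancel_left n3).mp ?_) l3
      have := M.mul_mem h2 h4
      rwa [mul_mul_mul_comm, mul_comm] at this
    · exact fin y x _ k' hr2 r3' x5 er' l1 h4 (by rw [hd]; ring) ⟨ε * y, by rw [h1]; push_cast; ring⟩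
  · exact fin x y _ k hr1 r3 y5 er k1 h2 (by rw [hd]; ring) ⟨ε * x, by rw [h1]; push_cast; ring⟩

/-- index four -/
lemma four_case (hR : StReal) (hT : StT) (hK : StKill) (h15 : v = 15 → Two s) (hv' : ¬ v.Prime)
    (hl : (PM M).index = 2) : Two s := by
  by_contra h2
  have hq : ∀ q, q.Prime → ¬ q ^ 2 ∣ v := fun q hq hqv =>
    sq_dvd hv h hs hq (PM M).pow_index_mem (by
      rw [hl]
      have := three_le hv hq ((dvd_pow_self q two_ne_zero).trans hqv)
      exact (Nat.coprime_primes hq Nat.prime_two).mpr (by omega)) hqv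
  have hr := fun r w hr h3 e => ramif hv h hs hR hT hv' h2 (r := r) (w := w) hr h3 e
  obtain ⟨r, w3, hr1, e3, h3⟩ := ex_unram hv hq hl (Or.inr (by simp))
  obtain rfl : r = 3 := by
    by_contra h4
    exact hr r w3 hr1 h4 e3 h3
  have w0 : w3 ≠ 0 := fun h => NeZero.ne v (by simp [e3, h])
  have w1 : w3 ≠ 1 := fun h => hv' (by rwa [e3, h, mul_one])
  by_cases h4 : K v w3 ≤ M
  · obtain ⟨p, w, ε, hp, p3, e, hε, hw⟩ := shape hv h hs hM hR hv' hl hq e3 h4 hr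
    have p4 := three_le hv hp ⟨_, e⟩
    obtain ⟨k, rfl⟩ : 3 ∣ w :=
      ((Nat.coprime_primes Nat.prime_three hp).mpr (Ne.symm p3)).dvd_of_dvd_mul_left
        (e ▸ ⟨w3, e3⟩)
    rcases final hv h hs hR hT hK hv' h2 (hl ▸ Nat.prime_two) hp (by omega) e hε
      (by exact_mod_cast hw) (hp.coprime_iff_not_dvd.mpr fun h => hq p hp (by
        rw [e, sq]; exact Nat.mul_dvd_mul_left p h)) (fun a c e' hc τ t1 _ => by
        refine h3 (K_mono ?_ t1)
        have a1 : a ≤ 1 := by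
          by_contra h5
          exact hq 3 hr1 ((pow_dvd_pow 3 (by omega)).trans ⟨c, e'⟩)
        interval_cases a
        · exact ⟨3, by omega⟩
        · exact ⟨1, by omega⟩) with rfl | rfl
    · obtain rfl : p = 5 := by omega
      exact h2 (h15 e)
    · exact hq 3 hr1 ⟨p, by rw [e]; ring⟩
  · obtain ⟨u, hu, hu'⟩ := SetLike.not_le_iff_exists.mp h4
    have : NeZero w3 := ⟨w0⟩
    obtain ⟨ε, hε, hw, -⟩ := lemE hv h hs hR (n := 1) hr1 (by rw [pow_one, e3])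
      ⟨3, by rw [e3, mul_comm]⟩ (by omega) ⟨u, hu, (h3 hu).resolve_left hu'⟩
    refine h2 (h15 ?_)
    norm_num at hw
    omega

end

end Pool.Agent.Lib.MP_56f651_co.IX
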