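import Pool.Agent.Lib.MP_56f651_co.IX.St

open Finset

namespace Pool.Agent.Lib.MP_56f651_co.IX

/-- the units congruent to one modulo `d` -/
def K (v d : ℕ) : Subgroup (ZMod v)ˣ where
  carrier := {u | ∃ z : ZMod v, (u : ZMod v) = 1 + d * z}
  one_mem' := ⟨0, by simp⟩
  mul_mem' := by
    rintro a b ⟨x, hx⟩ ⟨y, hy⟩
    exact ⟨x + y + d * x * y, by rw [Units.val_mul, hx, hy]; ring⟩
  inv_mem' := by
    rintro a ⟨x, hx⟩
    refine ⟨-(((a⁻¹ : (ZMod v)ˣ) : ZMod v) * x), ?_⟩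
    have h := a.inv_mul
    linear_combination h - ((a⁻¹ : (ZMod v)ˣ) : ZMod v) * hx

lemma mem_K {v d : ℕ} {u : (ZMod v)ˣ} : u ∈ K v d ↔ ∃ z : ZMod v, (u : ZMod v) = 1 + d * z :=
  Iff.rfl

lemma K_mono {v d c : ℕ} (h : d ∣ c) : K v c ≤ K v d := by
  obtain ⟨k, rfl⟩ := h
  rintro u ⟨z, hz⟩
  exact ⟨k * z, by rw [hz]; push_cast; ring⟩

lemma split {v a b : ℕ} (hv : v = a * b) (h : a.Coprime b) (u : (ZMod v)ˣ) :
    ∃ (u1 u2 : (ZMod v)ˣ) (i j : ZMod v), u = u1 * u2 ∧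
      (u1 : ZMod v) = 1 + (u - 1) * (b * j) ∧ (u2 : ZMod v) = 1 + (u - 1) * (a * i) := by
  obtain ⟨i, j, hij⟩ := Nat.isCoprime_iff_coprime.mpr h
  have h1 : ((i : ℤ) : ZMod v) * a + (j : ZMod v) * b = 1 := by
    have := congrArg (Int.cast : ℤ → ZMod v) hij
    push_cast at this
    exact this
  have h2 : (a : ZMod v) * b = 0 := by rw [← Nat.cast_mul, ← hv, ZMod.natCast_self]
  have h3 := u.mul_inv
  have h4 : (1 + ((u : ZMod v) - 1) * (b * j)) * (1 + (u - 1) * (a * i)) = u := by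
    linear_combination ((u : ZMod v) - 1) * h1 + ((u : ZMod v) - 1) ^ 2 * i * j * h2
  have h5 : IsUnit ((1 + ((u : ZMod v) - 1) * (b * j)) * (1 + (u - 1) * (a * i))) :=
    h4.symm ▸ u.isUnit
  refine ⟨(isUnit_of_mul_isUnit_left h5).unit, (isUnit_of_mul_isUnit_right h5).unit, i, j,
    Units.ext ?_, rfl, rfl⟩
  rw [Units.val_mul, IsUnit.unit_spec, IsUnit.unit_spec, h4]

/-- the local groups generate -/
lemma gen {v : ℕ} [NeZero v] (H : Subgroup (ZMod v)ˣ)
    (h : ∀ p n c : ℕ, p.Prime → 0 < n → v = p ^ n * c → (p ^ n).Coprime c → K v c ≤ H)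
    (u : (ZMod v)ˣ) : u ∈ H := by
  have key : ∀ d c : ℕ, v = d * c → d.Coprime c → K v c ≤ H := by
    intro d
    induction d using Nat.recOnPosPrimePosCoprime with
    | prime_pow p n hp hn => exact fun c => h p n c hp hn
    | zero => intro c hc; exact absurd (by simpa using hc) (NeZero.ne v)
    | one =>
      rintro c hc - u ⟨z, hz⟩
      rw [one_mul] at hc
      rw [← hc, ZMod.natCast_self, zero_mul, add_zero] at hz
      rw [show u = 1 from Units.ext hz]; exact H.one_mem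
    | coprime a b _ _ hab iha ihb =>
      rintro c hc hco u ⟨z, hz⟩
      have ca : a.Coprime (b * c) := Nat.Coprime.mul_right hab (Nat.Coprime.coprime_mul_right hco)
      have cb : b.Coprime (a * c) :=
        Nat.Coprime.mul_right hab.symm (Nat.Coprime.coprime_mul_left hco)
      obtain ⟨u1, u2, i, j, e, e1, e2⟩ := split (hc.trans (mul_assoc _ _ _)) ca u
      rw [e]
      refine H.mul_mem (iha (b * c) (hc.trans (mul_assoc _ _ _)) ca ⟨(u - 1) * j, ?_⟩)
        (ihb (a * c) (by rw [hc]; ring) cb ⟨z * i, ?_⟩)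
      · rw [e1]; ring
      · rw [e2, hz]; push_cast; ring
  exact key v 1 (mul_one v).symm (Nat.coprime_one_right v) ⟨u - 1, by simp⟩

lemma cast_eq_zero {v d : ℕ} [NeZero v] (h : d ∣ v) (x : ZMod v) :
    ZMod.castHom h (ZMod d) x = 0 ↔ ∃ z : ZMod v, x = d * z := by
  constructor
  · intro h4
    rw [← ZMod.natCast_zmod_val x, map_natCast, ZMod.natCast_eq_zero_iff] at h4
    obtain ⟨k, hk⟩ := h4
    exact ⟨k, by rw [← ZMod.natCast_zmod_val x, hk, Nat.cast_mul]⟩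
  · rintro ⟨z, rfl⟩
    rw [map_mul, map_natCast, ZMod.natCast_self, zero_mul]

lemma mem_K_iff {v d : ℕ} [NeZero v] (h : d ∣ v) (u : (ZMod v)ˣ) :
    u ∈ K v d ↔ ZMod.castHom h (ZMod d) u = 1 := by
  rw [← sub_eq_zero, ← map_one (ZMod.castHom h (ZMod d)), ← map_sub, cast_eq_zero, mem_K]
  exact exists_congr fun z => ⟨fun h => by rw [h]; ring, fun h => by rw [← h]; ring⟩

lemma crt_cast {a b : ℕ} [NeZero (a * b)] (h : a.Coprime b) (x : ZMod (a * b)) :
    ZMod.chineseRemainder h x = (ZMod.castHom (dvd_mul_right a b) (ZMod a) x,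
      ZMod.castHom (dvd_mul_left b a) (ZMod b) x) := by
  rw [crt_val, ← ZMod.natCast_zmod_val x, map_natCast, map_natCast, ZMod.natCast_zmod_val]

/-- a unit with prescribed residue -/
lemma exK {v a b : ℕ} [NeZero v] (hv : v = a * b) (h : a.Coprime b) (ha : a ∣ v) (α : ZMod a)
    (hα : IsUnit α) : ∃ g ∈ K v b, ZMod.castHom ha (ZMod a) g = α := by
  subst hv
  let e := ZMod.chineseRemainder h
  have hu : IsUnit (e.symm (α, 1)) := (Prod.isUnit_iff.mpr ⟨hα, isUnit_one⟩).map e.symm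
  have h2 := crt_cast h (e.symm (α, 1))
  rw [RingEquiv.apply_symm_apply] at h2
  exact ⟨hu.unit, (mem_K_iff (dvd_mul_left b a) _).mpr (congrArg Prod.snd h2).symm,
    (congrArg Prod.fst h2).symm⟩

lemma K_inf {v a b : ℕ} (hv : v = a * b) (h : a.Coprime b) {u : (ZMod v)ˣ} (ha : u ∈ K v a)
    (hb : u ∈ K v b) : u = 1 := by
  obtain ⟨u1, u2, i, j, e, e1, e2⟩ := split hv h u
  obtain ⟨x, hx⟩ := ha
  obtain ⟨y, hy⟩ := hb
  have h2 : (a : ZMod v) * b = 0 := by rw [← Nat.cast_mul, ← hv, ZMod.natCast_self]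
  have f1 : (u1 : ZMod v) = 1 := by rw [e1, hx]; linear_combination x * j * h2
  have f2 : (u2 : ZMod v) = 1 := by rw [e2, hy]; linear_combination y * i * h2
  exact Units.ext (by rw [e, Units.val_mul, f1, f2]; simp)

lemma K_pow {v a b : ℕ} [NeZero v] (hv : v = a * b) (h : a.Coprime b) {u : (ZMod v)ˣ}
    (hb : u ∈ K v b) : u ^ a.totient = 1 := by
  have ha : a ∣ v := ⟨b, hv⟩
  refine K_inf hv h ((mem_K_iff ha _).mpr ?_) ((K v b).pow_mem hb _)
  have := congrArg Units.val (ZMod.pow_totient (ZMod.unitsMap ha u))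
  rw [Units.val_pow_eq_pow_val, map_pow]
  exact this

/-- the group generated by `M` and `-1` -/
def PM {v : ℕ} (M : Subgroup (ZMod v)ˣ) : Subgroup (ZMod v)ˣ where
  carrier := {u | u ∈ M ∨ -u ∈ M}
  one_mem' := Or.inl M.one_mem
  mul_mem' := by
    rintro a b (ha | ha) (hb | hb)
    · exact Or.inl (M.mul_mem ha hb)
    · exact Or.inr (by simpa using M.mul_mem ha hb)
    · exact Or.inr (by simpa using M.mul_mem ha hb)
    · exact Or.inl (by simpa using M.mul_mem ha hb)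
  inv_mem' := by
    rintro a (ha | ha)
    · exact Or.inl (M.inv_mem ha)
    · exact Or.inr (by simpa using M.inv_mem ha)

lemma mem_PM {v : ℕ} {M : Subgroup (ZMod v)ˣ} {u : (ZMod v)ˣ} : u ∈ PM M ↔ u ∈ M ∨ -u ∈ M :=
  Iff.rfl

lemma PM_sq {v : ℕ} {M : Subgroup (ZMod v)ˣ} {u : (ZMod v)ˣ} (h : u ∈ PM M) : u * u ∈ M := by
  rcases h with h | h
  · exact M.mul_mem h h
  · simpa using M.mul_mem h h

lemma not_both {v : ℕ} {M : Subgroup (ZMod v)ˣ} (h : -1 ∉ M) {u : (ZMod v)ˣ} (h1 : u ∈ M)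
    (h2 : -u ∈ M) : False := h (by simpa using M.mul_mem h2 (M.inv_mem h1))

lemma PM_index {v : ℕ} {M : Subgroup (ZMod v)ˣ} (h : -1 ∉ M) : 2 * (PM M).index = M.index := by
  have hle : M ≤ PM M := fun u hu => Or.inl hu
  rw [← Subgroup.relIndex_mul_index hle]
  congr 1
  symm
  rw [Subgroup.relIndex, Subgroup.index_eq_two_iff]
  refine ⟨⟨-1, Or.inr (by simp)⟩, fun b => ?_⟩
  simp only [Subgroup.mem_subgroupOf, Subgroup.coe_mul, mul_neg, mul_one]
  rcases b.2 with hb | hb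
  · exact Or.inr ⟨hb, fun h2 => not_both h hb h2⟩
  · exact Or.inl ⟨hb, fun h2 => not_both h h2 hb⟩

/-- a subgroup of prime index is maximal -/
lemma ram {G : Type} [CommGroup G] {P H : Subgroup G} (hP : P.index.Prime) (h : ¬ H ≤ P) (g : G) :
    ∃ k ∈ H, g * k ∈ P := by
  have h1 : P ≤ P ⊔ H := le_sup_left
  have h2 : P ⊔ H = ⊤ := by
    rcases (Nat.dvd_prime hP).mp (Subgroup.index_dvd_of_le h1) with h3 | h3
    · exact Subgroup.index_eq_one.mp h3
    · have h4 := Subgroup.relIndex_mul_index h1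
      rw [h3] at h4
      have h5 : P.relIndex (P ⊔ H) = 1 := by
        have := hP.pos
        nlinarith [Nat.eq_of_mul_eq_mul_right this (h4.trans (one_mul _).symm)]
      exact absurd (le_sup_right.trans (Subgroup.relIndex_eq_one.mp h5)) h
  obtain ⟨y, hy, z, hz, e⟩ := Subgroup.mem_sup.mp (h2 ▸ Subgroup.mem_top g)
  exact ⟨z⁻¹, H.inv_mem hz, by rw [← e]; simpa using hy⟩

lemma mem_of_pow {G : Type} [Group G] {P : Subgroup G} {u : G} {a b : ℕ} (h : a.Coprime b)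
    (ha : u ^ a ∈ P) (hb : u ^ b ∈ P) : u ∈ P := by
  obtain ⟨i, j, hij⟩ := Nat.isCoprime_iff_coprime.mpr h
  have : u = (u ^ a) ^ i * (u ^ b) ^ j := by
    rw [← zpow_natCast, ← zpow_natCast, ← zpow_mul, ← zpow_mul, ← zpow_add, mul_comm _ i,
      mul_comm _ j, hij, zpow_one]
  rw [this]
  exact P.mul_mem (P.zpow_mem ha _) (P.zpow_mem hb _)

end Pool.Agent.Lib.MP_56f651_co.IX
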