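import Pool.Agent.Lib.MP_56f651_co.IX.St

open Finset

namespace Pool.Agent.Lib.MP_56f651_co.IX

namespace HallAAux

variable {F : Type} [Field F] [Fintype F] [DecidableEq F]

omit [DecidableEq F] in
/-- the double sum of three characters -/
lemma triple (A B C : MulChar F ℂ) : ∑ x, ∑ y, A x * B y * C (y - x) =
    (∑ x, (A * B * C) x) * (C (-1) * jacobiSum B C) := by
  rw [sum_mul]
  refine sum_congr rfl fun x _ => ?_
  rcases eq_or_ne x 0 with rfl | hx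
  · simp [MulChar.map_zero]
  · rw [← Equiv.sum_comp (Equiv.mulLeft₀ x hx), jacobiSum, mul_sum, mul_sum]
    refine sum_congr rfl fun t _ => ?_
    rw [Equiv.mulLeft₀_apply, show x * t - x = x * (-1 * (1 - t)) by ring]
    simp only [map_mul, MulChar.mul_apply]
    ring

omit [DecidableEq F] in
lemma jac_swap {a b c : MulChar F ℂ} (h : a * b * c = 1) :
    jacobiSum a b = a (-1) * jacobiSum a c := by
  have hi : Function.Involutive fun u : F => 1 - (1 - u)⁻¹ := fun u => by simp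
  rw [jacobiSum, jacobiSum, mul_sum, ← Equiv.sum_comp hi.toPerm]
  refine sum_congr rfl fun u _ => ?_
  rw [Function.Involutive.coe_toPerm]
  rcases eq_or_ne (1 - u) 0 with h0 | h0
  · simp [h0, MulChar.map_zero]
  · have e : c = (a * b)⁻¹ := eq_inv_of_mul_eq_one_right h
    rw [sub_sub_cancel, show 1 - (1 - u)⁻¹ = -1 * (u * (1 - u)⁻¹) by field_simp; ring, e,
      MulChar.inv_apply', MulChar.mul_apply, map_mul, map_mul]
    ring

lemma jac_dup (hF : ringChar F ≠ 2) {c ρ : MulChar F ℂ} (hc : c ≠ 1)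
    (hρ : ∀ x, ρ x = (quadraticChar F x : ℂ)) :
    c 2 ^ 2 * jacobiSum c c = jacobiSum ρ c := by
  have h2 : (2 : F) ≠ 0 := Ring.two_ne_zero hF
  have h1 : c 2 ^ 2 * jacobiSum c c = ∑ u, c (1 - u ^ 2) := by
    rw [← Equiv.sum_comp ((Equiv.mulLeft₀ 2 h2).trans (Equiv.subLeft 1)), jacobiSum, mul_sum]
    refine sum_congr rfl fun t _ => ?_
    rw [Equiv.trans_apply, Equiv.mulLeft₀_apply, Equiv.subLeft_apply, ← map_pow, ← map_mul,
      ← map_mul]
    congr 1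
    ring
  have h3 : ∑ v, c (1 - v) = 0 :=
    (Equiv.sum_comp (Equiv.subLeft 1) c).trans (MulChar.sum_eq_zero_of_ne_one hc)
  rw [h1, ← sum_fiberwise univ fun u : F => u ^ 2, jacobiSum, ← add_zero (∑ x, ρ x * c (1 - x)),
    ← h3, ← sum_add_distrib]
  refine sum_congr rfl fun v _ => ?_
  rw [sum_congr rfl fun u hu => by rw [(mem_filter.1 hu).2], sum_const, nsmul_eq_mul, hρ]
  have h4 := quadraticChar_card_sqrts hF v
  rw [Set.toFinset_ofPred] at h4
  have h5 : ((#{x : F | x ^ 2 = v} : ℕ) : ℂ) = (quadraticChar F v : ℂ) + 1 := by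
    exact_mod_cast h4
  rw [h5]
  ring

/-- the coefficients -/
def co (ω : ℂ) : ℕ → ℂ
  | 0 => -ω
  | 1 => 1 - ω
  | 2 => -1
  | 3 => 1 - ω ^ 2
  | _ => -ω ^ 2

lemma size {ω l π π' : ℂ} {p : ℝ} (hω : ω ^ 2 + ω + 1 = 0) (hl : l ^ 2 + l + 1 = 0)
    (hp : 19 ≤ p) (h1 : π * π' = p) (h2 : star π = π')
    (h : l * π + (2 * l - 3) * π' = 6 * (2 * ω + 1)) : False := by
  have n1 : ‖π'‖ = ‖π‖ := by rw [← h2, norm_star]
  have n2 : ‖π‖ * ‖π‖ = p := by
    have := congrArg norm h1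
    rwa [norm_mul, n1, Complex.norm_real, Real.norm_of_nonneg (by linarith)] at this
  have n3 : ‖l‖ = 1 := by
    have : ‖l‖ ^ 3 = 1 := by
      rw [← norm_pow, show l ^ 3 = 1 by linear_combination (l - 1) * hl, norm_one]
    exact (pow_eq_one_iff_of_nonneg (norm_nonneg _) three_ne_zero).1 this
  have n4 : ‖2 * l - 3‖ * ‖2 * l ^ 2 - 3‖ = 19 := by
    rw [← norm_mul, show (2 * l - 3) * (2 * l ^ 2 - 3) = 19 by
      linear_combination (4 * l - 10) * hl]
    simp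
  have n5 : ‖2 * l ^ 2 - 3‖ ≤ 5 := by
    refine (norm_sub_le _ _).trans ?_
    rw [norm_mul, norm_pow, n3]
    norm_num
  have n6 : 19 / 5 ≤ ‖2 * l - 3‖ := by nlinarith [norm_nonneg (2 * l - 3)]
  have n7 : ‖6 * (2 * ω + 1)‖ * ‖6 * (2 * ω + 1)‖ = 108 := by
    rw [← norm_mul, show 6 * (2 * ω + 1) * (6 * (2 * ω + 1)) = -108 by
      linear_combination 144 * hω]
    simp
  have n8 : ‖2 * l - 3‖ * ‖π‖ ≤ ‖6 * (2 * ω + 1)‖ + ‖π‖ := by
    have := norm_sub_le (6 * (2 * ω + 1)) (l * π)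
    rwa [← h, add_sub_cancel_left, norm_mul, norm_mul l, n1, n3, one_mul, h] at this
  have n9 : 14 / 5 * ‖π‖ ≤ ‖6 * (2 * ω + 1)‖ := by nlinarith [norm_nonneg π]
  have := mul_le_mul n9 n9 (by positivity) (norm_nonneg _)
  nlinarith

lemma zpow {ω : ℂ} (hω : ω ^ 2 + ω + 1 = 0) : (-ω ^ 2) ^ 2 = ω ∧ (-ω ^ 2) ^ 3 = -1 ∧
    (-ω ^ 2) ^ 6 = 1 := by
  have h : ω ^ 3 = 1 := by linear_combination (ω - 1) * hω
  have h3 : (-ω ^ 2) ^ 3 = -1 := by linear_combination (-ω ^ 3 - 1) * h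
  exact ⟨by linear_combination ω * h, h3, by linear_combination ((-ω ^ 2) ^ 3 - 1) * h3⟩

lemma zne {ω : ℂ} (hω : ω ^ 2 + ω + 1 = 0) {r : ℕ} (h0 : r ≠ 0) (h6 : r < 6) :
    (-ω ^ 2) ^ r ≠ 1 := by
  intro a
  interval_cases r <;> grind

lemma expand {ω : ℂ} (hω : ω ^ 2 + ω + 1 = 0) {r : ℕ} (h6 : r < 6) :
    3 * (if r = 0 ∨ r = 1 ∨ r = 3 then -1 else 1 : ℂ) =
      0 - ∑ k ∈ range 5, co ω k * ((-ω ^ 2) ^ r) ^ (k + 1) := by
  simp only [sum_range_succ, sum_range_zero, co]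
  interval_cases r <;> norm_num <;> grind

lemma fin {ω l π π' P : ℂ} (hω : ω ^ 2 + ω + 1 = 0) (hP : P ≠ 0)
    (h : -ω * -ω * (P * (l * π)) + -1 * -ω ^ 2 * (P * (l * π')) +
      (1 - ω ^ 2) * (1 - ω ^ 2) * (P * π') + -ω ^ 2 * -1 * (P * (l * π')) = 6 * ((1 - ω) * P)) :
    l * π + (2 * l - 3) * π' = 6 * (2 * ω + 1) := by
  apply mul_left_cancel₀ hP
  grind

end HallAAux

open HallAAux in
theorem stHallA : StHallA := by
  intro p _ g s ω χ h7 h12 hg hs s0 hk hω hχ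
  have hF : ringChar (ZMod p) ≠ 2 := by rw [ZMod.ringChar_zmod_n]; omega
  have : NeZero (p - 1) := ⟨by omega⟩
  have pw : ∀ x : ZMod p, x ≠ 0 → ∃ n : ℕ, g ^ n = x := fun x hx => by
    obtain ⟨n, -, e⟩ := (hg ▸ IsPrimitiveRoot.orderOf g).eq_pow_of_pow_eq_one
      (ZMod.pow_card_sub_one_eq_one hx)
    exact ⟨n, e⟩
  have g0 : g ≠ 0 := fun e => by
    have := pow_orderOf_eq_one g
    rw [hg, e, zero_pow (by omega)] at this
    exact zero_ne_one this
  have ext : ∀ a b : MulChar (ZMod p) ℂ, a g = b g → a = b := fun a b h => by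
    refine MulChar.ext fun u => ?_
    obtain ⟨n, e⟩ := pw u u.ne_zero
    rw [← e, map_pow, map_pow, h]
  have one_g : (1 : MulChar (ZMod p) ℂ) g = 1 := MulChar.one_apply (Ne.isUnit g0)
  obtain ⟨ρ, hρ⟩ : ∃ ρ : MulChar (ZMod p) ℂ, ∀ x, ρ x = (quadraticChar (ZMod p) x : ℂ) :=
    ⟨(quadraticChar (ZMod p)).ringHomComp (Int.castRingHom ℂ), fun _ => rfl⟩
  have ρg : ρ g = -1 := by
    rw [hρ, quadraticChar_neg_one_iff_not_isSquare.2]
    · simp
    · rintro ⟨r, hr⟩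
      have r0 : r ≠ 0 := fun e => g0 (by rw [hr, e, mul_zero])
      have e : g ^ (p / 2) = 1 := by
        rw [hr, ← sq, ← pow_mul, show 2 * (p / 2) = p - 1 by omega]
        exact ZMod.pow_card_sub_one_eq_one r0
      have := orderOf_le_of_pow_eq_one (by omega) e
      omega
  have ρ1 : ρ (-1) = -1 := by
    rw [hρ, quadraticChar_neg_one_iff_not_isSquare.2]
    · simp
    · rw [ZMod.exists_sq_eq_neg_one_iff]
      omega
  obtain ⟨X, hX⟩ : ∃ X, X = ρ * χ ^ 2 := ⟨_, rfl⟩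
  have Xg : X g = -ω ^ 2 := by
    rw [hX, MulChar.mul_apply, MulChar.pow_apply' _ two_ne_zero, ρg, hχ, neg_one_mul]
  have Xk : ∀ k : ℕ, (X ^ k) g = (-ω ^ 2) ^ k := fun k => by
    rw [← Xg]
    exact MulChar.pow_apply_coe X k (Units.mk0 g g0)
  obtain ⟨z2, z3, z6⟩ := zpow hω
  have X2 : X ^ 2 = χ := ext _ _ (by rw [Xk, hχ, z2])
  have X3 : X ^ 3 = ρ := ext _ _ (by rw [Xk, ρg, z3])
  have X6 : X ^ 6 = 1 := ext _ _ (by rw [Xk, one_g, z6])
  have X4 : X ^ 4 = χ⁻¹ := eq_inv_of_mul_eq_one_right (by rw [← X2, ← pow_add, X6])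
  have Xne : ∀ k : ℕ, k % 6 ≠ 0 → X ^ k ≠ 1 := fun k h e => by
    have a := Xk k
    rw [e, one_g, pow_eq_pow_mod k z6] at a
    exact zne hω h (Nat.mod_lt _ (by norm_num)) a.symm
  have X1 : X (-1) = -1 := by
    have a : X (-1) ^ 3 = -1 := by rw [← MulChar.pow_apply' _ three_ne_zero, X3, ρ1]
    have b : X (-1) ^ 2 = 1 := by rw [← map_pow, neg_one_sq, map_one]
    linear_combination a - X (-1) * b
  have Xm : ∀ k : ℕ, (X ^ k) (-1) = (-1) ^ k := fun k => by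
    rw [← X1]
    exact MulChar.pow_apply_coe X k (-1)
  have hN : ∀ k : ℕ, ∑ x, (X ^ k) x = if k % 6 = 0 then ((p - 1 : ℕ) : ℂ) else 0 := fun k => by
    split_ifs with h
    · rw [pow_eq_pow_mod k X6, h, pow_zero, MulChar.sum_one_eq_card_units, ZMod.card_units]
    · exact MulChar.sum_eq_zero_of_ne_one (Xne k h)
  obtain ⟨f, hf⟩ : ∃ f : ZMod p → ℂ, ∀ x, f x = ∑ k ∈ range 5, co ω k * (X ^ (k + 1)) x :=
    ⟨_, fun _ => rfl⟩
  have hS : ∀ x, 3 * (s x : ℂ) = (if x = 0 then 3 else 0) - f x := fun x => by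
    rw [hf]
    split_ifs with h
    · simp [h, s0, MulChar.map_zero]
    · obtain ⟨n, rfl⟩ := pw x h
      have a : (s (g ^ n) : ℂ) = if n % 6 = 0 ∨ n % 6 = 1 ∨ n % 6 = 3 then -1 else 1 := by
        split_ifs with h'
        · rw [(hk n).2 h']; simp
        · rw [(hs.sq _).resolve_right fun e => h' ((hk n).1 e)]; simp
      rw [a, sum_congr rfl fun k _ => by
        rw [MulChar.pow_apply' _ (Nat.succ_ne_zero k), map_pow, Xg, pow_eq_pow_mod n z6]]
      exact expand hω (Nat.mod_lt _ (by norm_num))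
  have c0 : ∑ x, ∑ y, (s x : ℂ) * s y * (X ^ 4) (y - x) = 0 := by
    have a : ∀ x, ∑ y, (s x : ℂ) * s y * (X ^ 4) (y - x) =
        ∑ d, (s x : ℂ) * s (x + d) * (X ^ 4) d := fun x => by
      rw [← Equiv.sum_comp (Equiv.addLeft x)]
      simp
    rw [sum_congr rfl fun x _ => a x, sum_comm, ← neg_eq_zero, ← sum_neg_distrib,
      ← MulChar.sum_eq_zero_of_ne_one (Xne 4 (by norm_num))]
    refine sum_congr rfl fun d _ => ?_
    rcases eq_or_ne d 0 with rfl | hd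
    · simp [MulChar.map_zero]
    · have b : ∑ x, (s x : ℂ) * s (x + d) = -1 := by exact_mod_cast hs.cor d hd
      rw [← sum_mul, b]
      ring
  have c1 : ∑ y, f y * (X ^ 4) y = (1 - ω) * ((p - 1 : ℕ) : ℂ) := by
    have a : ∀ y, f y * (X ^ 4) y = ∑ k ∈ range 5, co ω k * (X ^ (k + 1 + 4)) y := fun y => by
      rw [hf, sum_mul]
      exact sum_congr rfl fun k _ => by rw [pow_add X (k + 1), MulChar.mul_apply, mul_assoc]
    rw [sum_congr rfl fun y _ => a y, sum_comm]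
    simp only [← mul_sum, hN]
    simp [sum_range_succ, co]
  have c2 : ∑ x, ∑ y, f x * f y * (X ^ 4) (y - x) = ∑ k ∈ range 5, ∑ l ∈ range 5,
      co ω k * co ω l * ((if (k + 1 + (l + 1) + 4) % 6 = 0 then ((p - 1 : ℕ) : ℂ) else 0) *
        jacobiSum (X ^ (l + 1)) (X ^ 4)) := by
    have a : ∀ x y, f x * f y * (X ^ 4) (y - x) = ∑ k ∈ range 5, ∑ l ∈ range 5,
        co ω k * co ω l * ((X ^ (k + 1)) x * (X ^ (l + 1)) y * (X ^ 4) (y - x)) := fun x y => by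
      rw [hf, hf, sum_mul_sum, sum_mul]
      refine sum_congr rfl fun k _ => ?_
      rw [sum_mul]
      exact sum_congr rfl fun l _ => by ring
    simp only [a]
    rw [sum_congr rfl fun x _ => sum_comm, sum_comm]
    refine sum_congr rfl fun k _ => ?_
    rw [sum_congr rfl fun x _ => sum_comm, sum_comm]
    refine sum_congr rfl fun l _ => ?_
    simp only [← mul_sum]
    rw [triple, ← pow_add, ← pow_add, hN, Xm, show (-1 : ℂ) ^ 4 = 1 by norm_num, one_mul]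
  have c3 : ∑ x, ∑ y, f x * f y * (X ^ 4) (y - x) = 6 * ((1 - ω) * ((p - 1 : ℕ) : ℂ)) := by
    have a : ∀ x y, f x * f y * (X ^ 4) (y - x) = 9 * ((s x : ℂ) * s y * (X ^ 4) (y - x)) +
        (if x = 0 then 3 * (f y * (X ^ 4) y) else 0) +
        (if y = 0 then 3 * (f x * (X ^ 4) x) else 0) := fun x y => by
      have b : (X ^ 4) (-x) = (X ^ 4) x := by
        rw [neg_eq_neg_one_mul, map_mul, Xm]
        norm_num
      have e : 9 * ((s x : ℂ) * s y * (X ^ 4) (y - x)) =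
          (3 * (s x : ℂ)) * (3 * (s y : ℂ)) * (X ^ 4) (y - x) := by ring
      rw [e, hS, hS]
      split_ifs with h1 h2 h2
      · rw [h1, h2, sub_zero, MulChar.map_zero]; ring
      · rw [h1, sub_zero]; ring
      · rw [h2, zero_sub, b]; ring
      · ring
    simp only [a, sum_add_distrib, ← mul_sum, c0, sum_ite_eq', mem_univ, if_true]
    rw [sum_comm]
    simp only [sum_ite_eq', mem_univ, if_true, ← mul_sum, c1]
    ring
  obtain ⟨l, hl⟩ : ∃ l, l = X 2 ^ 2 := ⟨_, rfl⟩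
  have l3 : l ^ 3 = 1 := by
    rw [hl, ← pow_mul, ← MulChar.pow_apply' _ (by norm_num), X6]
    exact MulChar.one_apply (Ne.isUnit (Ring.two_ne_zero hF))
  have d1 := jac_dup hF (pow_one X ▸ Xne 1 (by norm_num)) hρ
  have d2 := jac_dup hF (Xne 2 (by norm_num)) hρ
  have d4 := jac_dup hF (Xne 4 (by norm_num)) hρ
  have j1 : jacobiSum X (X ^ 4) = X (-1) * jacobiSum X X :=
    jac_swap (by rw [← X6]; group)
  have j2 : jacobiSum ρ X = ρ (-1) * jacobiSum ρ (X ^ 2) :=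
    jac_swap (by rw [← X6, ← X3]; group)
  have j3 : jacobiSum (X ^ 4) (X ^ 5) = (X ^ 4) (-1) * jacobiSum (X ^ 4) ρ :=
    jac_swap (by rw [← X3, ← pow_add, ← pow_add, show 4 + 5 + 3 = 6 * 2 from rfl, pow_mul, X6,
      one_pow])
  rw [MulChar.pow_apply' _ (by norm_num)] at d2 d4
  rw [Xm, jacobiSum_comm, jacobiSum_comm _ ρ] at j3
  rw [X1] at j1
  rw [ρ1] at j2
  rw [c2] at c3
  simp only [sum_range_succ, sum_range_zero, co] at c3
  norm_num only [if_true, if_false, zero_mul, mul_zero, zero_add, add_zero, pow_one] at c3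
  rw [X3] at c3
  have P0 : ((p - 1 : ℕ) : ℂ) ≠ 0 := Nat.cast_ne_zero.2 (by omega)
  have pp := jacobiSum_mul_jacobiSum_inv (F' := ℂ) (χ := χ) (φ := χ)
    (by rw [ZMod.ringChar_zmod_n, ringChar.eq_zero]; omega) (X2 ▸ Xne 2 (by norm_num))
    (X2 ▸ Xne 2 (by norm_num)) (by rw [← X2, ← pow_add]; exact Xne 4 (by norm_num))
  have st : star (jacobiSum χ χ) = jacobiSum χ⁻¹ χ⁻¹ := by
    simp only [jacobiSum, star_sum, star_mul', MulChar.star_apply']
  rw [← X4, ← X2] at pp st ⊢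
  have f2 : (X 2 ^ 2) ^ 2 = l ^ 2 := by rw [hl]
  have f4 : (X 2 ^ 4) ^ 2 = l := by
    rw [show (X 2 ^ 4) ^ 2 = (X 2 ^ 2) ^ 3 * X 2 ^ 2 by ring, ← hl, l3, one_mul]
  rw [← hl] at d1
  rw [f2] at d2
  rw [f4] at d4
  have e1 : jacobiSum X (X ^ 4) = l * jacobiSum (X ^ 2) (X ^ 2) := by
    linear_combination j1 - l ^ 2 * d1 - l ^ 2 * j2 - l ^ 2 * d2 +
      (jacobiSum X X + l * jacobiSum (X ^ 2) (X ^ 2)) * l3
  have e3 : jacobiSum (X ^ 5) (X ^ 4) = l * jacobiSum (X ^ 4) (X ^ 4) := by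
    linear_combination j3 - d4
  rw [e1, ← d4, e3] at c3
  have key := fin hω P0 c3
  generalize jacobiSum (X ^ 2) (X ^ 2) = π at key pp st ⊢
  generalize jacobiSum (X ^ 4) (X ^ 4) = π' at key pp st ⊢
  rcases mul_eq_zero.1 (show (l - 1) * (l ^ 2 + l + 1) = 0 by linear_combination l3) with h | h
  · linear_combination key - (π + 2 * π') * h
  · rw [ZMod.card] at pp
    exact (size (p := p) hω h (by exact_mod_cast (by omega : 19 ≤ p)) (by exact_mod_cast pp) st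
      key).elim

end Pool.Agent.Lib.MP_56f651_co.IX
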