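import Pool.Agent.Lib.MP_56f651_co.IX.St

open Finset

noncomputable section

namespace Pool.Agent.Lib.MP_56f651_co.IX

namespace HallBAux

variable {F : Type} [Field F] [Fintype F] [DecidableEq F]

omit [DecidableEq F] in
theorem conv_ne (α β : MulChar F ℂ) {d : F} (hd : d ≠ 0) :
    ∑ x, α x * β (d - x) = α d * β d * jacobiSum α β := by
  rw [jacobiSum, mul_sum, ← Equiv.sum_comp (Equiv.mulLeft₀ d hd)]
  refine sum_congr rfl fun x _ => ?_
  have h : d - d * x = d * (1 - x) := by ring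
  rw [Equiv.mulLeft₀_apply, h, map_mul, map_mul]
  ring

omit [DecidableEq F] in
theorem conv_zero (α β : MulChar F ℂ) : ∑ x, α x * β (0 - x) = β (-1) * ∑ x, (α * β) x := by
  rw [mul_sum]
  refine sum_congr rfl fun x _ => ?_
  have h : (0 : F) - x = -1 * x := by ring
  rw [h, map_mul, MulChar.mul_apply]
  ring

omit [DecidableEq F] in
theorem conv_sq {α : MulChar F ℂ} (h1 : α⁻¹ ≠ 1) (h2 : α * α = α⁻¹) (d : F) :
    ∑ x, α x * α (d - x) = jacobiSum α α * α⁻¹ d := by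
  rcases eq_or_ne d 0 with rfl | hd
  · rw [conv_zero, h2, MulChar.sum_eq_zero_of_ne_one h1, MulChar.map_zero, mul_zero, mul_zero]
  · rw [conv_ne α α hd, ← MulChar.mul_apply, h2, mul_comm]

theorem conv_inv {α : MulChar F ℂ} (h1 : α ≠ 1) (hm : α (-1) = 1) (d : F) :
    ∑ x, α x * α⁻¹ (d - x) = Fintype.card F * (if d = 0 then 1 else 0) - 1 := by
  rcases eq_or_ne d 0 with rfl | hd
  · rw [conv_zero, mul_inv_cancel, MulChar.sum_one_eq_card_units, MulChar.inv_apply_eq_inv', hm,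
      Fintype.card_units, Nat.cast_sub Fintype.card_pos]
    simp
  · rw [conv_ne α α⁻¹ hd, jacobiSum_nontrivial_inv h1, ← MulChar.mul_apply, mul_inv_cancel,
      MulChar.one_apply hd.isUnit, hm]
    simp [hd]

/-- a combination of the four basic functions -/
def cmb (χ : MulChar F ℂ) (a b c e : ℂ) (x : F) : ℂ :=
  a + b * (if x = 0 then 1 else 0) + c * χ x + e * χ⁻¹ x

theorem conv_cmb {χ : MulChar F ℂ} (h1 : χ ≠ 1) (h2 : χ * χ = χ⁻¹) (hm : χ (-1) = 1)
    (a b c e a' b' c' e' : ℂ) (d : F) :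
    ∑ x, cmb χ a b c e x * cmb χ a' b' c' e' (d - x) =
      cmb χ (a * a' * Fintype.card F + a * b' + b * a' - c * e' - e * c')
        (b * b' + Fintype.card F * (c * e' + e * c'))
        (b * c' + c * b' + e * e' * jacobiSum χ⁻¹ χ⁻¹)
        (b * e' + e * b' + c * c' * jacobiSum χ χ) d := by
  have h1' : χ⁻¹ ≠ 1 := inv_ne_one.2 h1
  have h2' : χ⁻¹ * χ⁻¹ = χ⁻¹⁻¹ := by rw [← mul_inv, h2]
  have hm' : χ⁻¹ (-1) = 1 := by rw [MulChar.inv_apply_eq_inv', hm, inv_one]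
  have s0 : ∑ x : F, χ x = 0 := MulChar.sum_eq_zero_of_ne_one h1
  have s0' : ∑ x : F, χ⁻¹ x = 0 := MulChar.sum_eq_zero_of_ne_one h1'
  have s1 : ∑ x : F, χ (d - x) = 0 := (Equiv.sum_comp (Equiv.subLeft d) fun x => χ x).trans s0
  have s1' : ∑ x : F, χ⁻¹ (d - x) = 0 :=
    (Equiv.sum_comp (Equiv.subLeft d) fun x => χ⁻¹ x).trans s0'
  have t1 := conv_sq h1' h2 d
  have t2 := conv_sq (α := χ⁻¹) (by rwa [inv_inv]) h2' d
  have t3 := conv_inv h1 hm d
  have t4 := conv_inv h1' hm' d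
  rw [inv_inv] at t2 t4
  have l : ∀ f : F → ℂ, ∑ x, (if x = 0 then 1 else 0) * f (d - x) = f d := fun f => by simp
  have r : ∀ f : F → ℂ, ∑ x, f x * (if d - x = 0 then 1 else 0) = f d := fun f => by
    simp [sub_eq_zero]
  have u0 : ∑ _x : F, (1 : ℂ) = Fintype.card F := by simp
  have l1 := l fun _ => 1
  have l2 := l fun x => if x = 0 then 1 else 0
  have l3 := l fun x => χ x
  have l4 := l fun x => χ⁻¹ x
  have r1 := r fun _ => 1
  rw [← mul_sum] at r1
  have r3 := r fun x => χ x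
  have r4 := r fun x => χ⁻¹ x
  have e0 : ∀ x, cmb χ a b c e x * cmb χ a' b' c' e' (d - x) =
      a * a' * 1 + a * b' * (1 * if d - x = 0 then 1 else 0) + a * c' * χ (d - x) +
        a * e' * χ⁻¹ (d - x) + b * a' * ((if x = 0 then 1 else 0) * 1) +
        b * b' * ((if x = 0 then 1 else 0) * if d - x = 0 then 1 else 0) +
        b * c' * ((if x = 0 then 1 else 0) * χ (d - x)) +
        b * e' * ((if x = 0 then 1 else 0) * χ⁻¹ (d - x)) + c * a' * χ x +
        c * b' * (χ x * if d - x = 0 then 1 else 0) + c * c' * (χ x * χ (d - x)) +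
        c * e' * (χ x * χ⁻¹ (d - x)) + e * a' * χ⁻¹ x +
        e * b' * (χ⁻¹ x * if d - x = 0 then 1 else 0) + e * c' * (χ⁻¹ x * χ (d - x)) +
        e * e' * (χ⁻¹ x * χ⁻¹ (d - x)) := by
    intro x
    simp only [cmb]
    ring
  simp only [e0, sum_add_distrib, ← mul_sum]
  rw [u0, r1, s1, s1', l1, l2, l3, l4, s0, r3, t1, t3, s0', r4, t4, t2, cmb]
  ring

omit [Fintype F] in
theorem ind {χ : MulChar F ℂ} (h3 : ∀ x, x ≠ 0 → χ x ^ 3 = 1) (x : F) :
    cmb χ 1 (-1) 1 1 x = 3 * if χ x = 1 then 1 else 0 := by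
  rw [cmb, MulChar.inv_apply_eq_inv']
  rcases eq_or_ne x 0 with rfl | hx
  · simp [MulChar.map_zero]
  · have h := h3 x hx
    have h0 : χ x ≠ 0 := fun h0 => by simp [h0] at h
    have hi : (χ x)⁻¹ = χ x ^ 2 := by
      field_simp
      exact h.symm
    rw [hi, if_neg hx]
    split_ifs with h1
    · rw [h1]; norm_num
    · have h4 : (χ x - 1) * (χ x ^ 2 + χ x + 1) = 0 := by linear_combination h
      have h5 := (mul_eq_zero.1 h4).resolve_left (sub_ne_zero.2 h1)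
      linear_combination h5

/-- triples of elements with trivial character and given sum -/
def tr (χ : MulChar F ℂ) (d : F) : Finset (F × F) :=
  univ.filter fun v => χ v.1 = 1 ∧ χ v.2 = 1 ∧ χ (d - v.1 - v.2) = 1

theorem card_tr {χ : MulChar F ℂ} (h1 : χ ≠ 1) (h2 : χ * χ = χ⁻¹) (hm : χ (-1) = 1)
    (h3 : ∀ x, x ≠ 0 → χ x ^ 3 = 1)
    (hj : jacobiSum χ χ * jacobiSum χ⁻¹ χ⁻¹ = Fintype.card F) :
    ∃ C : ℂ, ∀ d, d ≠ 0 → 9 * ((tr χ d).card : ℂ) =
      C + (Fintype.card F + 1 - jacobiSum χ⁻¹ χ⁻¹) * χ d +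
        (Fintype.card F + 1 - jacobiSum χ χ) * χ⁻¹ d := by
  refine ⟨((Fintype.card F : ℂ) ^ 2 - 3 * Fintype.card F + 9 - jacobiSum χ χ -
    jacobiSum χ⁻¹ χ⁻¹) / 3, fun d hd => ?_⟩
  have e1 : 27 * ((tr χ d).card : ℂ) =
      ∑ x, cmb χ 1 (-1) 1 1 x * ∑ y, cmb χ 1 (-1) 1 1 y * cmb χ 1 (-1) 1 1 (d - x - y) := by
    rw [tr, card_filter, Nat.cast_sum, mul_sum, Fintype.sum_prod_type]
    refine sum_congr rfl fun x _ => ?_
    rw [mul_sum]
    refine sum_congr rfl fun y _ => ?_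
    rw [ind h3, ind h3, ind h3]
    by_cases hx : χ x = 1 <;> by_cases hy : χ y = 1 <;> by_cases hz : χ (d - x - y) = 1 <;>
      simp [hx, hy, hz]
    norm_num
  simp only [conv_cmb h1 h2 hm] at e1
  rw [cmb, if_neg hd] at e1
  linear_combination e1 / 3 + (χ d + χ⁻¹ d) / 3 * hj

theorem tr_mod (χ : MulChar F ℂ) (h3 : (3 : F) ≠ 0) (d : F) :
    (tr χ d).card ≡ (if χ (d / 3) = 1 then 1 else 0) [MOD 3] := by
  have : Fact (Nat.Prime 3) := ⟨Nat.prime_three⟩
  have hmem : ∀ v : F × F, v ∈ tr χ d → (v.2, d - v.1 - v.2) ∈ tr χ d := by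
    intro v hv
    obtain ⟨a, b, c⟩ := (mem_filter.1 hv).2
    refine mem_filter.2 ⟨mem_univ _, b, c, ?_⟩
    have h : d - v.2 - (d - v.1 - v.2) = v.1 := by ring
    rw [h]
    exact a
  let f : Function.End (tr χ d) := fun v => ⟨(v.1.2, d - v.1.1 - v.1.2), hmem _ v.2⟩
  have hf : f ^ 3 ^ 1 = 1 := by
    funext v
    refine Subtype.ext (Prod.ext ?_ ?_)
    · show d - v.1.2 - (d - v.1.1 - v.1.2) = v.1.1
      ring
    · show d - (d - v.1.1 - v.1.2) - (d - v.1.2 - (d - v.1.1 - v.1.2)) = v.1.2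
      ring
  have h := Equiv.Perm.card_fixedPoints_modEq hf
  rw [Fintype.card_coe] at h
  refine h.trans ?_
  have hfix : ∀ v : tr χ d, v ∈ f.fixedPoints → v.1 = (d / 3, d / 3) := by
    intro v hv
    have h1 : (v.1.2, d - v.1.1 - v.1.2) = v.1 := congrArg Subtype.val hv
    have h2 : v.1.2 = v.1.1 := congrArg Prod.fst h1
    have h4 : d - v.1.1 - v.1.2 = v.1.2 := congrArg Prod.snd h1
    refine Prod.ext ?_ ?_
    · rw [eq_div_iff h3]; linear_combination -h4 - 2 * h2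
    · rw [eq_div_iff h3]; linear_combination -h4 + h2
  have hd : d - d / 3 - d / 3 = d / 3 := by field_simp; ring
  split_ifs with hc
  · have hm : (d / 3, d / 3) ∈ tr χ d := mem_filter.2 ⟨mem_univ _, hc, hc, by rw [hd]; exact hc⟩
    have h5 : Fintype.card f.fixedPoints = 1 := Fintype.card_eq_one_iff.2
      ⟨⟨⟨_, hm⟩, Subtype.ext (Prod.ext rfl hd)⟩, fun v => Subtype.ext (Subtype.ext (hfix v.1 v.2))⟩
    rw [h5]
  · have h5 : Fintype.card f.fixedPoints = 0 := Fintype.card_eq_zero_iff.2 ⟨fun v => hc (by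
      have h6 := (mem_filter.1 v.1.2).2.1
      rwa [hfix v.1 v.2] at h6)⟩
    rw [h5]

theorem trace_int {χ : MulChar F ℂ} (h3 : ∀ x, x ≠ 0 → χ x ^ 3 = 1) :
    ∃ s : ℤ, (s : ℂ) = jacobiSum χ χ + jacobiSum χ⁻¹ χ⁻¹ := by
  refine ⟨∑ x : F, (3 * (if χ (x * (1 - x)) = 1 then 1 else 0) - 1 +
    if x * (1 - x) = 0 then 1 else 0), ?_⟩
  rw [jacobiSum, jacobiSum, ← sum_add_distrib, Int.cast_sum]
  refine sum_congr rfl fun x _ => ?_
  have h := ind h3 (x * (1 - x))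
  rw [cmb] at h
  rw [← map_mul, ← map_mul]
  push_cast
  linear_combination -h

theorem exists_pow {p : ℕ} [Fact p.Prime] {g : ZMod p} (hg : orderOf g = p - 1) {x : ZMod p}
    (hx : x ≠ 0) : ∃ k : ℕ, g ^ k = x := by
  have hp : 0 < p - 1 := Nat.sub_pos_of_lt (Fact.out : p.Prime).one_lt
  have h1 : IsPrimitiveRoot g (p - 1) := hg ▸ IsPrimitiveRoot.orderOf g
  have : NeZero (p - 1) := ⟨hp.ne'⟩
  obtain ⟨k, -, hk⟩ := h1.eq_pow_of_pow_eq_one (ZMod.pow_card_sub_one_eq_one hx)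
  exact ⟨k, hk⟩

end HallBAux

open HallBAux in
theorem stHallB : StHallB := by
  intro p _ g ω χ hp hg hω hχ hJ
  have hpr : p.Prime := Fact.out
  have hω3 : ω ^ 3 = 1 := by linear_combination (ω - 1) * hω
  have hω1 : ω ≠ 1 := fun h => by
    rw [h] at hω
    norm_num at hω
  have hω0 : ω ≠ 0 := fun h => by
    rw [h] at hω
    norm_num at hω
  have hg0 : g ≠ 0 := fun h => hω0 (by rw [← hχ, h, MulChar.map_zero])
  have h3 : ∀ x, x ≠ 0 → χ x ^ 3 = 1 := by
    intro x hx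
    obtain ⟨k, rfl⟩ := exists_pow hg hx
    rw [map_pow, hχ, ← pow_mul, mul_comm, pow_mul, hω3, one_pow]
  have h1 : χ ≠ 1 := fun h => hω1 (by rw [← hχ, h, MulChar.one_apply hg0.isUnit])
  have h2 : χ * χ = χ⁻¹ := by
    refine eq_inv_of_mul_eq_one_left (MulChar.ext fun a => ?_)
    rw [MulChar.mul_apply, MulChar.mul_apply, MulChar.one_apply_coe, ← h3 a a.ne_zero]
    ring
  have hm : χ (-1) = 1 := by
    have h4 := h3 (-1) (by simp)
    have h5 : χ (-1) * χ (-1) = 1 := by rw [← map_mul]; simp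
    linear_combination h4 - χ (-1) * h5
  have hj : jacobiSum χ χ * jacobiSum χ⁻¹ χ⁻¹ = Fintype.card (ZMod p) :=
    jacobiSum_mul_jacobiSum_inv (by
      rw [ringChar.eq_zero, ZMod.ringChar_zmod_n]
      exact hpr.ne_zero.symm) h1 h1 (by rw [h2]; exact inv_ne_one.2 h1)
  have hp3 : p ≠ 3 := by omega
  have h30 : (3 : ZMod p) ≠ 0 := fun h => by
    have h4 : ((3 : ℕ) : ZMod p) = 0 := by exact_mod_cast h
    exact hp3 ((Nat.prime_dvd_prime_iff_eq hpr Nat.prime_three).1 ((ZMod.natCast_eq_zero_iff _ _).1 h4))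
  constructor
  · obtain ⟨s, hs⟩ := trace_int h3
    rw [ZMod.card] at hj
    have h4 : ((s ^ 2 + 108 : ℤ) : ℂ) = ((4 * p : ℤ) : ℂ) := by
      push_cast
      rw [hs]
      linear_combination 4 * hj + (jacobiSum χ χ - jacobiSum χ⁻¹ χ⁻¹ + 6 * (2 * ω + 1)) * hJ +
        144 * hω
    have h5 : s ^ 2 + 108 = 4 * p := by exact_mod_cast h4
    obtain ⟨c, hc⟩ : ∃ c : ℤ, s = 4 * c := by
      have h6 : s % 4 = 0 ∨ s % 4 = 1 ∨ s % 4 = 2 ∨ s % 4 = 3 := by omega
      refine ⟨s / 4, ?_⟩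
      have h7 : s ^ 2 = 16 * ((s / 4) ^ 2) + 8 * ((s / 4) * (s % 4)) + (s % 4) ^ 2 := by
        have h8 : s = 4 * (s / 4) + s % 4 := by omega
        generalize s / 4 = q at h8 ⊢
        generalize s % 4 = r at h8 ⊢
        rw [h8]; ring
      generalize (s / 4) ^ 2 = A at h7
      rcases h6 with h6 | h6 | h6 | h6 <;> rw [h6] at h7 <;> omega
    refine ⟨c.natAbs, ?_⟩
    have h6 : (p : ℤ) = 4 * (c.natAbs : ℤ) ^ 2 + 27 := by
      rw [Int.natCast_natAbs, sq_abs]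
      rw [hc] at h5
      linarith
    exact_mod_cast h6
  · obtain ⟨C, hC⟩ := card_tr h1 h2 hm h3 hj
    have hi : ω⁻¹ = ω ^ 2 := by
      field_simp
      exact hω3.symm
    have hi2 : (ω ^ 2)⁻¹ = ω := by
      field_simp
      exact hω3.symm
    have c1 := hC g hg0
    have c2 := hC (g ^ 2) (pow_ne_zero 2 hg0)
    rw [MulChar.inv_apply_eq_inv', hχ, hi] at c1
    rw [MulChar.inv_apply_eq_inv', map_pow, hχ, hi2] at c2
    have c3 : (((tr χ g).card + 2 : ℕ) : ℂ) = ((tr χ (g ^ 2)).card : ℂ) := by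
      push_cast
      linear_combination (c1 - c2) / 9 + (ω - ω ^ 2) / 9 * hJ - (4 * ω - 6) / 3 * hω
    have c4 : (tr χ g).card + 2 = (tr χ (g ^ 2)).card := by exact_mod_cast c3
    have m1 := tr_mod χ h30 g
    have m2 := tr_mod χ h30 (g ^ 2)
    have c5 : χ (g / 3) = 1 := by
      by_contra hne
      rw [if_neg hne] at m1
      unfold Nat.ModEq at m1 m2
      split_ifs at m2 <;> omega
    obtain ⟨k, hk⟩ := exists_pow hg h30
    have c6 : ω ^ k = ω := by
      have h4 : χ (g / 3) * χ 3 = χ g := by rw [← map_mul, div_mul_cancel₀ _ h30]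
      rwa [c5, one_mul, ← hk, map_pow, hχ] at h4
    have k3 : k % 3 = 1 := by
      rw [← Nat.div_add_mod k 3, pow_add, pow_mul, hω3, one_pow, one_mul] at c6
      have h4 : k % 3 = 0 ∨ k % 3 = 1 ∨ k % 3 = 2 := by omega
      rcases h4 with h4 | h4 | h4
      · rw [h4, pow_zero] at c6
        exact absurd c6.symm hω1
      · exact h4
      · rw [h4] at c6
        exact absurd (mul_left_cancel₀ hω0 (by rw [mul_one, ← sq, c6])) hω1
    have k2 : k % 2 = 1 := by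
      by_contra hk2
      have : Fact (Nat.Prime 3) := ⟨Nat.prime_three⟩
      have h4 : IsSquare ((3 : ℕ) : ZMod p) := ⟨g ^ (k / 2), by
        rw [← pow_add, show k / 2 + k / 2 = k by omega, hk]; norm_num⟩
      refine (ZMod.exists_sq_eq_prime_iff_of_mod_four_eq_three (by omega) (by norm_num) hp3).1 h4
        ⟨1, ?_⟩
      rw [← ZMod.natCast_mod p 3, show p % 3 = 1 by omega]
      simp
    exact ⟨k / 6, by rw [show 6 * (k / 6) + 1 = k by omega, hk]⟩

end Pool.Agent.Lib.MP_56f651_co.IX
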