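import Pool.Agent.Lib.MP_56f651_co.IX.St

open Finset

namespace Pool.Agent.Lib.MP_56f651_co.IX

namespace KillAux

instance fact13 : Fact (Nat.Prime 13) := ⟨by norm_num⟩

lemma thirteen : ∀ be ∈ ({2, -2} : Finset ℤ), ∑ x : ZMod 13,
    (-2 + be * quadraticChar (ZMod 13) x + if x = 0 then 10 - -2 else 0) *
      (-2 + be * quadraticChar (ZMod 13) (x + 1) + if x + 1 = 0 then 10 - -2 else 0) ≠ 0 := by
  simp only [quadraticChar_apply]
  decide +kernel

lemma sum_three (f : ZMod 3 → ℤ) : ∑ y, f y = f 0 + f 1 + f 2 := Fin.sum_univ_three f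

/-- an even function that is constant on the squares and on the non-squares -/
lemma shape {p : ℕ} [Fact p.Prime] (hp : 3 < p) (D : ZMod p → ℤ) (he : ∀ x, Even (D x))
    (hD : ∀ a : ZMod p, a ≠ 0 → ∀ x, D (a * a * x) = D x) :
    ∃ al be : ℤ, ∀ x,
      D x = al + be * quadraticChar (ZMod p) x + if x = 0 then D 0 - al else 0 := by
  have hc : ringChar (ZMod p) ≠ 2 := by rw [ZMod.ringChar_zmod_n]; omega
  obtain ⟨n, hn⟩ := quadraticChar_exists_neg_one hc
  have hn0 : n ≠ 0 := by rintro rfl; simp at hn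
  obtain ⟨u, hu⟩ := he 1
  obtain ⟨v, hv⟩ := he n
  have h1 : ∀ a : ZMod p, quadraticChar (ZMod p) a = 1 → ∀ x, D (a * x) = D x := fun a ha x => by
    have h0 : a ≠ 0 := by rintro rfl; simp at ha
    obtain ⟨b, rfl⟩ := (quadraticChar_one_iff_isSquare h0).1 ha
    exact hD b (fun h => h0 (by simp [h])) x
  refine ⟨u + v, u - v, fun x => ?_⟩
  split_ifs with hx
  · simp [hx]
  · rcases quadraticChar_dichotomy hx with h | h
    · have := h1 x h 1
      rw [mul_one] at this
      rw [this, h, hu]
      ring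
    · have h2 : quadraticChar (ZMod p) (n * x) = 1 := by rw [map_mul, hn, h]; rfl
      have h3 := h1 _ h2 n
      have h4 := hD n hn0 x
      rw [show n * n * x = n * x * n by ring, h3] at h4
      rw [← h4, h, hv]
      ring

end KillAux

open KillAux in
theorem stKill : StKill := by
  intro p k _ S ε hp hε hk hS hb ho hm hs
  have hc : ringChar (ZMod p) ≠ 2 := by rw [ZMod.ringChar_zmod_n]; omega
  have h2 : ∀ x, S (x, 2) = S (x, 1) := fun x => hs x 1
  obtain ⟨D, hD⟩ : ∃ D : ZMod p → ℤ, ∀ x, D x = S (x, 0) - S (x, 1) := ⟨_, fun _ => rfl⟩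
  have hε2 : ε * ε = 1 := by rcases hε with rfl | rfl <;> rfl
  have cor : ∀ d, ∑ x, D x * D (x + d) = if d = 0 then ((p : ℤ) - ε) ^ 2 else 0 := fun d => by
    have c0 := hS.cor (d, 0)
    have c1 := hS.cor (d, 1)
    rw [Fintype.sum_prod_type] at c0 c1
    have a1 : (1 : ZMod 3) + 1 = 2 := rfl
    have a2 : (2 : ZMod 3) + 1 = 0 := rfl
    have a3 : (1 : ZMod 3) ≠ 0 := by decide
    simp only [sum_three, Prod.mk_add_mk, add_zero, zero_add, a1, a2, h2, Prod.mk_eq_zero, a3,
      and_true, and_false, if_false, Fintype.card_prod, ZMod.card] at c0 c1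
    have e : ∑ x, D x * D (x + d) =
        ∑ x, (S (x, 0) * S (x + d, 0) + S (x, 1) * S (x + d, 1) + S (x, 1) * S (x + d, 1)) -
          ∑ x, (S (x, 0) * S (x + d, 1) + S (x, 1) * S (x + d, 1) + S (x, 1) * S (x + d, 0)) := by
      rw [← sum_sub_distrib]
      exact sum_congr rfl fun x _ => by rw [hD, hD]; ring
    rw [e, c0, c1]
    split_ifs
    · push_cast
      linear_combination (p : ℤ) * hk - hε2
    · ring
  have sq : (∑ x, D x) ^ 2 = ((p : ℤ) - ε) ^ 2 := by
    have e : ∀ x, D x * ∑ y, D y = ∑ d, D x * D (x + d) := fun x => by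
      rw [← mul_sum, Equiv.sum_comp (Equiv.addLeft x) D |>.symm]
      rfl
    rw [pow_two, sum_mul, sum_congr rfl fun x _ => e x, sum_comm, sum_congr rfl fun d _ => cor d]
    simp
  have sm : ∑ x, D x = ε * p - 1 := by
    have c := hS.sum
    rw [Fintype.sum_prod_type] at c
    simp only [sum_three, h2, sum_add_distrib] at c
    have e : ∑ x, D x = ∑ x, S (x, 0) - ∑ x, S (x, 1) := by
      rw [← sum_sub_distrib]
      exact sum_congr rfl fun x _ => hD x
    rcases sq_eq_sq_iff_eq_or_eq_neg.1 sq with h | h <;> rcases hε with rfl | rfl <;> omega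
  obtain ⟨al, be, hal⟩ := shape hp D (fun x => hD x ▸ (ho _).sub_odd (ho _))
    fun a ha x => by rw [hD, hD, hm a ha, hm a ha]
  have hg : |D 0| ≤ 2 * k := by
    have h3 := abs_le.1 (hb (0, 0))
    have h4 := abs_le.1 (hb (0, 1))
    rw [hD, abs_le]
    omega
  have e1 : D 0 + (p - 1) * al = ε * p - 1 := by
    rw [sum_congr rfl fun x _ => hal x, sum_add_distrib, sum_add_distrib, ← mul_sum,
      quadraticChar_sum_zero hc] at sm
    simp only [sum_const, card_univ, ZMod.card, nsmul_eq_mul, sum_ite_eq', mem_univ, if_true] at sm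
    linarith
  have e2 : D 0 ^ 2 + (p - 1) * (al ^ 2 + be ^ 2) = ((p : ℤ) - ε) ^ 2 := by
    have c := cor 0
    have e : ∀ x, D x * D (x + 0) = al ^ 2 + be ^ 2 + 2 * al * be * quadraticChar (ZMod p) x +
        if x = 0 then D 0 ^ 2 - al ^ 2 - be ^ 2 else 0 := fun x => by
      rw [add_zero]
      split_ifs with hx
      · rw [hx, quadraticChar_zero]
        ring
      · rw [hal x, if_neg hx]
        linear_combination be ^ 2 * quadraticChar_sq_one hx
    rw [sum_congr rfl fun x _ => e x, sum_add_distrib, sum_add_distrib, ← mul_sum,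
      quadraticChar_sum_zero hc] at c
    simp only [sum_const, card_univ, ZMod.card, nsmul_eq_mul, sum_ite_eq', mem_univ, if_true] at c
    linarith
  have hp' : (3 : ℤ) < p := by exact_mod_cast hp
  have fin : be ^ 2 = 3 * k → IsSquare (3 * k) := fun h => by
    refine ⟨be.natAbs, ?_⟩
    have : ((3 * k : ℕ) : ℤ) = be.natAbs * be.natAbs := by
      rw [Int.natAbs_mul_self']
      push_cast
      linarith
    exact_mod_cast this
  obtain ⟨g1, g2⟩ := abs_le.1 hg
  have hp1 : (p : ℤ) - 1 ≠ 0 := by omega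
  rcases hε with rfl | rfl
  · rcases lt_trichotomy al 1 with h | rfl | h
    · nlinarith [mul_nonneg (show (0 : ℤ) ≤ p - 1 by omega) (show 0 ≤ -al by omega)]
    · have h0 : D 0 = 0 := by linarith
      rw [h0] at e2
      exact fin (mul_left_cancel₀ hp1 (by linear_combination e2 - ((p : ℤ) - 1) * hk))
    · nlinarith [mul_nonneg (show (0 : ℤ) ≤ p - 1 by omega) (show 0 ≤ al - 2 by omega)]
  · rcases lt_trichotomy al (-1) with h | rfl | h
    · have h3 := mul_nonneg (show (0 : ℤ) ≤ p - 1 by omega) (show 0 ≤ -al - 2 by omega)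
      have h13 : p ≤ 13 := by
        have : (p : ℤ) ≤ 13 := by nlinarith
        exact_mod_cast this
      have hpp : p.Prime := Fact.out
      rcases (by omega : p = 4 ∨ p = 7 ∨ p = 10 ∨ p = 13) with rfl | rfl | rfl | rfl
      · exact absurd hpp (by norm_num)
      · exact ⟨3, by omega⟩
      · exact absurd hpp (by norm_num)
      · have ha : al = -2 := by omega
        have h0 : D 0 = 10 := by omega
        subst ha
        have hbe : be ^ 2 = 2 ^ 2 := by
          rw [h0] at e2
          push_cast at e2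
          linarith
        have c := cor 1
        rw [if_neg one_ne_zero, sum_congr rfl fun x _ => by rw [hal x, hal (x + 1), h0]] at c
        exact absurd c (thirteen be (by simpa using sq_eq_sq_iff_eq_or_eq_neg.1 hbe))
    · have h0 : D 0 = -2 := by linarith
      rw [h0] at e2
      exact fin (mul_left_cancel₀ hp1 (by linear_combination e2 - ((p : ℤ) - 1) * hk))
    · nlinarith [mul_nonneg (show (0 : ℤ) ≤ p - 1 by omega) (show 0 ≤ al by omega)]

end Pool.Agent.Lib.MP_56f651_co.IX
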