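import Pool.Agent.Lib.MP_56f651_co.IX.Proj

open Finset

namespace Pool.Agent.Lib.MP_56f651_co.IX

/-- a prime square cannot divide v -/
lemma sqf0 {p w : ℕ} [NeZero (p * w)] (hp : p.Prime) (h3 : 3 ≤ p) (hw : p ∣ w)
    {s : ZMod (p * w) → ℤ} (h : Had s) 
    (hs : ∀ u ∈ K (p * w) w, ∀ x, s ((u : ZMod (p * w)) * u * x) = s x) :
    False := by
  have := Fact.mk hp
  have hw0 : 0 < w := Nat.pos_of_ne_zero fun h => NeZero.ne (p * w) (by simp [h])
  let c : ZMod p → ZMod (p * w) := fun i => (w * i.val : ℕ)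
  have hc : Function.Injective c := fun i j hij => by
    have h1 := (ZMod.natCast_eq_natCast_iff' _ _ _).mp hij
    rw [mul_comm p w, Nat.mul_mod_mul_left, Nat.mul_mod_mul_left, Nat.mod_eq_of_lt i.val_lt,
      Nat.mod_eq_of_lt j.val_lt] at h1
    exact ZMod.val_injective p (Nat.eq_of_mul_eq_mul_left hw0 h1)
  have hm := h.marg hc
  rw [ZMod.card, ZMod.card] at hm
  let π := ZMod.castHom (dvd_mul_right p w) (ZMod p)
  have hpw : (p : ZMod (p * w)) * w = 0 := by rw [← Nat.cast_mul, ZMod.natCast_self]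
  have hww : (w : ZMod (p * w)) * w = 0 := by
    obtain ⟨k, hk⟩ := hw
    have h1 : (w : ZMod (p * w)) = p * k := by rw [← Nat.cast_mul, ← hk]
    linear_combination (w : ZMod (p * w)) * h1 + k * hpw
  have h1 : ∀ y, π y ≠ 0 → ∀ i, s (y + c i) = s y := by
    intro y hy i
    have h2 : (2 : ZMod p) ≠ 0 := fun h => by
      have := Nat.le_of_dvd (by norm_num) ((ZMod.natCast_eq_zero_iff 2 p).mp h); omega
    let j : ZMod (p * w) := ((i / (2 * π y)).val : ℕ)
    have h4 : π (2 * j * y - i.val) = 0 := by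
      simp only [j, map_sub, map_mul, map_natCast, ZMod.natCast_zmod_val, map_ofNat]
      field_simp; ring
    obtain ⟨k, hk⟩ : ∃ k : ZMod (p * w), 2 * j * y - i.val = p * k := by
      generalize 2 * j * y - (i.val : ZMod (p * w)) = z at h4
      rw [← ZMod.natCast_zmod_val z, map_natCast, ZMod.natCast_eq_zero_iff] at h4
      obtain ⟨k, hk⟩ := h4
      exact ⟨k, by rw [← ZMod.natCast_zmod_val z, hk, Nat.cast_mul]⟩
    rw [← hs ⟨1 + w * j, 1 - w * j, by linear_combination (-j * j) * hww,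
      by linear_combination (-j * j) * hww⟩ ⟨j, rfl⟩ y]
    congr 1
    simp only [c, Nat.cast_mul]
    linear_combination (-j * j * y) * hww - w * hk - k * hpw
  have h2 : (univ.filter fun y => π y = 0).card ≤ w := by
    refine (card_le_card (t := (range w).image fun k : ℕ => ((p * k : ℕ) : ZMod (p * w)))
      fun y hy => ?_).trans (card_image_le.trans (card_range w).le)
    have h4 := (mem_filter.mp hy).2
    rw [← ZMod.natCast_zmod_val y, map_natCast, ZMod.natCast_eq_zero_iff] at h4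
    obtain ⟨k, hk⟩ := h4
    exact mem_image.mpr ⟨k, mem_range.mpr (Nat.lt_of_mul_lt_mul_left (hk ▸ y.val_lt)),
      by rw [← hk, ZMod.natCast_zmod_val]⟩
  have h4 := card_filter_add_card_filter_not (s := univ) fun y => π y = 0
  rw [card_univ, ZMod.card] at h4
  have h5 : (univ.filter fun y => ¬ π y = 0).card • (p : ℤ) ^ 2 ≤ ∑ y, (∑ i, s (y + c i)) ^ 2 := by
    refine le_trans (card_nsmul_le_sum _ _ _ fun y hy => ?_)
      (sum_le_sum_of_subset_of_nonneg (filter_subset _ _) fun _ _ _ => sq_nonneg _)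
    rw [sum_congr rfl fun i _ => h1 y (mem_filter.mp hy).2 i, sum_const, card_univ, ZMod.card,
      nsmul_eq_mul, mul_pow, pow_two (s y), h.mul_self, mul_one]
  rw [hm, nsmul_eq_mul] at h5
  generalize (univ.filter fun y => ¬ π y = 0).card = N at *
  generalize (univ.filter fun y => π y = 0).card = N' at *
  have h6 : (p : ℤ) * w ≤ w + N := by exact_mod_cast (by omega : p * w ≤ w + N)
  have h7 : (3 : ℤ) ≤ p := by exact_mod_cast h3
  have h8 : (0 : ℤ) < w := by exact_mod_cast hw0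
  push_cast at h5
  have h9 : (N : ℤ) * p ≤ p * w - p + 1 := by
    refine le_of_mul_le_mul_left ?_ (show (0 : ℤ) < p by omega); linarith
  nlinarith [mul_le_mul_of_nonneg_right h6 (show (0 : ℤ) ≤ p by omega), mul_pos h8 (show (0 : ℤ) < p by omega)]

lemma pow_nil {R : Type} [CommRing R] {x : R} (h : x ^ 3 = 0) (n : ℕ) :
    (1 + x) ^ n = 1 + n * x + n.choose 2 * x ^ 2 := by
  induction n with
  | zero => simp
  | succ n ih =>
    rw [pow_succ, ih, Nat.choose_succ_succ' n 1, Nat.choose_one_right]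
    push_cast
    linear_combination (n.choose 2 : R) * h

section
variable {v : ℕ} [NeZero v] (hv : v % 4 = 3) {s : ZMod v → ℤ} (h : Had s)
  {M : Subgroup (ZMod v)ˣ} (hs : ∀ t ∈ M, ∀ x, s (t * x) = s x)

include hv h hs

lemma sqf {p w : ℕ} (hp : p.Prime) (e : v = p * w) (hw : p ∣ w)
    (hK : ∀ u ∈ K v w, u * u ∈ M) : False := by
  have h3 := three_le hv hp ⟨w, e⟩
  subst e
  exact sqf0 hp h3 hw h fun u hu x => by rw [← Units.val_mul, hs _ (hK u hu)]

/-- a prime square divides `v` only if the prime divides the index -/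
lemma sq_dvd {p l : ℕ} (hp : p.Prime) (hl : ∀ u : (ZMod v)ˣ, u ^ l ∈ PM M) (hpl : p.Coprime l) :
    ¬ p ^ 2 ∣ v := by
  rintro ⟨c, hc⟩
  refine sqf hv h hs hp (w := p * c) (by rw [hc]; ring) (dvd_mul_right _ _) ?_
  rintro u ⟨z, hz⟩
  refine PM_sq (mem_of_pow hpl ?_ (hl u))
  have h0 : (p : ZMod v) ^ 2 * c = 0 := by
    rw [← Nat.cast_pow, ← Nat.cast_mul, ← hc, ZMod.natCast_self]
  have : u ^ p = 1 := Units.ext (by
    rw [Units.val_pow_eq_pow_val, hz, pow_nil]
    · push_cast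
      linear_combination (z + (p.choose 2 : ZMod v) * c * z ^ 2) * h0
    · push_cast
      linear_combination (p * c ^ 2 * z ^ 3) * h0)
  rw [this]; exact (PM M).one_mem

lemma cube_dvd {l : ℕ} (hp : l.Prime) (hl : ∀ u : (ZMod v)ˣ, u ^ l ∈ PM M) : ¬ l ^ 3 ∣ v := by
  rintro ⟨c, hc⟩
  have h3 := three_le hv hp ⟨l ^ 2 * c, by rw [hc]; ring⟩
  refine sqf hv h hs hp (w := l ^ 2 * c) (by rw [hc]; ring) ⟨l * c, by ring⟩ ?_
  rintro u ⟨z, hz⟩
  have h0 : (l : ZMod v) ^ 3 * c = 0 := by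
    rw [← Nat.cast_pow, ← Nat.cast_mul, ← hc, ZMod.natCast_self]
  have h1 : ((l : ZMod v) * c * z) ^ 3 = 0 := by linear_combination (c ^ 2 * z ^ 3) * h0
  obtain ⟨b, hb⟩ := hp.dvd_choose_self (k := 2) (by norm_num) (by omega)
  have h2 : (1 + (l : ZMod v) * c * z) ^ l = u := by
    rw [pow_nil h1, hz, hb]
    push_cast
    linear_combination (b * c * z ^ 2) * h0
  have h4 : IsUnit (1 + (l : ZMod v) * c * z) := (isUnit_pow_iff hp.ne_zero).mp (h2 ▸ u.isUnit)
  have : u = h4.unit ^ l := Units.ext (by rw [Units.val_pow_eq_pow_val, IsUnit.unit_spec, h2])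
  exact PM_sq (this ▸ hl _)

/-- a prime whose local group consists of multipliers is three -/
lemma triv {p w : ℕ} (hp : p.Prime) (e : v = p * w) (hc : p.Coprime w) (hK : K v w ≤ M) :
    p = 3 := by
  have h3 := three_le hv hp ⟨w, e⟩
  subst e
  have : NeZero w := ⟨fun h => NeZero.ne (p * w) (by simp [h])⟩
  have h2 := rows' hp h3 hc h univ fun x _ u hu => hs u (hK ?_) x
  · rw [card_univ, ZMod.card] at h2
    have h4 : (0 : ℤ) < w := by exact_mod_cast NeZero.pos w
    by_contra h5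
    have : (4 : ℤ) ≤ p := by exact_mod_cast (by omega : 4 ≤ p)
    nlinarith
  · rw [mem_K_iff (dvd_mul_left w p)]
    let e := ZMod.chineseRemainder hc
    have h1 := crt_val hc (e.symm (0, 1))
    rw [RingEquiv.apply_symm_apply] at h1
    have := congrArg (fun x => (e x).2) (hu (e.symm (0, 1))
      ((ZMod.natCast_eq_zero_iff _ _).mp (congrArg Prod.fst h1).symm))
    simp only [map_mul, RingEquiv.apply_symm_apply, Prod.snd_mul, mul_one] at this
    rw [← this, crt_cast]

/-- the squares modulo a prime are multipliers and the cofactor is real -/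
lemma lemT (hR : StReal) (hT : StT) {p w : ℕ} (hp : p.Prime) (h3 : 3 < p) (e : v = p * w)
    (hc : p.Coprime w) (h1 : 1 < w) (hr : Re M w) (hK : ∀ u ∈ K v w, u * u ∈ M) : Two s := by
  have : NeZero w := ⟨by omega⟩
  have := Fact.mk hp
  obtain ⟨ε, hε, hw, hS⟩ := lemE hv h hs hR (n := 1) hp (by rw [pow_one, e]) ⟨p, by rw [e, mul_comm]⟩
    h1 hr
  rw [pow_one] at hw hS
  subst e
  let e := ZMod.chineseRemainder hc
  have key := hT p w (fun z => s (e.symm z)) ε h3 hε hw (h.equiv e.symm.toAddEquiv)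
    (fun a ha x y => by
      obtain ⟨g, hg, hg'⟩ := exK rfl hc (dvd_mul_right p w) a ha.isUnit
      have h2 : e g = (a, 1) := by
        rw [crt_cast, hg', (mem_K_iff (dvd_mul_left w p) g).mp hg]
      rw [← hs _ (hK g hg) (e.symm (x, y))]
      congr 1
      apply e.injective
      simp [h2])
    (fun y => by
      rw [← hS y]
      refine sum_nbij' (fun x => e.symm (x, y)) (fun z => (e z).1) (fun x _ => ?_)
        (fun _ _ => mem_univ _) (fun x _ => by simp) (fun z hz => ?_) fun _ _ => rfl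
      · have h2 := crt_cast hc (e.symm (x, y))
        rw [RingEquiv.apply_symm_apply] at h2
        exact mem_filter.mpr ⟨mem_univ _, (congrArg Prod.snd h2).symm⟩
      · rw [← (mem_filter.mp hz).2, RingEquiv.symm_apply_eq, crt_cast])
  have k2 : ∀ g : (ZMod (p * w))ˣ, ∃ η : ℤ, (η = 1 ∨ η = -1) ∧ ∀ x, s (g * x) =
      if (e x).1 = 0 ∨ (e x).2 = 0 then s x else η * s x := by
    intro g
    have hu := Prod.isUnit_iff.mp (g.isUnit.map e)
    obtain ⟨η, h1, h2⟩ := key hu.1.unit hu.2.unit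
    refine ⟨η, h1, fun x => ?_⟩
    have := h2 (e x).1 (e x).2
    simp only [IsUnit.unit_spec, Prod.mk.eta, RingEquiv.symm_apply_apply] at this
    rw [← this]
    congr 1
    apply e.injective
    rw [RingEquiv.apply_symm_apply, map_mul]
    rfl
  refine ⟨0, ⟨⟨⟨{g | ∀ x, s (g * x) = s x}, fun {a b} ha hb x => ?_⟩, fun x => by simp⟩,
    fun {a} ha x => ?_⟩, fun u u' hu hu' x => ?_, fun t ht x => by simpa using ht x⟩
  · rw [Units.val_mul, mul_assoc, ha, hb]
  · rw [← ha, ← mul_assoc, Units.mul_inv, one_mul]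
  · obtain ⟨η, h1, h2⟩ := k2 u
    obtain ⟨η', h1', h2'⟩ := k2 u'
    obtain rfl : η = -1 := h1.resolve_left fun h => hu fun x => by rw [h2, h]; simp
    obtain rfl : η' = -1 := h1'.resolve_left fun h => hu' fun x => by rw [h2', h]; simp
    have hu := Prod.isUnit_iff.mp (u'.isUnit.map e)
    rw [Units.val_mul, mul_assoc, h2, h2', map_mul]
    simp only [Prod.fst_mul, Prod.snd_mul, hu.1.mul_right_eq_zero, hu.2.mul_right_eq_zero]
    split_ifs <;> simp

/-- the image modulo `3 p` -/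
lemma endgame (hK : StKill) {p k : ℕ} {ε : ℤ} (hp : p.Prime) (h3 : 3 < p) (e : v = p * (3 * k))
    (hε : ε = 1 ∨ ε = -1) (hw : (3 * k : ℤ) = p - 2 * ε) (hc : p.Coprime (3 * k))
    (hτ : ∃ τ ∈ M, τ ∈ K v p ∧ -τ ∈ K v 3) (hg : ∀ g, ∃ u ∈ K v (3 * p), g * u ∈ PM M) :
    IsSquare (3 * k) := by
  have := Fact.mk hp
  have d1 : p ∣ v := ⟨_, e⟩
  have d2 : 3 ∣ v := ⟨p * k, by rw [e]; ring⟩
  let π := (ZMod.castHom d1 (ZMod p)).prod (ZMod.castHom d2 (ZMod 3))
  have hπ : Function.Surjective π := by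
    rintro ⟨a, b⟩
    obtain ⟨n, h1, h2⟩ := Nat.chineseRemainder (Nat.Coprime.coprime_mul_right_right hc) a.val b.val
    refine ⟨n, Prod.ext ?_ ?_⟩
    · change ZMod.castHom d1 (ZMod p) n = a
      rw [map_natCast, (ZMod.natCast_eq_natCast_iff _ _ _).mpr h1, ZMod.natCast_zmod_val]
    · change ZMod.castHom d2 (ZMod 3) n = b
      rw [map_natCast, (ZMod.natCast_eq_natCast_iff _ _ _).mpr h2, ZMod.natCast_zmod_val]
  have hk : Fintype.card (ZMod v) = k * Fintype.card (ZMod p × ZMod 3) := by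
    rw [Fintype.card_prod, ZMod.card, ZMod.card, ZMod.card, e]; ring
  refine hK p k (proj π s) ε h3 hε hw (proj_had hπ hk h) (proj_abs hπ hk h)
    (proj_odd hπ hk h (odd_of_dvd hv ⟨p * 3, by rw [e]; ring⟩)) (fun a ha x y => ?_) fun x y => ?_
  · obtain ⟨g, hg1, hg2⟩ := exK e hc d1 a ha.isUnit
    obtain ⟨u, hu, hu'⟩ := hg g
    have := proj_inv π _ (hs _ (PM_sq hu')) (x, y)
    have h2 : π ((g * u * (g * u) : (ZMod v)ˣ) : ZMod v) = (a * a, 1) := by
      refine Prod.ext ?_ ?_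
      · change ZMod.castHom d1 (ZMod p) _ = _
        simp only [Units.val_mul, map_mul, hg2,
          (mem_K_iff d1 u).mp (K_mono (dvd_mul_left p 3) hu), mul_one]
      · change ZMod.castHom d2 (ZMod 3) _ = _
        simp only [Units.val_mul, map_mul, (mem_K_iff d2 g).mp (K_mono (dvd_mul_right 3 k) hg1),
          (mem_K_iff d2 u).mp (K_mono (dvd_mul_right 3 p) hu), mul_one]
    rw [h2] at this
    simpa using this
  · obtain ⟨τ, t1, t2, t3⟩ := hτ
    have := proj_inv π _ (hs _ t1) (x, y)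
    have h2 : π (τ : ZMod v) = (1, -1) := by
      refine Prod.ext ((mem_K_iff d1 τ).mp t2) ?_
      have := (mem_K_iff d2 _).mp t3
      rw [Units.val_neg, map_neg, neg_eq_iff_eq_neg] at this
      exact this
    rw [h2] at this
    simpa using this

end

end Pool.Agent.Lib.MP_56f651_co.IX
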