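import Pool.Agent.Lib.MP_56f651_co.IX.Loc

open Finset

namespace Pool.Agent.Lib.MP_56f651_co.IX

lemma res_one {l c : ℕ} (h0 : c ≠ 0) (h : ∀ q, q.Prime → q ∣ c → (l : ℤ) ∣ q - 1) :
    (l : ℤ) ∣ c - 1 := by
  induction c using induction_on_primes with
  | zero => exact absurd rfl h0
  | one => simp
  | prime_mul p a hp ih =>
    have h1 := h p hp (dvd_mul_right _ _)
    have h2 := ih (fun h => h0 (by simp [h])) fun q hq hqa => h q hq (hqa.mul_left _)
    have : ((p * a : ℕ) : ℤ) - 1 = (p - 1) * a + (a - 1) := by push_cast; ring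
    rw [this]
    exact (h1.mul_right _).add h2

lemma sq_dvd_of_isSquare {c q : ℕ} (h : IsSquare c) (hq : q.Prime) (hd : q ∣ c) : q ^ 2 ∣ c := by
  obtain ⟨a, rfl⟩ := h
  have : q ∣ a := (hq.dvd_mul.mp hd).elim id id
  rw [sq]
  exact mul_dvd_mul this this

section
variable {v : ℕ} [NeZero v] (hv : v % 4 = 3) {s : ZMod v → ℤ} (h : Had s)
  {M : Subgroup (ZMod v)ˣ} (hs : ∀ t ∈ M, ∀ x, s (t * x) = s x) (hM : -1 ∉ M)

include hM in
lemma exRe {e : ℕ} (he : Odd e) (hl : ∀ u : (ZMod v)ˣ, u ^ e ∈ PM M) :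
    ∃ p n c : ℕ, p.Prime ∧ 0 < n ∧ v = p ^ n * c ∧ (p ^ n).Coprime c ∧ Re M c := by
  by_contra h0
  push Not at h0
  have := gen (M.comap (powMonoidHom e)) (fun p n c hp hn e hc u hu =>
    (hl u).resolve_right fun h1 => h0 p n c hp hn e hc ⟨_, (K v c).pow_mem hu _, h1⟩) (-1)
  rw [Subgroup.mem_comap, powMonoidHom_apply, he.neg_one_pow] at this
  exact hM this

include hv h hs

include hM in
lemma partI (hR : StReal) {e : ℕ} (he : Odd e) (hl : ∀ u : (ZMod v)ˣ, u ^ e ∈ PM M) :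
    ∃ p n : ℕ, p.Prime ∧ (v = p ^ n ∨ v = p ^ n * (p ^ n + 2) ∨
      ∃ w, v = p ^ n * w ∧ w + 2 = p ^ n) := by
  obtain ⟨p, n, c, hp, -, e, -, hr⟩ := exRe hM he hl
  have : NeZero c := ⟨fun h => NeZero.ne v (by simp [e, h])⟩
  refine ⟨p, n, hp, ?_⟩
  by_cases h1 : c = 1
  · left; rw [e, h1, mul_one]
  obtain ⟨ε, hε, hc, -⟩ := lemE hv h hs hR hp e ⟨_, e.trans (mul_comm _ _)⟩
    (by have := NeZero.pos c; omega) hr
  rcases hε with rfl | rfl
  · exact Or.inr (Or.inr ⟨c, e, by zify; linarith⟩)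
  · exact Or.inr (Or.inl (by rw [e]; congr 1; zify; linarith))

lemma unram (hR : StReal) (hT : StT) {p w : ℕ} (hp : p.Prime) (e : v = p * w) (hc : p.Coprime w)
    (hv' : ¬ v.Prime) (hK : K v w ≤ PM M) : p = 3 ∨ Two s := by
  by_cases h1 : K v w ≤ M
  · exact Or.inl (triv hv h hs hp e hc h1)
  obtain ⟨u, hu, hu'⟩ := SetLike.not_le_iff_exists.mp h1
  have h3 := three_le hv hp ⟨w, e⟩
  by_cases h4 : p = 3
  · exact Or.inl h4
  refine Or.inr (lemT hv h hs hR hT hp (by omega) e hc ?_ ⟨u, hu, (hK hu).resolve_left hu'⟩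
    fun u hu => PM_sq (hK hu))
  have h5 : w ≠ 0 := fun h => NeZero.ne v (by simp [e, h])
  have h6 : w ≠ 1 := fun h => hv' (by rwa [e, h, mul_one])
  omega

lemma ramif (hR : StReal) (hT : StT) (hv' : ¬ v.Prime) (h2 : ¬ Two s) {r w : ℕ} (hr : r.Prime)
    (h3 : r ≠ 3) (e : v = r * w) : ¬ K v w ≤ PM M := fun hK => by
  by_cases h1 : r ∣ w
  · exact sqf hv h hs hr e h1 fun u hu => PM_sq (hK hu)
  · exact (unram hv h hs hR hT hr e (hr.coprime_iff_not_dvd.mpr h1) hv' hK).elim h3 h2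

/-- the last case -/
lemma final (hR : StReal) (hT : StT) (hK : StKill) (hv' : ¬ v.Prime) (h2 : ¬ Two s)
    (hl : (PM M).index.Prime) {p k : ℕ} {ε : ℤ} (hp : p.Prime) (h3 : 3 < p) (e : v = p * (3 * k))
    (hε : ε = 1 ∨ ε = -1) (hw : (3 * k : ℤ) = p - 2 * ε) (hc : p.Coprime (3 * k))
    (hτ : ∀ a c, v = 3 ^ a * c → (3 ^ a).Coprime c → ∀ τ ∈ K v c, τ * τ = 1 → τ ∈ PM M) :
    k = 1 ∨ k = 3 := by
  have hA : ∀ q, q.Prime → q ^ 2 ∣ v → q = (PM M).index := fun q hq hqv => by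
    by_contra h1
    exact sq_dvd hv h hs hq (PM M).pow_index_mem ((Nat.coprime_primes hq hl).mpr h1) hqv
  have hB := cube_dvd hv h hs hl (PM M).pow_index_mem
  have k0 : k ≠ 0 := fun h => NeZero.ne v (by simp [e, h])
  obtain ⟨a, c, hc3, rfl⟩ := Nat.exists_eq_pow_mul_and_not_dvd k0 3 (by norm_num)
  have ha : a ≤ 1 := by
    by_contra h1
    obtain ⟨b, rfl⟩ := Nat.exists_eq_add_of_le (show 2 ≤ a by omega)
    have h4 : 3 ^ 3 ∣ v := ⟨p * 3 ^ b * c, by rw [e]; ring⟩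
    rw [← hA 3 Nat.prime_three ((pow_dvd_pow 3 (by norm_num)).trans h4)] at hB
    exact hB h4
  by_cases h1 : c = 1
  · subst h1
    interval_cases a <;> simp
  exfalso
  obtain ⟨r, hr, d, rfl⟩ := Nat.exists_prime_and_dvd h1
  have r3 : r ≠ 3 := fun h => hc3 ⟨d, by rw [h]⟩
  have e2 : v = r * (3 * p * (3 ^ a * d)) := by rw [e]; ring
  have e3 : v = 3 ^ (a + 1) * (p * (r * d)) := by rw [e]; ring
  have c3 : (3 ^ (a + 1)).Coprime (p * (r * d)) := Nat.Coprime.pow_left _ (Nat.Coprime.mul_right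
    ((Nat.coprime_primes Nat.prime_three hp).mpr (by omega))
    (Nat.prime_three.coprime_iff_not_dvd.mpr hc3))
  have hsq := endgame hv h hs hK hp h3 e hε hw hc (M := M) ?_ fun g => by
    obtain ⟨u, hu, hu'⟩ := ram hl (ramif hv h hs hR hT hv' h2 hr r3 e2) g
    exact ⟨u, K_mono (dvd_mul_right _ _) hu, hu'⟩
  · have d1 : 3 * (3 ^ a * (r * d)) ∣ v := ⟨p, by rw [e]; ring⟩
    have h4 := hA 3 Nat.prime_three
      ((sq_dvd_of_isSquare hsq Nat.prime_three (dvd_mul_right _ _)).trans d1)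
    have h5 := hA r hr ((sq_dvd_of_isSquare hsq hr ⟨3 * 3 ^ a * d, by ring⟩).trans d1)
    exact r3 (h5.trans h4.symm)
  · have d3 : 3 ^ (a + 1) ∣ v := ⟨_, e3⟩
    obtain ⟨τ, t1, t2⟩ := exK e3 c3 d3 (-1) isUnit_one.neg
    have t3 : -τ ∈ K v (3 ^ (a + 1)) := by
      rw [mem_K_iff d3, Units.val_neg, map_neg, t2, neg_neg]
    have t4 : τ * τ = 1 := K_inf e3 c3 (by simpa using (K v _).mul_mem t3 t3)
      ((K v _).mul_mem t1 t1)
    rcases hτ _ _ e3 c3 τ t1 t4 with t5 | t5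
    · exact ⟨τ, t5, K_mono (dvd_mul_right _ _) t1, K_mono (dvd_pow_self 3 (by omega)) t3⟩
    · exfalso
      have d0 : 0 < d := Nat.pos_of_ne_zero fun h => NeZero.ne v (by simp [e, h])
      have r4 := three_le hv hr ⟨_, e2⟩
      have h5 : 12 ≤ p * (r * d) := by
        have : 3 * 1 ≤ r * d := Nat.mul_le_mul r4 d0
        nlinarith
      have : NeZero (p * (r * d)) := ⟨by omega⟩
      obtain ⟨ε', hε', h6, -⟩ := lemE hv h hs hR Nat.prime_three e3 ⟨_, e3.trans (mul_comm _ _)⟩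
        (by omega) ⟨τ, t1, t5⟩
      generalize p * (r * d) = z at h5 h6
      interval_cases a <;> norm_num at h6 <;> omega

include hM in
/-- index twice an odd prime -/
lemma odd_case (hR : StReal) (hT : StT) (hK : StKill) (h15 : v = 15 → Two s) (hv' : ¬ v.Prime)
    (hl : (PM M).index.Prime) (ho : Odd (PM M).index) : Two s ∨ v = 63 := by
  by_contra h0
  push Not at h0
  obtain ⟨h2, h63⟩ := h0
  have hA : ∀ q, q.Prime → q ^ 2 ∣ v → q = (PM M).index := fun q hq hqv => by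
    by_contra h1
    exact sq_dvd hv h hs hq (PM M).pow_index_mem ((Nat.coprime_primes hq hl).mpr h1) hqv
  have hB := cube_dvd hv h hs hl (PM M).pow_index_mem
  have hC : ∀ q, q.Prime → q ∣ v → q ≠ 3 → ¬ q ^ 2 ∣ v → ((PM M).index : ℤ) ∣ q - 1 := by
    rintro q hq ⟨w, e⟩ h3 h4
    by_contra h5
    have hc : q.Coprime w := hq.coprime_iff_not_dvd.mpr fun h => h4 (by
      rw [e, sq]; exact Nat.mul_dvd_mul_left q h)
    refine ramif hv h hs hR hT hv' h2 hq h3 e fun u hu => ?_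
    refine mem_of_pow (a := (PM M).index) (b := q.totient) (hl.coprime_iff_not_dvd.mpr fun h => h5 ?_)
      ((PM M).pow_index_mem u) (by rw [K_pow e hc hu]; exact (PM M).one_mem)
    rw [Nat.totient_prime hq] at h
    have := Int.natCast_dvd_natCast.mpr h
    rwa [Nat.cast_sub hq.one_le] at this
  have hF := fun (p k : ℕ) (ε : ℤ) hp h3 e hε hw hc =>
    final hv h hs hR hT hK hv' h2 hl (p := p) (k := k) (ε := ε) hp h3 e hε hw hc
      fun a c _ _ τ _ t => by
        have := (PM M).pow_index_mem τ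
        obtain ⟨j, hj⟩ := ho
        rwa [hj, pow_succ, pow_mul, sq, t, one_pow, one_mul] at this
  obtain ⟨p, n, c, hp, hn, e, hc, hr⟩ := exRe hM ho (PM M).pow_index_mem
  generalize (PM M).index = l at *
  have l3 : 3 ≤ l := by
    have := hl.two_le
    rw [Nat.odd_iff] at ho
    omega
  have small : ∀ z : ℤ, (l : ℤ) ∣ z → z = 1 ∨ z = -1 ∨ z = 2 ∨ z = -2 ∨ z = 4 → False := by
    intro z hz h
    have h4 : (l : ℤ) ∣ 4 := by
      rcases h with rfl | rfl | rfl | rfl | rfl <;> exact hz.trans (by norm_num)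
    have h5 : l ∣ 2 ^ 2 := by exact_mod_cast h4
    have := Nat.le_of_dvd (by norm_num) (hl.dvd_of_dvd_pow h5)
    omega
  have eqp : ∀ q : ℕ, q.Prime → (l : ℤ) ∣ q → l = q := fun q hq h =>
    (Nat.prime_dvd_prime_iff_eq hl hq).mp (by exact_mod_cast h)
  have c0 : c ≠ 0 := fun h => NeZero.ne v (by simp [e, h])
  have cv : c ∣ v := ⟨_, e.trans (mul_comm _ _)⟩
  have hD : ∀ d, d ∣ v → ¬ l ∣ d → ¬ 3 ∣ d → (l : ℤ) ∣ d - 1 := fun d hd h1 h3 =>
    res_one (fun h => h3 (by simp [h])) fun q hq hqd => hC q hq (hqd.trans hd)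
      (fun h => h3 (h ▸ hqd)) fun h => h1 (hA q hq h ▸ hqd)
  have hn' : n = 1 ∨ (n = 2 ∧ p = l) := by
    by_cases h1 : n = 1
    · exact Or.inl h1
    have h3 := hA p hp ((pow_dvd_pow p (by omega)).trans ⟨c, e⟩)
    refine Or.inr ⟨?_, h3⟩
    by_contra h4
    exact hB (h3 ▸ (pow_dvd_pow p (by omega)).trans ⟨c, e⟩)
  have c1 : c ≠ 1 := by
    rintro rfl
    rcases hn' with rfl | ⟨rfl, -⟩
    · exact hv' (by simpa [e] using hp)
    · have : p % 4 = 0 ∨ p % 4 = 1 ∨ p % 4 = 2 ∨ p % 4 = 3 := by omega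
      rw [e, mul_one, sq, Nat.mul_mod] at hv
      rcases this with h | h | h | h <;> rw [h] at hv <;> omega
  have : NeZero c := ⟨c0⟩
  obtain ⟨ε, hε, hw, -⟩ := lemE hv h hs hR hp e cv (by omega) hr
  rcases hn' with rfl | ⟨rfl, rfl⟩
  · rw [pow_one] at e hc hw
    have p3 := three_le hv hp ⟨c, e⟩
    by_cases h3 : p = 3
    · subst h3
      refine h2 (h15 ?_)
      omega
    have h4 := hC p hp ⟨c, e⟩ h3 fun h => by
      rw [e, sq] at h
      exact hp.coprime_iff_not_dvd.mp hc (Nat.dvd_of_mul_dvd_mul_left hp.pos h)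
    have h5 : 3 ∣ c := by
      by_contra h5
      by_cases h6 : l ∣ c
      · have h7 : (l : ℤ) ∣ 2 * ε - 1 := by
          have := h4.sub (Int.natCast_dvd_natCast.mpr h6)
          rwa [hw, show (p : ℤ) - 1 - (p - 2 * ε) = 2 * ε - 1 by ring] at this
        rcases hε with rfl | rfl
        · exact small _ h7 (by norm_num)
        · exact h5 (eqp 3 Nat.prime_three (h7.trans (by norm_num)) ▸ h6)
      · have := h4.sub (hD c cv h6 h5)
        rw [hw, show (p : ℤ) - 1 - (p - 2 * ε - 1) = 2 * ε by ring] at this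
        exact small _ this (by omega)
    obtain ⟨k, rfl⟩ := h5
    rcases hF p k ε hp (by omega) e hε (by exact_mod_cast hw) hc with rfl | rfl
    · obtain rfl : p = 5 := by omega
      exact h2 (h15 e)
    · have h6 := hA 3 Nat.prime_three ⟨p, by rw [e]; ring⟩
      subst h6
      obtain rfl : p = 7 := by omega
      exact h63 e
  · have h4 : ¬ p ∣ c := hp.coprime_iff_not_dvd.mp (Nat.Coprime.coprime_dvd_left (dvd_pow_self p two_ne_zero) hc)
    have h5 : (p : ℤ) ∣ c + 2 * ε := ⟨p, by rw [hw]; ring⟩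
    by_cases h3 : 3 ∣ c
    · obtain ⟨k, rfl⟩ := h3
      have p3 : p ≠ 3 := fun h => h4 ⟨k, by rw [h]⟩
      have h6 := hD k ((dvd_mul_left k 3).trans cv) (fun h => h4 (h.mul_left 3)) fun h => by
        refine p3 (hA 3 Nat.prime_three (Dvd.dvd.trans ?_ cv)).symm
        rw [sq]; exact Nat.mul_dvd_mul_left 3 h
      have h7 : (p : ℤ) ∣ 2 * ε + 3 := by
        have := h5.sub (h6.mul_left 3)
        push_cast at this
        rwa [show 3 * (k : ℤ) + 2 * ε - 3 * (k - 1) = 2 * ε + 3 by ring] at this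
      rcases hε with rfl | rfl
      · obtain rfl := eqp 5 (by norm_num) (h7.trans (by norm_num))
        omega
      · exact small _ h7 (by norm_num)
    · have h7 : (p : ℤ) ∣ 2 * ε + 1 := by
        have := h5.sub (hD c cv h4 h3)
        rwa [show (c : ℤ) + 2 * ε - (c - 1) = 2 * ε + 1 by ring] at this
      rcases hε with rfl | rfl
      · obtain rfl := eqp 3 Nat.prime_three (h7.trans (by norm_num))
        omega
      · exact small _ h7 (by norm_num)

end

end Pool.Agent.Lib.MP_56f651_co.IX
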