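import Pool.Agent.Lib.MP_56f651_co.IX.Final

open Finset

namespace Pool.Agent.Lib.MP_56f651_co.IX

/-- the group of all multipliers -/
def mult {v : ℕ} (D : Finset (ZMod v)) : Subgroup (ZMod v)ˣ where
  carrier := {t | ∃ b : ZMod v, D.image (fun x => (t : ZMod v) * x) = D.image (fun x => x + b)}
  one_mem' := ⟨0, by simp⟩
  mul_mem' := by
    rintro t u ⟨b, hb⟩ ⟨c, hc⟩
    refine ⟨b + t * c, ?_⟩
    have h1 := congrArg (image fun x => (t : ZMod v) * x) hc
    have h2 := congrArg (image fun x => x + (t : ZMod v) * c) hb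
    simp only [image_image, Function.comp_def] at h1 h2
    simp only [Units.val_mul, mul_assoc, ← add_assoc, h1, ← h2, mul_add]
  inv_mem' := by
    rintro t ⟨b, hb⟩
    refine ⟨-((t⁻¹ : (ZMod v)ˣ) * b), ?_⟩
    have h1 := congrArg (image fun x => ((t⁻¹ : (ZMod v)ˣ) : ZMod v) * (x - b)) hb
    simp only [image_image, Function.comp_def, add_sub_cancel_right] at h1
    rw [← h1]
    congr 1
    funext x
    rw [mul_sub, ← mul_assoc, Units.inv_mul, one_mul, sub_eq_add_neg]

theorem one_of (hR : StReal) (hT : StT)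
    (v : ℕ) (D : Finset (ZMod v)) (hv : v % 4 = 3) (hD : D.card = (v - 1) / 2)
    (hl : ∀ d : ZMod v, d ≠ 0 → ((D ×ˢ D).filter (fun q => q.1 - q.2 = d)).card = (v - 3) / 4)
    (p w : ℕ) (hp : p.Prime) (h3 : 3 < p) (e : v = p * w)
    (hm : ∀ t : ℕ, t.Coprime v → t ≡ 1 [MOD w] → ∃ b : ZMod v,
      D.image (fun x => (t : ZMod v) * x) = D.image (fun x => x + b) ∨
      D.image (fun x => -(t : ZMod v) * x) = D.image (fun x => x + b)) :
    ∃ a b : ZMod v, IsUnit a ∧
      ((v.Prime ∧ ∀ x : ZMod v, x ∈ D ↔ (a * x + b ≠ 0 ∧ IsSquare (a * x + b))) ∨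
       (∃ p : ℕ, p.Prime ∧ (p + 2).Prime ∧ v = p * (p + 2) ∧
         ∀ x : ZMod v, x ∈ D ↔
           (jacobiSym ((a * x + b).val : ℤ) p * jacobiSym ((a * x + b).val : ℤ) (p + 2) = 1 ∨
            (a * x + b).val % (p + 2) = 0))) := by
  have : NeZero v := ⟨by omega⟩
  have v3 : v ≠ 3 := fun h => by
    have := Nat.le_of_dvd (by omega) (⟨w, e⟩ : p ∣ v)
    omega
  obtain ⟨s, c, h, hs, hx⟩ := setup D hv hD hl (mult D) fun t ht => ht
  have hw : w ∣ v := ⟨p, by rw [e, mul_comm]⟩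
  have hK : K v w ≤ PM (mult D) := fun u hu => by
    have h1 := (mem_K_iff hw u).mp hu
    rw [← ZMod.natCast_zmod_val (u : ZMod v), map_natCast, ← Nat.cast_one,
      ZMod.natCast_eq_natCast_iff] at h1
    obtain ⟨b, hb⟩ := hm _ (ZMod.val_coe_unit_coprime u) h1
    rw [ZMod.natCast_zmod_val] at hb
    exact hb.imp (fun h => ⟨b, h⟩) fun h => ⟨b, h⟩
  have h2 : Two s := by
    by_cases hv' : v.Prime
    · obtain rfl : w = 1 := by
        rcases (Nat.dvd_prime hv').mp hw with h1 | h1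
        · exact h1
        · rw [← h1] at e
          have := Nat.eq_of_mul_eq_mul_right (NeZero.pos v) ((one_mul _).trans (h1 ▸ e))
          omega
      have h4 : ∀ u, u ∈ PM (mult D) := fun u => hK ⟨u - 1, by simp⟩
      exact ⟨0, mult D, fun u u' hu hu' => by
        simpa using (mult D).mul_mem ((h4 u).resolve_left hu) ((h4 u').resolve_left hu'),
        fun t ht x => by simpa using hs t ht x⟩
    · by_contra h2
      exact ramif hv h hs hR hT hv' h2 hp (by omega) e hK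
  obtain ⟨a, b, ha, h4⟩ := two_concl hv v3 h h2
  have e : ∀ x, a * (x - c) + b = a * x + (b - a * c) := fun x => by ring
  refine ⟨a, b - a * c, ha, ?_⟩
  rcases h4 with ⟨h4, h5⟩ | ⟨p, hp, hq, h4, h5⟩
  · exact Or.inl ⟨h4, fun x => by rw [hx, h5, e]⟩
  · exact Or.inr ⟨p, hp, hq, h4, fun x => by rw [hx, h5, e]⟩

end Pool.Agent.Lib.MP_56f651_co.IX
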