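import Pool.Agent.Lib.MP_56f651_co.IX.Final

open Finset

namespace Pool.Agent.Lib.MP_56f651_co.IX

lemma exRe' {v : ℕ} [NeZero v] {M : Subgroup (ZMod v)ˣ} (hM : -1 ∉ M)
    (h2 : ∀ u : (ZMod v)ˣ, u ^ 2 ∈ M → u ∈ M ∨ -u ∈ M) :
    ∃ p n c : ℕ, p.Prime ∧ 0 < n ∧ v = p ^ n * c ∧ (p ^ n).Coprime c ∧ Re M c := by
  by_contra h0
  push Not at h0
  obtain ⟨j, o, ho, e⟩ := Nat.exists_eq_two_pow_mul_odd M.index_ne_zero_of_finite
  have := gen (M.comap (powMonoidHom o)) (fun p n c hp hn e' hc u hu => by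
    have h1 := M.pow_index_mem u
    rw [e] at h1
    clear e
    induction j with
    | zero => simpa using h1
    | succ j ih =>
      refine ih ((h2 _ ?_).resolve_right fun h => h0 p n c hp hn e' hc ⟨_, (K v c).pow_mem hu _, h⟩)
      rwa [← pow_mul, mul_right_comm, ← pow_succ]) (-1)
  rw [Subgroup.mem_comap, powMonoidHom_apply, ho.neg_one_pow] at this
  exact hM this

theorem orders_of (hR : StReal)
    (v : ℕ) (D : Finset (ZMod v)) (hv : v % 4 = 3) (hD : D.card = (v - 1) / 2)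
    (hl : ∀ d : ZMod v, d ≠ 0 → ((D ×ˢ D).filter (fun q => q.1 - q.2 = d)).card = (v - 3) / 4)
    (M : Subgroup (ZMod v)ˣ) (hM : ∀ u : (ZMod v)ˣ, u ^ 2 ∈ M → u ∈ M ∨ -u ∈ M)
    (hm : ∀ t ∈ M, ∃ b : ZMod v, D.image (fun x => (t : ZMod v) * x) = D.image (fun x => x + b)) :
    ∃ p n : ℕ, p.Prime ∧ (v = p ^ n ∨ v = p ^ n * (p ^ n + 2) ∨ v = p ^ n * (p ^ n - 2)) := by
  have : NeZero v := ⟨by omega⟩
  by_cases h3 : v = 3
  · exact ⟨3, 1, Nat.prime_three, Or.inl h3⟩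
  obtain ⟨s, c, h, hs, -⟩ := setup D hv hD hl M hm
  have hM1 : -1 ∉ M := fun h1 => h3 (h.symm hv fun x => by simpa using hs _ h1 x)
  obtain ⟨p, n, c, hp, -, e, -, hr⟩ := exRe' hM1 hM
  have : NeZero c := ⟨fun h => NeZero.ne v (by simp [e, h])⟩
  refine ⟨p, n, hp, ?_⟩
  by_cases h1 : c = 1
  · left; rw [e, h1, mul_one]
  obtain ⟨ε, hε, hc, -⟩ := lemE hv h hs hR hp e ⟨_, e.trans (mul_comm _ _)⟩
    (by have := NeZero.pos c; omega) hr
  rcases hε with rfl | rfl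
  · refine Or.inr (Or.inr ?_)
    rw [e, show p ^ n - 2 = c from Nat.sub_eq_of_eq_add (by zify; linarith)]
  · exact Or.inr (Or.inl (by rw [e]; congr 1; zify; linarith))

end Pool.Agent.Lib.MP_56f651_co.IX
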