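import Pool.Agent.Lib.MP_56f651_co.IX.St

open Finset

namespace Pool.Agent.Lib.MP_56f651_co.IX

namespace PrimeAux

variable {p : ℕ} [Fact p.Prime] {s : ZMod p → ℤ}

theorem pw {G : Type} [Group G] [Finite G] {g : G} (hg : ∀ x, x ∈ Subgroup.zpowers g) (u : G) :
    ∃ k : ℕ, g ^ k = u := mem_powers_iff_mem_zpowers.2 (hg u)

theorem two_of_sq (h : ∀ u : (ZMod p)ˣ, ∀ x, s (u * u * x) = s x) : Two s := by
  obtain ⟨g, hg⟩ := IsCyclic.exists_generator (α := (ZMod p)ˣ)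
  let M : Subgroup (ZMod p)ˣ :=
    { carrier := {t | ∀ x, s (t * x) = s x}
      one_mem' := fun x => by simp
      mul_mem' := fun {a b} ha hb x => by rw [Units.val_mul, mul_assoc, ha, hb]
      inv_mem' := fun {a} ha x => by rw [← ha, Units.mul_inv_cancel_left] }
  have hM : ∀ k, Even k → g ^ k ∈ M := by
    rintro _ ⟨k, rfl⟩ x
    rw [pow_add, Units.val_mul]
    exact h _ x
  refine ⟨0, M, fun u u' hu hu' => ?_, fun t ht x => by simpa using ht x⟩
  obtain ⟨i, rfl⟩ := pw hg u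
  obtain ⟨j, rfl⟩ := pw hg u'
  rw [← pow_add]
  exact hM _ ((Nat.not_even_iff_odd.1 fun e => hu (hM _ e)).add_odd
    (Nat.not_even_iff_odd.1 fun e => hu' (hM _ e)))

theorem pat0 : ∀ b : Fin 6 → Bool, ∑ i, (if b i then (-1 : ℤ) else 1) = 0 →
    (∀ k, b (k + 3) = !b k) ∨ (∃ j, ∀ k, b (j + k) = true ↔ (k = 0 ∨ k = 1 ∨ k = 3)) ∨
      ∃ j, ∀ k, b (5 * (j + k)) = true ↔ (k = 0 ∨ k = 1 ∨ k = 3) := by
  decide +kernel

theorem pat (F : ℕ → ℤ) (hF : ∀ k, F k = F (k % 6)) (h1 : ∀ k, F k = 1 ∨ F k = -1)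
    (h0 : ∑ i ∈ range 6, F i = 0) : (∀ k, F (k + 3) = -F k) ∨
      (∃ j, ∀ k, F (j + k) = -1 ↔ (k % 6 = 0 ∨ k % 6 = 1 ∨ k % 6 = 3)) ∨
      ∃ j, ∀ k, F (5 * (j + k)) = -1 ↔ (k % 6 = 0 ∨ k % 6 = 1 ∨ k % 6 = 3) := by
  have e : ∀ k : ℕ, ∃ i : Fin 6, i.val = k % 6 := fun k => ⟨⟨_, Nat.mod_lt _ (by omega)⟩, rfl⟩
  rcases pat0 (fun i => decide (F i = -1)) (by
    rw [← h0, sum_range]
    exact sum_congr rfl fun i _ => by rcases h1 i with a | a <;> simp [a]) with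
    h | ⟨j, h⟩ | ⟨j, h⟩
  · refine Or.inl fun k => ?_
    obtain ⟨i, hi⟩ := e k
    have h2 := h i
    rw [show (i + 3).val = (k + 3) % 6 by rw [Fin.val_add, hi]; simp, hi, ← hF, ← hF] at h2
    rcases h1 k with a | a <;> rcases h1 (k + 3) with b | b <;> simp [a, b] at h2 ⊢
  · refine Or.inr (Or.inl ⟨j, fun k => ?_⟩)
    obtain ⟨i, hi⟩ := e k
    have h2 := h i
    rw [show (j + i).val = (j + k) % 6 by rw [Fin.val_add, hi]; simp, ← hF] at h2
    rw [← hi, ← decide_eq_true_iff (p := F _ = -1), h2, Fin.ext_iff, Fin.ext_iff, Fin.ext_iff]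
    rfl
  · refine Or.inr (Or.inr ⟨j, fun k => ?_⟩)
    obtain ⟨i, hi⟩ := e k
    have h2 := h i
    rw [show (5 * (j + i)).val = (5 * (j + k)) % 6 by
      rw [Fin.val_mul, Fin.val_add, hi, show (5 : Fin 6).val = 5 from rfl]; omega, ← hF] at h2
    rw [← hi, ← decide_eq_true_iff (p := F _ = -1), h2, Fin.ext_iff, Fin.ext_iff, Fin.ext_iff]
    rfl

theorem ord {g : (ZMod p)ˣ} (hg : ∀ x, x ∈ Subgroup.zpowers g) :
    orderOf (g : ZMod p) = p - 1 := by
  rw [orderOf_units, orderOf_eq_card_of_forall_mem_zpowers hg, Nat.card_eq_fintype_card,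
    ZMod.card_units]

theorem pw' {g : (ZMod p)ˣ} (hg : ∀ x, x ∈ Subgroup.zpowers g) {x : ZMod p} (hx : x ≠ 0) :
    ∃ k : ℕ, (g : ZMod p) ^ k = x := by
  obtain ⟨k, hk⟩ := pw hg (Units.mk0 x hx)
  exact ⟨k, by rw [← Units.val_pow_eq_pow_val, hk, Units.val_mk0]⟩

theorem hall (hA : StHallA) (hB : StHallB) (h7 : 7 < p) (h12 : p % 12 = 7) (h : Had s)
    (h0 : s 0 = 1) {g : (ZMod p)ˣ} (hg : ∀ x, x ∈ Subgroup.zpowers g) {j : ℕ}
    (hj : ∀ k, s ((g : ZMod p) ^ (j + k)) = -1 ↔ (k % 6 = 0 ∨ k % 6 = 1 ∨ k % 6 = 3)) :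
    ∃ a : ZMod p, IsUnit a ∧ (∃ c : ℕ, p = 4 * c ^ 2 + 27) ∧
      ∃ g : ZMod p, orderOf g = p - 1 ∧ (∃ m : ℕ, g ^ (6 * m + 1) = 3) ∧
        ∀ x, s x = -1 ↔ ∃ k : ℕ, (k % 6 = 0 ∨ k % 6 = 1 ∨ k % 6 = 3) ∧ g ^ k = a * x := by
  obtain ⟨ω, hω⟩ := exists_quadratic_eq_zero (a := (1 : ℂ)) (b := 1) (c := 1) one_ne_zero
    (IsAlgClosed.exists_eq_mul_self _)
  have hω' : ω ^ 2 + ω + 1 = 0 := by linear_combination hω
  have h3 : ω ^ 3 = 1 := by linear_combination (ω - 1) * hω'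
  have hζ : Units.mk0 ω (fun e => by simp [e] at h3) ∈
      rootsOfUnity (Fintype.card (ZMod p)ˣ) ℂ := by
    rw [mem_rootsOfUnity', ZMod.card_units, Units.val_mk0,
      show p - 1 = 3 * ((p - 1) / 3) by omega, pow_mul, h3, one_pow]
  have hχ : MulChar.ofRootOfUnity hζ hg g = ω := MulChar.ofRootOfUnity_spec hζ hg
  have h' : Had fun x => s ((g ^ j : (ZMod p)ˣ) * x) := h.equiv (AddAut.mulLeft (g ^ j))
  obtain ⟨b1, b2⟩ := hB p g ω _ h12 (ord hg) hω' hχ (hA p g _ ω _ h7 h12 (ord hg) h'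
    (by simpa using h0) (fun k => by rw [Units.val_pow_eq_pow_val, ← pow_add]; exact hj k) hω' hχ)
  refine ⟨((g ^ j)⁻¹ : (ZMod p)ˣ), Units.isUnit _, b1, g, ord hg, b2, fun x => ?_⟩
  have e : ∀ k, (g : ZMod p) ^ k = ((g ^ j)⁻¹ : (ZMod p)ˣ) * x → x = (g : ZMod p) ^ (j + k) :=
    fun k hk => by rw [pow_add, hk, ← Units.val_pow_eq_pow_val, Units.mul_inv_cancel_left]
  refine ⟨fun hx => ?_, fun ⟨k, h1, h2⟩ => by rw [e k h2]; exact (hj k).2 h1⟩
  have hx0 : x ≠ 0 := by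
    rintro rfl
    omega
  obtain ⟨k, hk⟩ := pw' hg (mul_ne_zero (g ^ j)⁻¹.ne_zero hx0)
  exact ⟨k, (hj k).1 (e k hk ▸ hx), hk⟩

theorem skew (hC : StCore) (h : Had s) (h0 : s 0 = 1) (hs : ∀ x, x ≠ 0 → s (-x) = -s x) :
    Two s := by
  obtain ⟨β, hβ⟩ : ∃ β : ZMod p → ℤ, ∀ y, β y = s y - if y = 0 then 1 else 0 :=
    ⟨_, fun _ => rfl⟩
  have b1 : ∀ y, β (-y) = -β y := fun y => by
    by_cases e : y = 0
    · simp [hβ, e, h0]
    · simp [hβ, e, hs y e]
  have hc := hC p β (-1) (Or.inr rfl) (fun y => by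
    rw [hβ]
    split_ifs with e
    · simp [e, h0]
    · rcases h.sq y with a | a <;> simp [a]) (by simp [hβ, h.sum]) fun d => by
      have e1 : ∀ y, β y * β (d - y) = -(s y * s (y + -d)) + (if y = d then s y else 0) +
          (if y = 0 then s (y + -d) else 0) - if y = 0 then (if d = 0 then 1 else 0) else 0 := by
        intro y
        rw [show d - y = -(y + -d) by ring, b1, hβ, hβ]
        simp only [add_neg_eq_zero]
        by_cases e : y = 0
        · subst e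
          simp only [eq_comm (a := d)]
          split_ifs <;> ring
        · simp only [if_neg e]
          split_ifs <;> ring
      simp only [e1, sum_sub_distrib, sum_add_distrib, sum_neg_distrib, sum_ite_eq', mem_univ,
        if_true, zero_add]
      split_ifs with e
      · simp [e, h.mul_self, h0]
        ring
      · rw [h.cor _ (neg_ne_zero.2 e), hs d e]
        ring
  refine two_of_sq fun u x => ?_
  obtain ⟨η, h1, h2⟩ := hc u
  have h3 : β (u * u * x) = β x := by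
    rw [mul_assoc, h2, h2]
    rcases h1 with rfl | rfl <;> ring
  rw [hβ, hβ] at h3
  simpa using h3

end PrimeAux

open PrimeAux in
theorem stPrime (hCore : StCore) (hSmall : StSmall) (hA : StHallA) (hB : StHallB) : StPrime := by
  intro p hp s h4 h h6
  by_cases h3 : p % 3 = 1
  swap
  · refine Or.inl (two_of_sq fun u x => ?_)
    have hp2 := hp.1.two_le
    obtain ⟨k, m, hk⟩ : ∃ k m, 3 * k = 1 + (p - 1) * m := by
      rcases (by omega : p % 3 = 0 ∨ p % 3 = 2) with e | e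
      · exact ⟨p / 3, 1, by omega⟩
      · exact ⟨(2 * p - 1) / 3, 2, by omega⟩
    have e : (u : ZMod p) ^ (3 * k) = u := by
      rw [hk, pow_add, pow_mul, ZMod.pow_card_sub_one_eq_one u.ne_zero, one_pow, pow_one, mul_one]
    rw [← h6 _ (pow_ne_zero k u.ne_zero) x, ← pow_mul, show k * 6 = 3 * k + 3 * k by ring,
      pow_add, e]
  have h12 : p % 12 = 7 := by omega
  rcases (by omega : p = 7 ∨ 7 < p) with rfl | h7
  · exact Or.inl (hSmall.1 s h)
  obtain ⟨g, hg⟩ := IsCyclic.exists_generator (α := (ZMod p)ˣ)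
  obtain ⟨n, hn⟩ : ∃ n, p - 1 = 6 * (2 * n + 1) := ⟨p / 12, by omega⟩
  have per : ∀ m k, s ((g : ZMod p) ^ (6 * m + k)) = s ((g : ZMod p) ^ k) := fun m k => by
    rw [pow_add, pow_mul', h6 _ (pow_ne_zero _ g.ne_zero)]
  have e1 : ∀ m : ℕ, ∑ k ∈ range (6 * m), s ((g : ZMod p) ^ k) =
      m * ∑ k ∈ range 6, s ((g : ZMod p) ^ k) := fun m => by
    induction m with
    | zero => simp
    | succ m ih =>
      rw [Nat.mul_succ, sum_range_add, ih]
      simp only [per]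
      push_cast
      ring
  have e2 : ∑ k ∈ range (p - 1), s ((g : ZMod p) ^ k) = ∑ x ∈ univ.erase 0, s x := by
    refine sum_nbij (fun k => (g : ZMod p) ^ k)
      (fun k _ => mem_erase.2 ⟨pow_ne_zero _ g.ne_zero, mem_univ _⟩) ?_ (fun x hx => ?_)
      fun _ _ => rfl
    · rw [coe_range, ← ord hg]
      exact pow_injOn_Iio_orderOf
    · obtain ⟨k, rfl⟩ := pw' hg (mem_erase.1 hx).1
      exact ⟨k % (p - 1), mem_coe.2 (mem_range.2 (Nat.mod_lt _ (by omega))), by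
        rw [← ord hg]
        exact pow_mod_orderOf _ _⟩
  have e3 := h.sum
  rw [← add_sum_erase _ _ (mem_univ 0), ← e2, hn, e1] at e3
  obtain ⟨h0, hσ⟩ : s 0 = 1 ∧ ∑ k ∈ range 6, s ((g : ZMod p) ^ k) = 0 := by
    generalize ∑ k ∈ range 6, s ((g : ZMod p) ^ k) = σ at e3
    have h1 : (1 : ℤ) ≤ n := by omega
    have h2 := h.sq 0
    push_cast at e3
    rcases lt_trichotomy σ 0 with e | rfl | e
    · rcases h2 with a | a <;> exact absurd e3 (by rw [a]; nlinarith)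
    · omega
    · rcases h2 with a | a <;> exact absurd e3 (by rw [a]; nlinarith)
  rcases pat (fun k => s ((g : ZMod p) ^ k)) (fun k => by
    rw [← per (k / 6) (k % 6), Nat.div_add_mod]) (fun k => h.sq _) hσ with hk | ⟨j, hj⟩ | ⟨j, hj⟩
  · have m1 : (g : ZMod p) ^ (6 * n + 3) = -1 := by
      refine (mul_self_eq_one_iff.1 ?_).resolve_left
        (pow_ne_one_of_lt_orderOf (by omega) (by rw [ord hg]; omega))
      rw [← pow_add, show 6 * n + 3 + (6 * n + 3) = p - 1 by omega,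
        ZMod.pow_card_sub_one_eq_one g.ne_zero]
    refine Or.inl (skew hCore h h0 fun x hx => ?_)
    obtain ⟨k, rfl⟩ := pw' hg hx
    rw [← neg_one_mul, ← m1, ← pow_add, add_assoc, per, add_comm]
    exact hk k
  · exact Or.inr (hall hA hB h7 h12 h h0 hg hj)
  · refine Or.inr (hall hA hB h7 h12 h h0 (g := g⁻¹) (by rwa [Subgroup.zpowers_inv]) (j := j)
      fun k => ?_)
    rw [← hj k, ← h6 _ (pow_ne_zero (j + k) g.ne_zero), ← pow_mul,
      show (j + k) * 6 = 5 * (j + k) + (j + k) by ring, pow_add, mul_assoc, ← mul_pow,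
      Units.mul_inv, one_pow, mul_one]

end Pool.Agent.Lib.MP_56f651_co.IX
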