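import Pool.Agent.Lib.MP_56f651_co.IX.Grp

open Finset

namespace Pool.Agent.Lib.MP_56f651_co.IX

section
variable {R R' : Type} [CommRing R] [Fintype R] [CommRing R'] [Fintype R'] [DecidableEq R']

/-- sums over the fibres of `π` -/
def proj (π : R →+* R') (s : R → ℤ) (y : R') : ℤ := ∑ x ∈ univ.filter fun x => π x = y, s x

lemma fib_card {π : R →+* R'} (hπ : Function.Surjective π) {k : ℕ}
    (hk : Fintype.card R = k * Fintype.card R') (y : R') :
    (univ.filter fun x => π x = y).card = k := by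
  have h1 : ∀ y, (univ.filter fun x => π x = y).card = (univ.filter fun x => π x = 0).card := by
    intro y
    obtain ⟨x0, rfl⟩ := hπ y
    refine card_nbij' (fun x => x - x0) (fun x => x + x0) (fun x hx => ?_) (fun x hx => ?_)
      (fun x _ => by simp) fun x _ => by simp
    · simp only [coe_filter, mem_univ, true_and, Set.mem_ofPred_eq] at hx ⊢
      rw [map_sub, hx, sub_self]
    · simp only [coe_filter, mem_univ, true_and, Set.mem_ofPred_eq] at hx ⊢
      rw [map_add, hx, zero_add]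
  have h2 := card_eq_sum_card_fiberwise (f := π) (s := univ) (t := univ) fun _ _ => mem_univ _
  rw [sum_congr rfl fun y _ => h1 y, sum_const, card_univ, card_univ, hk, smul_eq_mul,
    mul_comm] at h2
  rw [h1]
  exact (Nat.eq_of_mul_eq_mul_left Fintype.card_pos h2).symm

lemma proj_had {π : R →+* R'} (hπ : Function.Surjective π) {k : ℕ}
    (hk : Fintype.card R = k * Fintype.card R') {s : R → ℤ} (h : Had s) : HadQ k (proj π s) := by
  classical
  refine ⟨(sum_fiberwise univ π s).trans h.sum, fun d => ?_⟩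
  have h1 : ∀ x, proj π s (π x + d) = ∑ c ∈ univ.filter fun c => π c = d, s (x + c) := by
    intro x
    refine sum_nbij' (fun z => z - x) (fun c => x + c) (fun z hz => ?_) (fun z hz => ?_)
      (fun x _ => by simp) (fun x _ => by simp) fun x _ => by simp
    · simp only [mem_filter, mem_univ, true_and] at hz ⊢
      rw [map_sub, hz]; ring
    · simp only [mem_filter, mem_univ, true_and] at hz ⊢
      rw [map_add, hz]
  have h2 : ∑ y, proj π s y * proj π s (y + d) = ∑ x, s x * proj π s (π x + d) := by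
    rw [← sum_fiberwise univ π fun x => s x * proj π s (π x + d)]
    refine sum_congr rfl fun y _ => ?_
    rw [proj, sum_mul]
    exact sum_congr rfl fun x hx => by rw [(mem_filter.mp hx).2]
  have h3 : ∀ c, ∑ x, s x * s (x + c) = (if c = 0 then (Fintype.card R + 1 : ℤ) else 0) - 1 := by
    intro c
    split_ifs with hc
    · simp [hc, h.mul_self]
    · rw [h.cor c hc]; rfl
  rw [h2]
  simp only [h1, mul_sum]
  rw [sum_comm]
  simp only [h3, sum_sub_distrib, sum_ite_eq', mem_filter, mem_univ, true_and, map_zero, sum_const,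
    fib_card hπ hk, hk, eq_comm (a := d)]
  simp

lemma proj_abs {π : R →+* R'} (hπ : Function.Surjective π) {k : ℕ}
    (hk : Fintype.card R = k * Fintype.card R') {s : R → ℤ} (h : Had s) (y : R') :
    |proj π s y| ≤ k := by
  refine (abs_sum_le_sum_abs _ _).trans ?_
  rw [sum_congr rfl fun x _ => show |s x| = 1 by rcases h.sq x with a | a <;> rw [a] <;> rfl]
  simp [fib_card hπ hk]

lemma proj_odd {π : R →+* R'} (hπ : Function.Surjective π) {k : ℕ}
    (hk : Fintype.card R = k * Fintype.card R') {s : R → ℤ} (h : Had s) (ho : Odd k) (y : R') :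
    Odd (proj π s y) := by
  have : ∀ x, (s x : ZMod 2) = 1 := fun x => by rcases h.sq x with a | a <;> rw [a] <;> rfl
  rw [← ZMod.intCast_eq_one_iff_odd, proj, Int.cast_sum, sum_congr rfl fun i _ => this _,
    sum_const, fib_card hπ hk, nsmul_eq_mul, mul_one, ZMod.natCast_eq_one_iff_odd]
  exact ho

omit [Fintype R'] in
lemma proj_inv (π : R →+* R') {s : R → ℤ} (u : Rˣ) (hu : ∀ x, s (u * x) = s x) (y : R') :
    proj π s (π u * y) = proj π s y := by
  symm
  refine sum_nbij' (fun z => u * z) (fun z => (u⁻¹ : Rˣ) * z) (fun z hz => ?_) (fun z hz => ?_)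
    (fun x _ => by simp) (fun x _ => by simp) fun x _ => (hu x).symm
  · simp only [mem_filter, mem_univ, true_and] at hz ⊢
    rw [map_mul, hz]
  · simp only [mem_filter, mem_univ, true_and] at hz ⊢
    rw [map_mul, hz, ← mul_assoc, ← map_mul, Units.inv_mul, map_one, one_mul]

end

/-- `-1` is a multiplier modulo `d` -/
def Re {v : ℕ} (M : Subgroup (ZMod v)ˣ) (d : ℕ) : Prop := ∃ u ∈ K v d, -u ∈ M

section
variable {v : ℕ} [NeZero v] (hv : v % 4 = 3) {s : ZMod v → ℤ} (h : Had s)
  {M : Subgroup (ZMod v)ˣ} (hs : ∀ t ∈ M, ∀ x, s (t * x) = s x)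

omit [NeZero v] in
include hv in
lemma odd_of_dvd {d : ℕ} (hd : d ∣ v) : Odd d := Odd.of_dvd_nat (by rw [Nat.odd_iff]; omega) hd

include hv h hs

lemma real (hR : StReal) {k d : ℕ} [NeZero d] (e : v = k * d) (hd : d ∣ v) (h1 : 1 < d)
    (hr : Re M d) : ∃ m : ℤ, m ^ 2 = v + 1 ∧ (d : ℤ) ∣ m - 1 ∧
      ∀ y, d * proj (ZMod.castHom hd (ZMod d)) s y = 1 - m + if y = 0 then d * m else 0 := by
  obtain ⟨u, hu, hu'⟩ := hr
  obtain ⟨m, hm, hm'⟩ := hR d k _ h1 (odd_of_dvd hv hd)
    (proj_had (ZMod.castHom_surjective hd) (by rw [ZMod.card, ZMod.card, e]) h) fun y => by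
      have := proj_inv (ZMod.castHom hd (ZMod d)) (-u) (hs _ hu') y
      rwa [Units.val_neg, map_neg, (mem_K_iff hd u).mp hu, neg_one_mul] at this
  refine ⟨m, by rw [hm, e]; push_cast; ring, ?_, hm'⟩
  have : Fact (1 < d) := ⟨h1⟩
  have := hm' 1
  rw [if_neg one_ne_zero] at this
  exact ⟨-proj (ZMod.castHom hd (ZMod d)) s 1, by linear_combination this⟩

/-- a real cofactor of a prime power -/
lemma lemE (hR : StReal) {p n w : ℕ} [NeZero w] (hp : p.Prime) (e : v = p ^ n * w) (hd : w ∣ v)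
    (h1 : 1 < w) (hr : Re M w) : ∃ ε : ℤ, (ε = 1 ∨ ε = -1) ∧ (w : ℤ) = p ^ n - 2 * ε ∧
      ∀ y, proj (ZMod.castHom hd (ZMod w)) s y =
        -ε + if y = 0 then ε * (p ^ n - ε) else 0 := by
  obtain ⟨m, hm, ⟨c, hc⟩, hm'⟩ := real hv h hs hR e hd h1 hr
  have hw : (1 : ℤ) < w := by exact_mod_cast h1
  have h2 : c * (w * c + 2) = (p : ℤ) ^ n := by
    refine mul_left_cancel₀ (show (w : ℤ) ≠ 0 by omega) ?_
    rw [e] at hm
    push_cast at hm
    linear_combination hm - (m + 1 + w * c) * hc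
  have hp' : Prime (p : ℤ) := Nat.prime_iff_prime_int.mp hp
  have h3 : c = 1 ∨ c = -1 := by
    by_cases h3 : (p : ℤ) ∣ c
    · have hn : n ≠ 0 := by
        rintro rfl
        exact hp'.not_isUnit (isUnit_of_dvd_unit h3 (IsUnit.of_mul_eq_one _ (by simpa using h2)))
      have h4 : ¬ (p : ℤ) ∣ w * c + 2 := fun h4 => by
        have h5 : (p : ℤ) ∣ 2 := (dvd_add_right (h3.mul_left _)).mp h4
        have h6 : p ∣ 2 := by exact_mod_cast h5
        have := three_le hv hp ((dvd_pow_self p hn).trans ⟨w, e⟩)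
        have := Nat.le_of_dvd (by norm_num) h6
        omega
      have h5 : IsUnit (w * c + 2) :=
        ((hp'.coprime_iff_not_dvd.mpr h4).pow_left (m := n)).isUnit_of_dvd' (Dvd.intro_left _ h2)
          dvd_rfl
      rcases Int.isUnit_iff.mp h5 with h6 | h6
      · have : (w : ℤ) ∣ 1 := ⟨-c, by linarith⟩
        have := Int.le_of_dvd one_pos this
        omega
      · have h7 : (w : ℤ) ∣ 3 := ⟨-c, by linarith⟩
        have := Int.le_of_dvd (by norm_num) h7
        obtain h8 | h8 : (w : ℤ) = 2 ∨ (w : ℤ) = 3 := by omega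
        all_goals rw [h8] at h6; omega
    · exact Int.isUnit_iff.mp
        (((hp'.coprime_iff_not_dvd.mpr h3).pow_left (m := n)).isUnit_of_dvd' (Dvd.intro _ h2)
          dvd_rfl)
  refine ⟨c, h3, by rcases h3 with rfl | rfl <;> linarith, fun y => ?_⟩
  refine mul_left_cancel₀ (show (w : ℤ) ≠ 0 by omega) ?_
  rw [hm' y, ← h2, show m = 1 + w * c by linarith]
  rcases h3 with rfl | rfl <;> split_ifs <;> ring

end

end Pool.Agent.Lib.MP_56f651_co.IX
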