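import Pool.Agent.Lib.MP_56f651_co.IX.St

open Finset

namespace Pool.Agent.Lib.MP_56f651_co.IX

namespace RealAux

theorem int_of {z : ℂ} (hz : IsIntegral ℤ z) {a b : ℤ} (ha : a ≠ 0) (h : (a : ℂ) * z = b) :
    ∃ n : ℤ, z = n := by
  have ha' : (a : ℂ) ≠ 0 := by exact_mod_cast ha
  have e : z = algebraMap ℚ ℂ ((b : ℚ) / a) := by
    simp only [map_div₀, map_intCast]
    rw [eq_div_iff ha', mul_comm, h]
  rw [e, isIntegral_algebraMap_iff (algebraMap ℚ ℂ).injective] at hz
  obtain ⟨n, hn⟩ := IsIntegrallyClosed.algebraMap_eq_of_integral hz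
  exact ⟨n, by rw [e, ← hn]; simp⟩

variable {d : ℕ} [NeZero d]

/-- the standard character -/
noncomputable abbrev ps (x : ZMod d) : ℂ := ZMod.stdAddChar x

theorem orth (b : ZMod d) : ∑ x : ZMod d, ps (x * b) = if b = 0 then (d : ℂ) else 0 := by
  have := AddChar.sum_mulShift b (ZMod.isPrimitive_stdAddChar d)
  rw [ZMod.card] at this
  rw [this]
  split_ifs <;> simp

theorem ps_add (x y : ZMod d) : ps (x + y) = ps x * ps y := AddChar.map_add_eq_mul _ _ _

theorem ps_zero : ps (0 : ZMod d) = 1 := AddChar.map_zero_eq_one _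

theorem ps_int (x : ZMod d) : IsIntegral ℤ (ps x) := by
  refine IsIntegral.of_pow (NeZero.pos d) ?_
  rw [← AddChar.map_nsmul_eq_pow, nsmul_eq_mul, ZMod.natCast_self, zero_mul,
    AddChar.map_zero_eq_one]
  exact isIntegral_one

/-- the transform -/
noncomputable def F (S : ZMod d → ℤ) (h : ZMod d) : ℂ := ∑ y, (S y : ℂ) * ps (y * h)

variable {k : ℕ} {S : ZMod d → ℤ}

theorem F_sq (hS : HadQ k S) (hs : ∀ y, S (-y) = S y) {h : ZMod d} (hh : h ≠ 0) :
    F S h * F S h = k * d + 1 := by
  have e1 : F S h = ∑ y, (S y : ℂ) * ps (-y * h) := by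
    rw [F, ← Equiv.sum_comp (Equiv.neg (ZMod d))]
    simp only [Equiv.neg_apply, hs]
  have e2 : ∀ x, F S h = ∑ t, (S (x + t) : ℂ) * ps ((x + t) * h) := fun x => by
    rw [F, ← Equiv.sum_comp (Equiv.addLeft x)]
    rfl
  calc F S h * F S h = ∑ x, ∑ t, ((S x * S (x + t) : ℤ) : ℂ) * ps (t * h) := by
        nth_rewrite 1 [e1]
        rw [sum_mul]
        refine sum_congr rfl fun x _ => ?_
        rw [e2 x, mul_sum]
        refine sum_congr rfl fun t _ => ?_
        rw [show t * h = -x * h + (x + t) * h by ring, ps_add]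
        push_cast
        ring
    _ = ∑ t, ((∑ x, S x * S (x + t) : ℤ) : ℂ) * ps (t * h) := by
        rw [sum_comm]
        simp only [Int.cast_sum, sum_mul]
    _ = k * d + 1 := by
        simp only [hS.cor, ZMod.card, Int.cast_sub, Int.cast_ite, sub_mul, sum_sub_distrib,
          ite_mul, Int.cast_zero, zero_mul, sum_ite_eq', mem_univ, if_true, ← mul_sum, orth,
          if_neg hh, ps_zero]
        push_cast
        ring

theorem F_inv (hs : ∀ y, S (-y) = S y) (y : ZMod d) : ∑ h, F S h * ps (h * y) = d * S y := by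
  have e : ∀ h, F S h * ps (h * y) = ∑ z, (S z : ℂ) * ps (h * (z + y)) := fun h => by
    rw [F, sum_mul]
    refine sum_congr rfl fun z _ => ?_
    rw [mul_add, ps_add, mul_comm h z, mul_assoc]
  simp only [e]
  rw [sum_comm]
  simp only [← mul_sum, orth, add_eq_zero_iff_eq_neg, mul_ite, mul_zero, sum_ite_eq', mem_univ,
    if_true, hs, mul_comm]

theorem erase_sum (y : ZMod d) :
    ∑ h ∈ univ.erase (0 : ZMod d), ps (h * y) = (if y = 0 then (d : ℂ) else 0) - 1 := by
  rw [← orth, ← add_sum_erase _ _ (mem_univ (0 : ZMod d)), zero_mul, ps_zero]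
  ring

end RealAux

open RealAux in
theorem stReal : StReal := by
  classical
  intro d k _ S hd hodd hS hs
  obtain ⟨r, hr⟩ := IsAlgClosed.exists_eq_mul_self ((k : ℂ) * d + 1)
  let T : Finset (ZMod d) := (univ.erase 0).filter fun h => F S h = r
  have hT : T ⊆ univ.erase 0 := filter_subset _ _
  let e : ZMod d → ℂ := fun y => ∑ h ∈ T, ps (h * y)
  have key : ∀ y, (d : ℂ) * S y = 1 + r * (2 * e y - ((if y = 0 then (d : ℂ) else 0) - 1)) := by
    intro y
    have h0 : F S 0 = 1 := by
      simp only [F, mul_zero, ps_zero, mul_one]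
      exact_mod_cast hS.sum
    rw [← F_inv hs, ← add_sum_erase _ _ (mem_univ (0 : ZMod d)), zero_mul, ps_zero, h0, mul_one,
      ← erase_sum]
    simp only [e, T, sum_filter, mul_sum, ← sum_sub_distrib]
    refine congrArg _ (sum_congr rfl fun h hh => ?_)
    have h1 := F_sq hS hs (ne_of_mem_erase hh)
    split_ifs with h2
    · rw [h2]
      ring
    · rw [(mul_self_eq_mul_self_iff.1 (h1.trans hr)).resolve_left h2]
      ring
  have e0 : e 0 = T.card := by simp [e]
  obtain ⟨m, rfl⟩ : ∃ m : ℤ, r = m := by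
    have h1 := key 0
    rw [e0, if_pos rfl] at h1
    refine int_of (a := 2 * T.card - (d - 1)) (b := d * S 0 - 1) ?_ (fun h => ?_) ?_
    · refine IsIntegral.of_pow two_pos ?_
      rw [sq, ← hr]
      exact_mod_cast isIntegral_algebraMap (R := ℤ) (A := ℂ) (x := k * d + 1)
    · have h2 : (2 * (T.card : ℂ) - (d - 1)) = 0 := by exact_mod_cast h
      rw [h2, mul_zero, add_zero] at h1
      have h3 : (d : ℤ) * S 0 = 1 := by exact_mod_cast h1
      have := Int.eq_one_of_mul_eq_one_right (Int.natCast_nonneg d) h3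
      omega
    · push_cast
      linear_combination -h1
  have hm : m ^ 2 = k * d + 1 := by
    rw [sq]
    exact_mod_cast hr.symm
  have hm0 : m ≠ 0 := by
    rintro rfl
    have : (0 : ℤ) ≤ k * d := by positivity
    norm_num at hm
    omega
  have hE : ∀ y, ∃ n : ℤ, e y = n := fun y =>
    int_of (a := 2 * m) (b := d * S y - 1 + m * ((if y = 0 then (d : ℤ) else 0) - 1))
      (IsIntegral.sum _ fun h _ => ps_int _) (by omega) (by
        push_cast
        linear_combination -key y)
  choose E hE using hE
  have kz : ∀ y, (d : ℤ) * S y = 1 + m * (2 * E y - ((if y = 0 then (d : ℤ) else 0) - 1)) := by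
    intro y
    have := key y
    rw [hE] at this
    exact_mod_cast this
  have E0 : E 0 = T.card := by
    rw [hE] at e0
    exact_mod_cast e0
  have hle : ∀ y, |E y| ≤ T.card := by
    intro y
    have h1 : ‖e y‖ ≤ T.card := by
      refine (norm_sum_le _ _).trans ?_
      simp
    rw [hE, Complex.norm_intCast] at h1
    exact_mod_cast h1
  have htd : T.card + 1 ≤ d := by
    have := card_le_card hT
    rw [card_erase_of_mem (mem_univ _), card_univ, ZMod.card] at this
    omega
  have hq : ∀ y, (E y - T.card) * (E y - T.card + d) = 0 := by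
    intro y
    have h1 : (d : ℤ) ∣ (2 * m) * (E y - T.card) := by
      have a := kz y
      have b := kz 0
      rw [if_pos rfl, E0] at b
      split_ifs at a
      · exact ⟨S y - S 0, by linear_combination b - a⟩
      · exact ⟨S y - S 0 - m, by linear_combination b - a⟩
    have h2 : IsCoprime (d : ℤ) (2 * m) := by
      obtain ⟨c, hc⟩ := hodd
      refine IsCoprime.mul_right ⟨1, -c, by rw [hc]; push_cast; ring⟩
        ⟨-k, m, by linear_combination hm⟩
    obtain ⟨c, hc⟩ := h2.dvd_of_dvd_mul_left h1
    have h3 := abs_le.1 (hle y)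
    have h4 : c ≤ 0 := by nlinarith
    have h5 : -2 < c := by nlinarith
    rw [hc]
    interval_cases c <;> ring
  have s1 : ∑ y, E y = 0 := by
    have : ∑ y, e y = 0 := by
      rw [sum_comm]
      refine sum_eq_zero fun h hh => ?_
      simp only [mul_comm h, orth, if_neg (ne_of_mem_erase (hT hh))]
    simp only [hE] at this
    exact_mod_cast this
  have s2 : ∑ y, E y * E y = d * T.card := by
    have sy : ∀ y, E (-y) = E y := by
      intro y
      have a := kz y
      have b := kz (-y)
      simp only [neg_eq_zero, hs] at b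
      exact mul_left_cancel₀ (by omega : 2 * m ≠ 0) (by linear_combination a - b)
    have : ∑ y, e y * e (-y) = d * T.card := by
      have a : ∀ y, e y * e (-y) = ∑ h ∈ T, ∑ h' ∈ T, ps (y * (h - h')) := fun y => by
        rw [sum_mul_sum]
        refine sum_congr rfl fun h _ => sum_congr rfl fun h' _ => ?_
        rw [← ps_add]
        congr 1
        ring
      simp only [a]
      rw [sum_comm]
      refine (sum_congr rfl fun h hh => ?_).trans (by rw [sum_const, nsmul_eq_mul, mul_comm])
      rw [sum_comm]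
      simp only [orth, sub_eq_zero, sum_ite_eq, if_pos hh]
    simp only [hE, sy] at this
    exact_mod_cast this
  have s3 : (d : ℤ) * (T.card * (1 + T.card - d)) = 0 := by
    have a : ∑ y, (E y - T.card) * (E y - T.card + d) = 0 := sum_eq_zero fun y _ => hq y
    have b : ∀ y, (E y - T.card) * (E y - T.card + d) =
        E y * E y + (d - 2 * T.card) * E y + T.card * (T.card - d) := fun y => by ring
    simp only [b, sum_add_distrib, ← mul_sum, s1, s2, sum_const, card_univ, ZMod.card,
      nsmul_eq_mul] at a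
    linear_combination a
  rcases mul_eq_zero.1 ((mul_eq_zero.1 s3).resolve_left (by omega)) with h | h
  · refine ⟨-m, by rw [neg_sq, hm], fun y => ?_⟩
    have a := hle y
    rw [h, abs_nonpos_iff] at a
    rw [kz, a]
    split_ifs <;> ring
  · refine ⟨m, hm, fun y => ?_⟩
    have a : T = univ.erase 0 := eq_of_subset_of_card_le hT (by
      rw [card_erase_of_mem (mem_univ _), card_univ, ZMod.card]
      omega)
    have b : e y = (if y = 0 then (d : ℂ) else 0) - 1 := by
      rw [← erase_sum, ← a]
    have c : E y = (if y = 0 then (d : ℤ) else 0) - 1 := by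
      rw [hE] at b
      exact_mod_cast b
    rw [kz, c]
    split_ifs <;> ring

end Pool.Agent.Lib.MP_56f651_co.IX
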