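import Pool.Agent.Lib.MP_56f651_co.IX.St

open Finset

namespace Pool.Agent.Lib.MP_56f651_co.IX

namespace SmallAux

/-- the number of places where two lists differ -/
noncomputable def cntB (l : List Bool) : List Bool → ℕ :=
  List.rec (fun _ => 0) (fun a _ ih m => List.casesOn m 0 fun b m =>
    cond (xor a b) (Nat.succ (ih m)) (ih m)) l

/-- `p` holds on all lists got from `l` by putting `k` bits in front, `j` of them set -/
noncomputable def allL (p : List Bool → Bool) (k : ℕ) : ℕ → List Bool → Bool :=
  Nat.rec (fun j l => Nat.casesOn j (p l) fun _ => true)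
    (fun k ih j l => (Nat.blt k j || ih j (false :: l)) &&
      Nat.casesOn j true fun j => ih j (true :: l)) k

/-- the test on one list -/
noncomputable def chk (v w : ℕ) (l : List Bool) : Bool :=
  ((List.range' 1 w).any fun d => !Nat.beq (cntB l ((l ++ l).drop d)) (w + 1)) ||
    (List.range v).any fun c => (List.range v).all fun x =>
      l.getD ((2 * x + c) % v) false == l.getD ((x + c) % v) false

lemma allL_succ (p : List Bool → Bool) (k j : ℕ) (l : List Bool) : allL p (k + 1) j l =
    ((Nat.blt k j || allL p k j (false :: l)) &&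
      Nat.casesOn j true fun j => allL p k j (true :: l)) := rfl

lemma allL_spec (p : List Bool → Bool) : ∀ (m l : List Bool),
    allL p m.length (m.count true) l = true → p (m.reverse ++ l) = true
  | [], _, h => h
  | a :: m, l, h => by
    rw [List.length_cons, allL_succ, Bool.and_eq_true] at h
    rw [List.reverse_cons, List.append_assoc]
    refine allL_spec p m _ ?_
    cases a
    · have e : (false :: m).count true = m.count true := by simp
      rw [e, Bool.or_eq_true, Nat.blt_eq] at h
      exact h.1.resolve_left (not_lt.2 List.count_le_length)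
    · have e : (true :: m).count true = m.count true + 1 := by simp
      rw [e] at h
      exact h.2

lemma chk7 : allL (chk 7 3) 5 1 [true, true] = true := by decide +kernel

lemma chk15 : allL (chk 15 7) 13 5 [true, true] = true := by decide +kernel

/-- the sign of a bit -/
def sg (b : Bool) : ℤ := cond b (-1) 1

lemma count_eq : ∀ l : List Bool,
    ∑ i ∈ range l.length, sg (l.getD i false) = l.length - 2 * l.count true
  | [] => rfl
  | a :: l => by
    rw [List.length_cons, sum_range_succ']
    simp only [List.getD_cons_succ, List.getD_cons_zero, count_eq l]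
    cases a <;> simp [sg] <;> ring

lemma cntB_eq : ∀ l m : List Bool, l.length ≤ m.length →
    ∑ i ∈ range l.length, sg (l.getD i false) * sg (m.getD i false) = l.length - 2 * cntB l m
  | [], _, _ => rfl
  | _ :: _, [], h => by simp at h
  | a :: l, b :: m, h => by
    have e : cntB (a :: l) (b :: m) = cond (xor a b) (cntB l m + 1) (cntB l m) := rfl
    rw [List.length_cons, sum_range_succ', e]
    simp only [List.getD_cons_succ, List.getD_cons_zero, cntB_eq l m (by simpa using h)]
    cases a <;> cases b <;> simp [sg] <;> ring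

lemma sumZ {v : ℕ} [NeZero v] (F : ZMod v → ℤ) :
    ∑ x, F x = ∑ i ∈ range v, F (i : ZMod v) :=
  Finset.sum_nbij' (fun x => x.val) (fun i => (i : ZMod v)) (by simp [ZMod.val_lt]) (by simp)
    (by simp) (fun _ hi => ZMod.val_cast_of_lt (mem_range.1 hi)) (by simp)

lemma fix0 {v w u j : ℕ} [NeZero v] (hw : v = 2 * w + 1) (hu : v = u + 2) (hj : w = j + 2)
    (hv : allL (chk v w) u j [true, true] = true) {s : ZMod v → ℤ} (h : Had s)
    (h0 : s u = -1) (h1 : s (u + 1) = -1) : ∃ c, ∀ x, s (2 * x + c) = s (x + c) := by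
  obtain ⟨b, hb⟩ : ∃ b : ZMod v → Bool, ∀ x, sg (b x) = s x :=
    ⟨fun x => decide (s x = -1), fun x => by rcases h.sq x with e | e <;> simp [sg, e]⟩
  have hb1 : ∀ x, s x = -1 → b x = true := fun x e => by
    rw [← hb] at e
    revert e
    cases b x <;> simp [sg]
  obtain ⟨l, hl⟩ : ∃ l, l = (List.range v).map fun i : ℕ => b (i : ZMod v) := ⟨_, rfl⟩
  have hn : l.length = v := by simp [hl]
  have hg : ∀ i < v, l.getD i false = b (i : ZMod v) := fun i hi => by
    simp [hl, List.getD_eq_getElem?_getD, hi]
  have hm : ∀ i, l.getD (i % v) false = b (i : ZMod v) := fun i => by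
    rw [hg _ (Nat.mod_lt _ (NeZero.pos v)), ZMod.natCast_mod]
  have hll : l ++ l = (List.range (v + v)).map fun i : ℕ => b (i : ZMod v) := by
    rw [List.range_add, List.map_append, List.map_map, hl]
    simp [Function.comp_def]
  have hs : l.count true = w := by
    have e := count_eq l
    rw [hn, sum_congr rfl fun i hi => by rw [hg i (mem_range.1 hi), hb], ← sumZ, h.sum] at e
    omega
  obtain ⟨m, hm1, hm2⟩ : ∃ m : List Bool, m.length = u ∧ m ++ [true, true] = l := by
    refine ⟨(List.range u).map fun i : ℕ => b (i : ZMod v), by simp, ?_⟩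
    have e : List.range v = List.range (u + 1 + 1) := by rw [hu]
    rw [hl, e, List.range_succ, List.range_succ]
    simp [hb1 _ h0, hb1 _ h1]
  have hm3 : m.count true = j := by
    rw [← hm2] at hs
    simp at hs
    omega
  have hc := allL_spec (chk v w) m.reverse [true, true] (by simpa [hm1, hm3] using hv)
  rw [List.reverse_reverse, hm2] at hc
  simp only [chk, Bool.or_eq_true, List.any_eq_true,
    List.all_eq_true, List.mem_range, beq_iff_eq, hm, List.mem_range'_1] at hc
  rcases hc with ⟨d, hd, hc⟩ | ⟨c, -, hc⟩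
  · have hd0 : (d : ZMod v) ≠ 0 := fun e => by
      have := Nat.eq_zero_of_dvd_of_lt ((ZMod.natCast_eq_zero_iff _ _).1 e) (by omega)
      omega
    have e := cntB_eq l ((l ++ l).drop d) (by simp [hn]; omega)
    have e' : ∑ i ∈ range v, sg (l.getD i false) * sg (((l ++ l).drop d).getD i false) = -1 := by
      rw [← h.cor d hd0, sumZ]
      refine sum_congr rfl fun i hi => ?_
      have hi' : d + i < v + v := by have := mem_range.1 hi; omega
      rw [hg i (mem_range.1 hi), hb, ← hb (_ + _), hll]
      simp [List.getD_eq_getElem?_getD, hi', add_comm]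
    rw [hn, e'] at e
    have e2 : cntB l ((l ++ l).drop d) = w + 1 := by omega
    simp [e2] at hc
  · refine ⟨c, fun x => ?_⟩
    rw [← hb, ← hb]
    simpa using congrArg sg (hc x.val (ZMod.val_lt x))

lemma fix {v w u j : ℕ} [NeZero v] (hw : v = 2 * w + 1) (hu : v = u + 2) (hj : w = j + 2)
    (hv : allL (chk v w) u j [true, true] = true) {s : ZMod v → ℤ} (h : Had s) :
    ∃ c, ∀ x, s (2 * x + c) = s (x + c) := by
  have hs : ∀ (F : ZMod v → ℤ) (a : ZMod v), ∑ x, F (x + a) = ∑ x, F x := fun F a =>
    Equiv.sum_comp (Equiv.addRight a) F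
  have : Fact (1 < v) := ⟨by omega⟩
  obtain ⟨a, -, ha⟩ : ∃ a ∈ (univ : Finset (ZMod v)), (1 - s a) * (1 - s (a + 1)) ≠ 0 := by
    refine exists_ne_zero_of_sum_ne_zero ?_
    have e : ∀ a, (1 - s a) * (1 - s (a + 1)) = 1 - s a - s (a + 1) + s a * s (a + 1) :=
      fun a => by ring
    simp only [e, sum_add_distrib, sum_sub_distrib, hs s 1, h.sum, h.cor 1 one_ne_zero]
    simp
    omega
  have h' : Had fun x => s (x + (a - u)) :=
    ⟨fun x => h.sq _, (hs s _).trans h.sum, fun d hd => by
      rw [← h.cor d hd, ← hs (fun x => s x * s (x + d)) (a - u)]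
      simp only [add_right_comm _ d]⟩
  obtain ⟨c, hc⟩ := fix0 hw hu hj hv h'
    (by rw [add_sub_cancel]; exact (h.sq _).resolve_left fun e => ha (by simp [e]))
    (by rw [add_right_comm, add_sub_cancel]; exact (h.sq _).resolve_left fun e => ha (by simp [e]))
  exact ⟨c + (a - u), fun x => by simpa only [add_assoc] using hc x⟩

/-- the first four powers of two -/
abbrev Q {v : ℕ} (a : ZMod v) : Prop := a = 1 ∨ a = 2 ∨ a = 2 * 2 ∨ a = 2 * 2 * 2

lemma two_of {v : ℕ} {s : ZMod v → ℤ} (h : ∃ c, ∀ x, s (2 * x + c) = s (x + c))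
    (hQ : ∀ a a' : ZMod v, (∃ b, a * b = 1) → (∃ b, a' * b = 1) → Q a ∨ Q a' ∨ Q (a * a')) :
    Two s := by
  obtain ⟨c, h⟩ := h
  have hq : ∀ a, Q a → ∀ x, s (a * x + c) = s (x + c) := by
    rintro a (rfl | rfl | rfl | rfl) x <;> simp only [one_mul, mul_assoc, h]
  refine ⟨c,
    { carrier := {t | ∀ x, s (t * x + c) = s (x + c)}
      mul_mem' := fun {a b} ha hb x => by rw [Units.val_mul, mul_assoc, ha, hb]
      one_mem' := fun x => by rw [Units.val_one, one_mul]
      inv_mem' := fun {a} ha x => by rw [← ha, Units.mul_inv_cancel_left] }, ?_, fun t ht => ht⟩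
  intro u u' hu hu'
  rcases hQ u u' ⟨_, u.mul_inv⟩ ⟨_, u'.mul_inv⟩ with e | e | e
  exacts [absurd (hq _ e) hu, absurd (hq _ e) hu', hq _ e]

end SmallAux

open SmallAux in
theorem stSmall : StSmall :=
  ⟨fun _ h => two_of (fix rfl rfl rfl chk7 h) (by decide +kernel),
    fun _ h => two_of (fix rfl rfl rfl chk15 h) (by decide +kernel)⟩

end Pool.Agent.Lib.MP_56f651_co.IX
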