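import Pool.Agent.Lib.MP_56f651_co.Main

open Finset

namespace Pool.Agent.Lib.MP_56f651_co.IX

/-- the image of a two-level sequence in a quotient group; `k` is the order of the kernel -/
structure HadQ {R : Type} [AddCommGroup R] [Fintype R] [DecidableEq R] (k : ℕ) (S : R → ℤ) :
    Prop where
  sum : ∑ x, S x = 1
  cor : ∀ d, ∑ x, S x * S (x + d) = (if d = 0 then (k * Fintype.card R + 1 : ℤ) else 0) - k

/-- some translate is fixed by a group of units of index at most two -/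
def Two {v : ℕ} (s : ZMod v → ℤ) : Prop :=
  ∃ (c : ZMod v) (M : Subgroup (ZMod v)ˣ), (∀ u u', u ∉ M → u' ∉ M → u * u' ∈ M) ∧
    ∀ t ∈ M, ∀ x, s (t * x + c) = s (x + c)

/-- a symmetric image is trivial -/
def StReal : Prop :=
  ∀ (d k : ℕ) [NeZero d] (S : ZMod d → ℤ), 1 < d → Odd d → HadQ k S → (∀ y, S (-y) = S y) →
    ∃ m : ℤ, m ^ 2 = k * d + 1 ∧ ∀ y, d * S y = 1 - m + if y = 0 then d * m else 0

/-- every unit multiplies a symmetric or skew circulant core by a sign -/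
def StCore : Prop :=
  ∀ (w : ℕ) [NeZero w] (β : ZMod w → ℤ) (κ : ℤ), (κ = 1 ∨ κ = -1) → (∀ y, |β y| ≤ 1) →
    ∑ y, β y = 0 → (∀ d, ∑ y, β y * β (d - y) = κ * ((if d = 0 then (w : ℤ) else 0) - 1)) →
    ∀ u : (ZMod w)ˣ, ∃ η : ℤ, (η = 1 ∨ η = -1) ∧ ∀ y, β (u * y) = η * β y

/-- the squares modulo `p` are multipliers and the row sums are known -/
def StT : Prop :=
  ∀ (p w : ℕ) [Fact p.Prime] [NeZero w] (t : ZMod p × ZMod w → ℤ) (ε : ℤ), 3 < p →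
    (ε = 1 ∨ ε = -1) → (w : ℤ) = p - 2 * ε → Had t →
    (∀ a : ZMod p, a ≠ 0 → ∀ x y, t (a * a * x, y) = t (x, y)) →
    (∀ y, ∑ x, t (x, y) = -ε + if y = 0 then ε * (p - ε) else 0) →
    ∀ (a : (ZMod p)ˣ) (u : (ZMod w)ˣ), ∃ η : ℤ, (η = 1 ∨ η = -1) ∧
      ∀ x y, t (a * x, u * y) = if x = 0 ∨ y = 0 then t (x, y) else η * t (x, y)

/-- the image modulo `3 p` -/
def StKill : Prop :=
  ∀ (p k : ℕ) [Fact p.Prime] (S : ZMod p × ZMod 3 → ℤ) (ε : ℤ), 3 < p → (ε = 1 ∨ ε = -1) →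
    (3 * k : ℤ) = p - 2 * ε → HadQ k S → (∀ z, |S z| ≤ k) → (∀ z, Odd (S z)) →
    (∀ a : ZMod p, a ≠ 0 → ∀ x y, S (a * a * x, y) = S (x, y)) →
    (∀ x y, S (x, -y) = S (x, y)) → IsSquare (3 * k)

/-- the orders 7 and 15 -/
def StSmall : Prop :=
  (∀ s : ZMod 7 → ℤ, Had s → Two s) ∧ ∀ s : ZMod 15 → ℤ, Had s → Two s

/-- the condition on the cubic Jacobi sum -/
def StHallA : Prop :=
  ∀ (p : ℕ) [Fact p.Prime] (g : ZMod p) (s : ZMod p → ℤ) (ω : ℂ) (χ : MulChar (ZMod p) ℂ),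
    7 < p → p % 12 = 7 → orderOf g = p - 1 → Had s → s 0 = 1 →
    (∀ k : ℕ, s (g ^ k) = -1 ↔ (k % 6 = 0 ∨ k % 6 = 1 ∨ k % 6 = 3)) →
    ω ^ 2 + ω + 1 = 0 → χ g = ω → jacobiSum χ χ - jacobiSum χ⁻¹ χ⁻¹ = 6 * (2 * ω + 1)

/-- the form of `p` and the class of `3` -/
def StHallB : Prop :=
  ∀ (p : ℕ) [Fact p.Prime] (g : ZMod p) (ω : ℂ) (χ : MulChar (ZMod p) ℂ),
    p % 12 = 7 → orderOf g = p - 1 → ω ^ 2 + ω + 1 = 0 → χ g = ω →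
    jacobiSum χ χ - jacobiSum χ⁻¹ χ⁻¹ = 6 * (2 * ω + 1) →
    (∃ c : ℕ, p = 4 * c ^ 2 + 27) ∧ ∃ m : ℕ, g ^ (6 * m + 1) = 3

/-- prime order, the sixth powers are multipliers -/
def StPrime : Prop :=
  ∀ (p : ℕ) [Fact p.Prime] (s : ZMod p → ℤ), p % 4 = 3 → Had s →
    (∀ a : ZMod p, a ≠ 0 → ∀ x, s (a ^ 6 * x) = s x) →
    Two s ∨ ∃ a : ZMod p, IsUnit a ∧ (∃ c : ℕ, p = 4 * c ^ 2 + 27) ∧
      ∃ g : ZMod p, orderOf g = p - 1 ∧ (∃ m : ℕ, g ^ (6 * m + 1) = 3) ∧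
        ∀ x, s x = -1 ↔ ∃ k : ℕ, (k % 6 = 0 ∨ k % 6 = 1 ∨ k % 6 = 3) ∧ g ^ k = a * x

end Pool.Agent.Lib.MP_56f651_co.IX
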