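import Pool.Agent.Lib.MP_56f651_co.IX.St

open Finset

namespace Pool.Agent.Lib.MP_56f651_co.IX

namespace TAux

variable {p : ℕ} [Fact p.Prime]

theorem shift (hc : ringChar (ZMod p) ≠ 2) :
    ∑ x : ZMod p, quadraticChar (ZMod p) x * quadraticChar (ZMod p) (x + 1) = -1 := by
  have h := jacobiSum_nontrivial_inv (quadraticChar_ne_one hc)
  rw [(quadraticChar_isQuadratic (ZMod p)).inv, jacobiSum] at h
  have h1 : quadraticChar (ZMod p) (-1) * quadraticChar (ZMod p) (-1) = 1 := by
    rw [← map_mul]; simp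
  rw [← Equiv.sum_comp (Equiv.neg (ZMod p))]
  have h2 : ∀ x : ZMod p, quadraticChar (ZMod p) (Equiv.neg (ZMod p) x) *
      quadraticChar (ZMod p) (Equiv.neg (ZMod p) x + 1) = quadraticChar (ZMod p) (-1) *
        (quadraticChar (ZMod p) x * quadraticChar (ZMod p) (1 - x)) := fun x => by
    rw [Equiv.neg_apply, neg_add_eq_sub, neg_eq_neg_one_mul x, map_mul, mul_assoc]
  rw [sum_congr rfl fun x _ => h2 x, ← mul_sum, h, mul_neg, h1]

theorem inner0 (hc : ringChar (ZMod p) ≠ 2) (b b' A A' B B' : ℤ) :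
    ∑ x : ZMod p, (b * quadraticChar (ZMod p) x + A - if x = 0 then B else 0) *
      (b' * quadraticChar (ZMod p) x + A' - if x = 0 then B' else 0) =
      (p - 1) * (b * b') + p * (A * A') - A * B' - B * A' + B * B' := by
  have h : ∀ x : ZMod p, (b * quadraticChar (ZMod p) x + A - if x = 0 then B else 0) *
      (b' * quadraticChar (ZMod p) x + A' - if x = 0 then B' else 0) =
      (b * b' + A * A') + (b * A' + A * b') * quadraticChar (ZMod p) x +
        if x = 0 then B * B' - A * B' - B * A' - b * b' else 0 := fun x => by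
    by_cases hx : x = 0
    · rw [if_pos hx, if_pos hx, if_pos hx, hx, quadraticChar_zero]; ring
    · rw [if_neg hx, if_neg hx, if_neg hx]
      rcases quadraticChar_dichotomy hx with h | h <;> rw [h] <;> ring
  rw [sum_congr rfl fun x _ => h x, sum_add_distrib, sum_add_distrib, ← mul_sum,
    quadraticChar_sum_zero hc, sum_ite_eq', if_pos (mem_univ _), sum_const, card_univ, ZMod.card,
    nsmul_eq_mul]
  ring

theorem inner1 (hc : ringChar (ZMod p) ≠ 2) (b b' A A' B B' : ℤ) :
    ∑ x : ZMod p, (b * quadraticChar (ZMod p) x + A - if x = 0 then B else 0) *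
      (b' * quadraticChar (ZMod p) (x + 1) + A' - if x + 1 = 0 then B' else 0) =
      -(b * b') - quadraticChar (ZMod p) (-1) * (b * B') - B * b' + p * (A * A') - A * B' -
        B * A' := by
  have h : ∀ x : ZMod p, (b * quadraticChar (ZMod p) x + A - if x = 0 then B else 0) *
      (b' * quadraticChar (ZMod p) (x + 1) + A' - if x + 1 = 0 then B' else 0) =
      b * b' * (quadraticChar (ZMod p) x * quadraticChar (ZMod p) (x + 1)) +
        b * A' * quadraticChar (ZMod p) x + A * b' * quadraticChar (ZMod p) (x + 1) + A * A' +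
        (if x = 0 then -(B * b') - B * A' else 0) +
        if x = -1 then -(quadraticChar (ZMod p) (-1) * (b * B')) - A * B' else 0 := fun x => by
    by_cases hx : x = 0
    · have h1 : ¬x + 1 = 0 := by rw [hx, zero_add]; exact one_ne_zero
      have h2 : ¬x = -1 := fun h => h1 (by rw [h, neg_add_cancel])
      rw [if_pos hx, if_pos hx, if_neg h1, if_neg h2, hx, zero_add, map_one]; ring
    · by_cases hy : x = -1
      · have h1 : x + 1 = 0 := by rw [hy, neg_add_cancel]
        rw [if_neg hx, if_neg hx, if_pos hy, if_pos h1, ← hy]; ring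
      · have h1 : ¬x + 1 = 0 := fun h => hy (eq_neg_of_add_eq_zero_left h)
        rw [if_neg hx, if_neg hx, if_neg hy, if_neg h1]; ring
  have h3 : ∑ x : ZMod p, quadraticChar (ZMod p) (x + 1) = 0 :=
    (Equiv.sum_comp (Equiv.addRight (1 : ZMod p)) fun x => quadraticChar (ZMod p) x).trans
      (quadraticChar_sum_zero hc)
  rw [sum_congr rfl fun x _ => h x, sum_add_distrib, sum_add_distrib, sum_add_distrib,
    sum_add_distrib, sum_add_distrib, ← mul_sum, ← mul_sum, ← mul_sum, shift hc,
    quadraticChar_sum_zero hc, h3, sum_ite_eq', sum_ite_eq', if_pos (mem_univ _),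
    if_pos (mem_univ _), sum_const, card_univ, ZMod.card, nsmul_eq_mul]
  ring

/-- a row that is constant on the square classes -/
theorem row (hc : ringChar (ZMod p) ≠ 2) (r : ZMod p → ℤ)
    (hr : ∀ a : ZMod p, a ≠ 0 → ∀ x, r (a * a * x) = r x) :
    ∃ n : ZMod p, (∀ x, x ≠ 0 → (quadraticChar (ZMod p) x = 1 ∧ r x = r 1) ∨
      (quadraticChar (ZMod p) x = -1 ∧ r x = r n)) ∧
      2 * ∑ x, r x = (p - 1) * (r 1 + r n) + 2 * r 0 := by
  obtain ⟨n, hn⟩ := FiniteField.exists_nonsquare hc
  have hn0 : n ≠ 0 := by rintro rfl; exact hn IsSquare.zero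
  have hn1 : quadraticChar (ZMod p) n = -1 := quadraticChar_neg_one_iff_not_isSquare.2 hn
  have h1 : ∀ x, x ≠ 0 → (quadraticChar (ZMod p) x = 1 ∧ r x = r 1) ∨
      (quadraticChar (ZMod p) x = -1 ∧ r x = r n) := fun x hx => by
    rcases quadraticChar_dichotomy hx with h | h
    · obtain ⟨b, hb⟩ := (quadraticChar_one_iff_isSquare hx).1 h
      refine Or.inl ⟨h, ?_⟩
      rw [← hr b (fun h0 => hx (by rw [hb, h0, mul_zero])) 1, mul_one, ← hb]
    · have h2 : quadraticChar (ZMod p) (x * n) = 1 := by rw [map_mul, h, hn1]; rfl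
      obtain ⟨b, hb⟩ := (quadraticChar_one_iff_isSquare (mul_ne_zero hx hn0)).1 h2
      have hb0 : b ≠ 0 := fun h0 => mul_ne_zero hx hn0 (by rw [hb, h0, mul_zero])
      refine Or.inr ⟨h, ?_⟩
      rw [← hr n hn0 x, ← hr b hb0 n, ← hb]
      congr 1; ring
  refine ⟨n, h1, ?_⟩
  have h2 : ∀ x, 2 * r x = (r 1 + r n) + (r 1 - r n) * quadraticChar (ZMod p) x +
      if x = 0 then 2 * r 0 - (r 1 + r n) else 0 := fun x => by
    by_cases hx : x = 0
    · rw [if_pos hx, hx, quadraticChar_zero]; ring
    · rw [if_neg hx]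
      rcases h1 x hx with h | h <;> rw [h.1, h.2] <;> ring
  rw [mul_sum, sum_congr rfl fun x _ => h2 x, sum_add_distrib, sum_add_distrib, ← mul_sum,
    quadraticChar_sum_zero hc, sum_ite_eq', if_pos (mem_univ _), sum_const, card_univ, ZMod.card,
    nsmul_eq_mul]
  ring

end TAux

open TAux in
theorem stT (hCore : StCore) : StT := by
  intro p w _ _ t ε hp hε hw ht hs hrow a u
  have hc : ringChar (ZMod p) ≠ 2 := by rw [ZMod.ringChar_zmod_n]; omega
  have hp5 : (5 : ℤ) ≤ p := by
    have := (Fact.out : p.Prime).eq_two_or_odd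
    exact_mod_cast (by omega : 5 ≤ p)
  have hee : ε * ε = 1 := by rcases hε with h | h <;> rw [h] <;> norm_num
  let β : ZMod w → ℤ := fun y => if y = 0 then 0 else t (1, y)
  let A : ZMod w → ℤ := fun y => if y = 0 then ε else 0
  let B : ZMod w → ℤ := fun y => ε + if y = 0 then 1 else 0
  have F : ∀ x y, t (x, y) = β y * quadraticChar (ZMod p) x + A y - if x = 0 then B y else 0 := by
    intro x y
    obtain ⟨n, h1, h2⟩ := row hc (fun x => t (x, y)) fun a ha x => hs a ha x y
    rw [hrow] at h2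
    simp only [β, A, B]
    have a0 := ht.sq (0, y)
    have a1 := ht.sq (1, y)
    have a2 := ht.sq (n, y)
    by_cases hy : y = 0
    · simp only [if_pos hy] at h2 ⊢
      have h3 : t (0, y) = -1 ∧ t (1, y) = ε ∧ t (n, y) = ε := by
        rcases hε with e | e <;> rcases a0 with a0 | a0 <;> rcases a1 with a1 | a1 <;>
          rcases a2 with a2 | a2 <;> rw [e, a0, a1, a2] at h2 <;> rw [e, a0, a1, a2] <;> omega
      by_cases hx : x = 0
      · rw [if_pos hx, hx, h3.1]; ring
      · rw [if_neg hx]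
        rcases h1 x hx with h | h <;> rw [h.2] <;> simp only [h3.2.1, h3.2.2] <;> ring
    · simp only [if_neg hy] at h2 ⊢
      have h3 : t (0, y) = -ε ∧ t (n, y) = -t (1, y) := by
        rcases hε with e | e <;> rcases a0 with a0 | a0 <;> rcases a1 with a1 | a1 <;>
          rcases a2 with a2 | a2 <;> rw [e, a0, a1, a2] at h2 <;> rw [e, a0, a1, a2] <;> omega
      by_cases hx : x = 0
      · rw [if_pos hx, hx, h3.1, quadraticChar_zero]; ring
      · rw [if_neg hx]
        rcases h1 x hx with h | h <;> rw [h.1, h.2] <;> linarith [h3.2]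
  have sA : ∀ (f : ZMod w → ℤ), ∑ y, A y * f y = ε * f 0 := fun f => by
    simp only [A, ite_mul, zero_mul, sum_ite_eq', mem_univ, if_true]
  have sB : ∀ (f : ZMod w → ℤ), ∑ y, B y * f y = ε * ∑ y, f y + f 0 := fun f => by
    simp only [B, add_mul, ite_mul, zero_mul, one_mul, sum_add_distrib, sum_ite_eq', mem_univ,
      if_true, mul_sum]
  have sh : ∀ (f : ZMod w → ℤ) d, ∑ y, f (y + d) = ∑ y, f y := fun f d =>
    Equiv.sum_comp (Equiv.addRight d) f
  have tA : ∑ y, A y = ε := by simpa using sA fun _ => 1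
  have tB : ∑ y, B y = ε * w + 1 := by simpa using sB fun _ => 1
  have vA : ∀ d, d ≠ 0 → A d = 0 := fun d hd => if_neg hd
  have vB : ∀ d, d ≠ 0 → B d = ε := fun d hd => by simp only [B, if_neg hd, add_zero]
  have c0 : ∀ d, d ≠ 0 → ∑ y, β y * β (y + d) = -1 := fun d hd => by
    have h := ht.cor (0, d) fun h => hd (congrArg Prod.snd h)
    rw [Fintype.sum_prod_type_right] at h
    simp only [Prod.mk_add_mk, add_zero, F, inner0 hc, sum_add_distrib, sum_sub_distrib,
      ← mul_sum, sA, sB, sh, zero_add, tA, tB, vA d hd, vB d hd] at h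
    refine mul_left_cancel₀ (show (p : ℤ) - 1 ≠ 0 by omega) ?_
    linear_combination h + (2 - w) * hee - hw
  have c00 : ∑ y, β y * β y = w - 1 := by
    have h : ∀ y, β y * β y = 1 - if y = 0 then 1 else 0 := fun y => by
      simp only [β]; split_ifs
      · simp
      · simp [ht.mul_self]
    simp [h]
  have cc : ∀ d, ∑ y, β y * β (y + d) = (if d = 0 then (w : ℤ) else 0) - 1 := fun d => by
    split_ifs with hd
    · simp only [hd, add_zero, c00]
    · rw [c0 d hd]; rfl
  have s0 : ∑ y, β y = 0 := by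
    have h : ∑ d, ∑ y, β y * β (y + d) = (∑ y, β y) * ∑ y, β y := by
      rw [sum_comm, sum_mul]
      refine sum_congr rfl fun y _ => ?_
      rw [← mul_sum, Equiv.sum_comp (Equiv.addLeft y) β |>.symm]; rfl
    simp only [cc, sum_sub_distrib, sum_ite_eq', mem_univ, if_true, sum_const, card_univ,
      ZMod.card, nsmul_eq_mul, mul_one, sub_self] at h
    exact mul_self_eq_zero.1 h.symm
  have m1 : quadraticChar (ZMod p) (-1) = 1 ∨ quadraticChar (ZMod p) (-1) = -1 :=
    quadraticChar_dichotomy (neg_ne_zero.2 one_ne_zero)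
  have c1 : ∀ d, β (-d) = -quadraticChar (ZMod p) (-1) * β d := fun d => by
    by_cases hd : d = 0
    · simp [β, hd]
    have h := ht.cor (1, d) fun h => hd (congrArg Prod.snd h)
    rw [Fintype.sum_prod_type_right] at h
    have e1 : ∑ y, β y * B (y + d) = β (-d) := by
      rw [← sh (fun y => β y * B (y + d)) (-d)]
      simp only [neg_add_cancel_right, mul_comm _ (B _), sB, sh, s0, mul_zero, zero_add]
    simp only [Prod.mk_add_mk, F, inner1 hc, sum_add_distrib, sum_sub_distrib, sum_neg_distrib,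
      ← mul_sum, sA, sB, sh, zero_add, tA, vA d hd, vB d hd, c0 d hd, e1, s0] at h
    rcases m1 with m | m <;> rw [m] at h ⊢ <;> linarith
  obtain ⟨η, hη, hβ⟩ := hCore w β (-quadraticChar (ZMod p) (-1)) (by omega)
    (fun y => by
      simp only [β]; split_ifs
      · simp
      · rcases ht.sq (1, y) with h | h <;> simp [h]) s0
    (fun d => by
      have h : ∀ y, β y * β (d - y) = -quadraticChar (ZMod p) (-1) * (β y * β (y + -d)) :=
        fun y => by rw [← neg_sub, c1, sub_eq_add_neg]; ring
      rw [sum_congr rfl fun y _ => h y, ← mul_sum, cc]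
      simp only [neg_eq_zero]) u
  refine ⟨quadraticChar (ZMod p) a * η, ?_, fun x y => ?_⟩
  · rcases quadraticChar_dichotomy a.ne_zero with h | h <;> rw [h] <;> omega
  · rw [F, F x y, hβ, map_mul]
    simp only [A, B, Units.mul_right_eq_zero]
    by_cases hx : x = 0
    · simp [hx]
    · by_cases hy : y = 0
      · simp [hy, β]
      · simp only [hx, hy, if_false, or_self]; ring

end Pool.Agent.Lib.MP_56f651_co.IX
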